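import Mathlib

/-!
# Locally minimal groups and countable tightness: definitions
-/

namespace Pool.Agent.Lib.MP_335999_gt

/-- A topological group `G` is locally minimal if there is a neighbourhood `V` of the identity
such that every Hausdorff group topology on `G` which is coarser than the given one and in which
`V` is still a neighbourhood of the identity is equal to the given one. -/
def LocallyMinimal (G : Type*) [Group G] [τ : TopologicalSpace G] : Prop :=
  ∃ V ∈ nhds (1 : G), ∀ σ : TopologicalSpace G, @IsTopologicalGroup G σ _ → @T2Space G σ →
    τ ≤ σ → V ∈ @nhds G σ 1 → σ = τ

/-- A space has countable tightness if every point in the closure of a set `A` is in the closure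
of a countable subset of `A`. -/
def CountablyTight (X : Type*) [TopologicalSpace X] : Prop :=
  ∀ (A : Set X) (x : X), x ∈ closure A → ∃ B ⊆ A, B.Countable ∧ x ∈ closure B

end Pool.Agent.Lib.MP_335999_gt
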