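import Pool.Agent.Lib.MP_335999_gt.Main
import Pool.Agent.Lib.MP_335999_gt.Defs

/-!
# Locally minimal abelian groups of countable tightness are metrizable
-/

open Filter Topology Set Pointwise

namespace Pool.Agent.Lib.MP_335999_gt

universe u

theorem gf_nhds (X : Type u) [AddCommGroup X] [TopologicalSpace X] [IsTopologicalAddGroup X] :
    GF (𝓝 (0 : X)) where
  zero := by
    rw [← Filter.pure_zero]
    exact pure_le_nhds 0
  add := by
    rw [← Filter.map₂_add, ← Filter.map_prod_eq_map₂, ← nhds_prod_eq]
    have h1 := (continuous_add (M := X)).tendsto (0, 0)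
    simp only [add_zero] at h1
    exact h1
  neg := by
    have h1 := (continuous_neg (G := X)).tendsto 0
    rw [neg_zero] at h1
    exact h1

theorem metrizable_of_locallyMinimal (G : Type u) [CommGroup G] [TopologicalSpace G]
    [IsTopologicalGroup G] [T2Space G] (hmin : LocallyMinimal G) (hct : CountablyTight G) :
    TopologicalSpace.MetrizableSpace G := by
  obtain ⟨V, hV, hmin⟩ := hmin
  have hN : GF (𝓝 (0 : Additive G)) := gf_nhds (Additive G)
  have hsep : Sep (𝓝 (0 : Additive G)) := by
    intro x hx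
    have hT1 : T1Space (Additive G) := (inferInstance : T1Space G)
    exact ⟨{x}ᶜ, isOpen_compl_singleton.mem_nhds fun h => hx h.symm, by simp⟩
  have hLM : LM (𝓝 (0 : Additive G)) V := by
    intro F hF hFs hle hVF
    obtain ⟨σ, hσ, hn⟩ := hF.exists_topology
    have hcm : @Continuous (G × G) G (@instTopologicalSpaceProd G G σ σ) σ
        (fun p => p.1 * p.2) :=
      @continuous_add (Additive G) σ _ (@IsTopologicalAddGroup.toContinuousAdd _ σ _ hσ)
    have hci : @Continuous G G σ σ (fun p => p⁻¹) :=
      @continuous_neg (Additive G) σ _ (@IsTopologicalAddGroup.toContinuousNeg _ σ _ hσ)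
    have h1 : @IsTopologicalGroup G σ _ :=
      @IsTopologicalGroup.mk G σ _ (@ContinuousMul.mk G σ _ hcm) (@ContinuousInv.mk G σ _ hci)
    have hn1 : @nhds G σ 1 = F := hn
    have h2 : @T2Space G σ := by
      refine @IsTopologicalGroup.t2Space_of_one_sep G σ _ h1 ?_
      intro x hx
      rw [hn1]
      exact hFs x hx
    have h3 : (inferInstance : TopologicalSpace G) ≤ σ := by
      rw [le_iff_nhds]
      intro x
      have e1 : 𝓝 x = map (fun y => x * y) (𝓝 1) := (map_mul_left_nhds_one x).symm
      have e2 : @nhds G σ x = map (fun y => x * y) (@nhds G σ 1) :=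
        (@map_mul_left_nhds_one G σ _ h1 x).symm
      rw [e2, hn1]
      change 𝓝 x ≤ _
      rw [e1]
      exact map_mono hle
    have h4 := hmin σ h1 h2 h3 (by rw [hn1]; exact hVF)
    rw [← hn1, h4]
    exact le_rfl
  have hCT : CT (𝓝 (0 : Additive G)) := by
    intro A hA
    obtain ⟨B, hB, hBc, hB0⟩ := hct A 1 (by
      rw [mem_closure_iff_nhds]
      intro t ht
      obtain ⟨x, hx1, hx2⟩ := hA t ht
      exact ⟨x, hx2, hx1⟩)
    refine ⟨B, hB, hBc, fun U hU => ?_⟩
    obtain ⟨x, hx1, hx2⟩ := mem_closure_iff_nhds.1 hB0 U hU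
    exact ⟨x, hx2, hx1⟩
  have hcg0 := countablyGenerated_of_LM hN hsep hV hLM hCT
  have hcg : (𝓝 (1 : G)).IsCountablyGenerated := hcg0
  let _ : UniformSpace G := IsTopologicalGroup.rightUniformSpace G
  have hu : (uniformity G).IsCountablyGenerated := by
    rw [uniformity_eq_comap_nhds_one']
    infer_instance
  exact UniformSpace.metrizableSpace

end Pool.Agent.Lib.MP_335999_gt
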