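import Mathlib

/-!
# Uncountable divisible groups have large quotients
-/

open Function

namespace Pool.Agent.Lib.MP_335999_gt

universe u

/-- abelian groups with a large family of independent quotients -/
def Rich (Γ : Type u) [AddCommGroup Γ] : Prop :=
  ∃ (Q : Type) (_ : AddCommGroup Q) (_ : Countable Q) (_ : Nontrivial Q) (I : Type u)
    (_ : Uncountable I) (h : Γ →+ (I →₀ Q)), ∀ i q, ∃ γ, h γ = Finsupp.single i q

/-- divisible groups -/
def Divis (A : Type*) [AddCommGroup A] : Prop := ∀ n : ℕ, n ≠ 0 → ∀ a : A, ∃ b : A, n • b = a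

theorem Divis.extend {A Γ V : Type*} [AddCommGroup A] [AddCommGroup Γ] [AddCommGroup V]
    (hA : Divis A) (f : V →+ Γ) (hf : Injective f) (g : V →+ A) :
    ∃ h : Γ →+ A, h.comp f = g := by
  have hdiv : ∀ n : ℤ, n ≠ 0 → Surjective (fun a : A => n • a) := by
    intro n hn a
    obtain ⟨b, hb⟩ := hA n.natAbs (Int.natAbs_ne_zero.2 hn) a
    rcases le_or_gt 0 n with h | h
    · refine ⟨b, ?_⟩
      change n • b = a
      rw [← hb, ← natCast_zsmul, Int.natAbs_of_nonneg h]
    · refine ⟨-b, ?_⟩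
      change n • (-b) = a
      have h2 : ((n.natAbs : ℕ) : ℤ) = -n := by omega
      rw [← hb, ← natCast_zsmul, h2]
      simp
  let _ : DivisibleBy A ℤ := divisibleByOfSMulRightSurj A ℤ (fun {n} hn => hdiv n hn)
  exact (Module.Baer.of_divisible A).extension_property_addMonoidHom f hf g

theorem Divis.finsupp {A I : Type*} [AddCommGroup A] (hA : Divis A) : Divis (I →₀ A) := by
  classical
  intro n hn a
  choose g hg using hA n hn
  refine ⟨a.mapRange (fun x => if x = 0 then 0 else g x) (by simp), ?_⟩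
  ext i
  rw [Finsupp.smul_apply, Finsupp.mapRange_apply]
  split_ifs with h
  · rw [h, smul_zero]
  · exact hg _

theorem exists_exponent {p : ℕ} (hp : p.Prime) (Γ : Type u) [AddCommGroup Γ]
    (hΓ : ∀ γ : Γ, p • γ = 0) (hunc : ¬ Countable Γ) :
    ∃ (I : Type u) (_ : Uncountable I) (h : Γ →+ (I →₀ ZMod p)), Surjective h := by
  have : Fact p.Prime := ⟨hp⟩
  let _ : Module (ZMod p) Γ := AddCommGroup.zmodModule hΓ
  let b := Module.Basis.ofVectorSpace (ZMod p) Γ
  refine ⟨Module.Basis.ofVectorSpaceIndex (ZMod p) Γ, ?_, b.repr.toLinearMap.toAddMonoidHom,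
    b.repr.surjective⟩
  by_contra h
  rw [not_uncountable_iff] at h
  exact hunc (b.repr.injective.countable)

/-- The localization of the integers at `p` inside the rationals. -/
def Zp (p : ℕ) (hp : p.Prime) : AddSubgroup ℚ where
  carrier := {r | ∃ b : ℕ, ¬ p ∣ b ∧ ∃ a : ℤ, (b : ℚ) * r = a}
  zero_mem' := ⟨1, fun h => hp.one_lt.ne' (Nat.dvd_one.1 h), 0, by simp⟩
  add_mem' := by
    rintro r s ⟨b, hb, a, ha⟩ ⟨b', hb', a', ha'⟩
    refine ⟨b * b', fun h => ?_, b' * a + b * a', ?_⟩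
    · rcases hp.dvd_mul.1 h with h | h
      · exact hb h
      · exact hb' h
    · push_cast
      rw [← ha, ← ha']
      ring
  neg_mem' := by
    rintro r ⟨b, hb, a, ha⟩
    refine ⟨b, hb, -a, ?_⟩
    push_cast
    rw [← ha]
    ring

theorem mem_Zp {p : ℕ} {hp : p.Prime} {r : ℚ} :
    r ∈ Zp p hp ↔ ∃ b : ℕ, ¬ p ∣ b ∧ ∃ a : ℤ, (b : ℚ) * r = a := Iff.rfl

/-- The quasicyclic group. -/
abbrev QC (p : ℕ) (hp : p.Prime) : Type := ℚ ⧸ Zp p hp

theorem QC.divis (p : ℕ) (hp : p.Prime) : Divis (QC p hp) := by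
  intro n hn a
  obtain ⟨r, rfl⟩ := QuotientAddGroup.mk_surjective a
  refine ⟨((r / n : ℚ) : QC p hp), ?_⟩
  rw [← QuotientAddGroup.mk_nsmul]
  congr 1
  have : (n : ℚ) ≠ 0 := by exact_mod_cast hn
  rw [nsmul_eq_mul]
  field_simp

/-- the element of order `p` -/
def QC.z (p : ℕ) (hp : p.Prime) : QC p hp := ((1 / p : ℚ) : QC p hp)

theorem QC.p_z (p : ℕ) (hp : p.Prime) : p • QC.z p hp = 0 := by
  unfold QC.z
  rw [← QuotientAddGroup.mk_nsmul, QuotientAddGroup.eq_zero_iff, nsmul_eq_mul]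
  have : (p : ℚ) ≠ 0 := by exact_mod_cast hp.ne_zero
  rw [mul_one_div_cancel this]
  exact ⟨1, fun h => hp.one_lt.ne' (Nat.dvd_one.1 h), 1, by simp⟩

theorem QC.z_ne (p : ℕ) (hp : p.Prime) : QC.z p hp ≠ 0 := by
  unfold QC.z
  rw [Ne, QuotientAddGroup.eq_zero_iff, mem_Zp]
  rintro ⟨b, hb, a, ha⟩
  have hp0 : (p : ℚ) ≠ 0 := by exact_mod_cast hp.ne_zero
  have h1 : (b : ℚ) = a * p := by
    rw [← ha]
    field_simp
  have h2 : (b : ℤ) = a * p := by exact_mod_cast h1
  apply hb
  have h3 : (p : ℤ) ∣ b := ⟨a, by rw [h2]; ring⟩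
  exact_mod_cast h3

theorem QC.socle (p : ℕ) (hp : p.Prime) (q : QC p hp) (hq : p • q = 0) :
    ∃ c : ℤ, q = c • QC.z p hp := by
  obtain ⟨r, rfl⟩ := QuotientAddGroup.mk_surjective q
  change p • ((r : ℚ) : QC p hp) = 0 at hq
  rw [← QuotientAddGroup.mk_nsmul, QuotientAddGroup.eq_zero_iff, nsmul_eq_mul] at hq
  obtain ⟨b, hb, a, ha⟩ := hq
  have hcop : IsCoprime (b : ℤ) (p : ℤ) := by
    rw [isCoprime_comm]
    refine (Prime.coprime_iff_not_dvd (Nat.prime_iff_prime_int.1 hp)).2 fun h => hb ?_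
    exact_mod_cast h
  obtain ⟨u, v, huv⟩ := hcop
  refine ⟨u * a, ?_⟩
  change ((r : ℚ) : QC p hp) = _
  unfold QC.z
  rw [← QuotientAddGroup.mk_zsmul, ← sub_eq_zero, ← QuotientAddGroup.mk_sub,
    QuotientAddGroup.eq_zero_iff, mem_Zp]
  refine ⟨b, hb, v * a, ?_⟩
  have hp0 : (p : ℚ) ≠ 0 := by exact_mod_cast hp.ne_zero
  have huv' : (u : ℚ) * b + v * p = 1 := by exact_mod_cast huv
  rw [zsmul_eq_mul]
  push_cast
  field_simp
  have h1 : (b : ℚ) * (r * p - u * a) = b * (p * r) - b * u * a := by ring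
  have h2 : (b : ℚ) * r * p = a := by rw [← ha]; ring
  linear_combination h2 - a * huv'

theorem QC.primary (p : ℕ) (hp : p.Prime) (q : QC p hp) : ∃ k : ℕ, p ^ k • q = 0 := by
  obtain ⟨r, rfl⟩ := QuotientAddGroup.mk_surjective q
  obtain ⟨k, b, hb, hr⟩ := Nat.exists_eq_pow_mul_and_not_dvd r.den_nz p hp.ne_one
  refine ⟨k, ?_⟩
  change p ^ k • ((r : ℚ) : QC p hp) = 0
  rw [← QuotientAddGroup.mk_nsmul, QuotientAddGroup.eq_zero_iff, mem_Zp]
  refine ⟨b, hb, r.num, ?_⟩
  rw [nsmul_eq_mul]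
  have h1 : (r.den : ℚ) * r = r.num := Rat.den_mul_eq_num r
  rw [hr] at h1
  push_cast at h1 ⊢
  linear_combination h1

/-- torsion of a divisible group: the uncountable socle case -/
theorem rich_of_socle {p : ℕ} (hp : p.Prime) (Γ : Type u) [AddCommGroup Γ] (hdiv : Divis Γ)
    (hunc : ¬ Countable (nsmulAddMonoidHom p : Γ →+ Γ).ker) : Rich Γ := by
  classical
  obtain ⟨I, hI, h₁, hh₁⟩ := exists_exponent hp (nsmulAddMonoidHom p : Γ →+ Γ).ker (by
    intro γ
    exact Subtype.ext γ.2) hunc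
  have hp' : Fact p.Prime := ⟨hp⟩
  -- the embedding of the prime cyclic group
  let j : ZMod p →+ QC p hp :=
    ZMod.lift p ⟨zmultiplesHom _ (QC.z p hp), by
      rw [zmultiplesHom_apply, natCast_zsmul]
      exact QC.p_z p hp⟩
  have hj : ∀ c : ℤ, j (c : ZMod p) = c • QC.z p hp := by
    intro c
    change ZMod.lift p _ (c : ZMod p) = _
    rw [ZMod.lift_coe]
    rfl
  obtain ⟨h, hh⟩ := (QC.divis p hp).finsupp.extend (nsmulAddMonoidHom p : Γ →+ Γ).ker.subtype
    (AddSubgroup.subtype_injective _)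
    ((Finsupp.mapRange.addMonoidHom (ι := I) j).comp h₁)
  have hsur : ∀ k : ℕ, ∀ v : I →₀ QC p hp, p ^ k • v = 0 → ∃ γ, h γ = v := by
    intro k
    induction k with
    | zero =>
      intro v hv
      refine ⟨0, ?_⟩
      rw [pow_zero, one_smul] at hv
      rw [hv, map_zero]
    | succ k ih =>
      intro v hv
      obtain ⟨γ, hγ⟩ := ih (p • v) (by rw [smul_smul, ← pow_succ]; exact hv)
      obtain ⟨γ', rfl⟩ := hdiv p hp.ne_zero γ
      set w := v - h γ' with hw
      have hpw : p • w = 0 := by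
        rw [hw, smul_sub, ← hγ, map_nsmul, sub_self]
      have hsoc : ∀ q : QC p hp, ∃ c : ZMod p, p • q = 0 → j c = q := by
        intro q
        by_cases hq : p • q = 0
        · obtain ⟨c, hc⟩ := QC.socle p hp q hq
          exact ⟨(c : ZMod p), fun _ => by rw [hj, ← hc]⟩
        · exact ⟨0, fun h => absurd h hq⟩
      choose g hg using hsoc
      let c : I →₀ ZMod p := w.mapRange (fun q => if q = 0 then 0 else g q) (by simp)
      obtain ⟨v', hv'⟩ := hh₁ c
      refine ⟨γ' + v'.1, ?_⟩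
      have h2 : h v'.1 = w := by
        have h3 : h v'.1 = (h.comp (nsmulAddMonoidHom p : Γ →+ Γ).ker.subtype) v' := rfl
        rw [h3, hh, AddMonoidHom.comp_apply, hv']
        ext i
        rw [Finsupp.mapRange.addMonoidHom_apply, Finsupp.mapRange_apply, Finsupp.mapRange_apply]
        split_ifs with h0
        · rw [h0, map_zero]
        · apply hg
          have := congrArg (fun f : I →₀ QC p hp => f i) hpw
          simpa using this
      rw [map_add, h2, hw]
      abel
  refine ⟨QC p hp, inferInstance, QuotientAddGroup.mk_surjective.countable,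
    ⟨⟨QC.z p hp, 0, QC.z_ne p hp⟩⟩, I, hI, h, ?_⟩
  intro i q
  obtain ⟨k, hk⟩ := QC.primary p hp q
  exact hsur k _ (by rw [Finsupp.smul_single, hk, Finsupp.single_zero])

/-- the case of countable socles -/
theorem rich_of_rank (Γ : Type u) [AddCommGroup Γ] (hdiv : Divis Γ) (hunc : ¬ Countable Γ)
    (hsoc : ∀ p : ℕ, p.Prime → Countable (nsmulAddMonoidHom p : Γ →+ Γ).ker) : Rich Γ := by
  classical
  -- fibres of multiplication by nonzero integers are countable
  have htor : ∀ n : ℕ, n ≠ 0 → {γ : Γ | n • γ = 0}.Countable := by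
    intro n
    induction n using induction_on_primes with
    | zero => intro h; exact absurd rfl h
    | one => intro _; simp
    | prime_mul p a hp ih =>
      intro hpa
      have ha : a ≠ 0 := right_ne_zero_of_mul hpa
      have hc : {γ : Γ | p • γ = 0}.Countable := by
        have := hsoc p hp
        exact this
      have : {γ : Γ | (p * a) • γ = 0} ⊆ ⋃ t ∈ {γ : Γ | p • γ = 0}, {γ : Γ | a • γ = t} := by
        intro γ hγ
        rw [Set.mem_iUnion₂]
        refine ⟨a • γ, ?_, rfl⟩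
        change p • a • γ = 0
        rw [← mul_smul]
        exact hγ
      refine (hc.biUnion fun t _ => ?_).mono this
      rcases {γ : Γ | a • γ = t}.eq_empty_or_nonempty with h | ⟨γ₀, hγ₀⟩
      · rw [h]; exact Set.countable_empty
      · refine ((ih ha).image fun γ => γ₀ + γ).mono ?_
        intro γ hγ
        refine ⟨γ - γ₀, ?_, add_sub_cancel γ₀ γ⟩
        change a • (γ - γ₀) = 0
        rw [smul_sub, show a • γ = t from hγ, show a • γ₀ = t from hγ₀, sub_self]
  obtain ⟨s, hs, hmax⟩ := exists_maximal_linearIndepOn ℤ (id : Γ → Γ)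
  have hsu : Uncountable s := by
    by_contra hc
    rw [not_uncountable_iff] at hc
    apply hunc
    have hsp : (Submodule.span ℤ s : Set Γ).Countable := by
      have h1 : Countable (s →₀ ℤ) := inferInstance
      have h2 : (Submodule.span ℤ s : Set Γ) ⊆
          Set.range (fun f : s →₀ ℤ => Finsupp.linearCombination ℤ (fun x : s => (x : Γ)) f) := by
        intro x hx
        have hx' : x ∈ Submodule.span ℤ s := hx
        rw [← Subtype.range_coe (s := s), Finsupp.mem_span_range_iff_exists_finsupp] at hx'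
        obtain ⟨c, hc⟩ := hx'
        exact ⟨c, by rw [← hc]; rfl⟩
      exact (Set.countable_range _).mono h2
    have huniv : (Set.univ : Set Γ) ⊆ ⋃ n : {n : ℕ // n ≠ 0},
        ⋃ t ∈ (Submodule.span ℤ s : Set Γ), {γ : Γ | n.1 • γ = t} := by
      intro γ _
      rw [Set.mem_iUnion]
      by_cases hγ : γ ∈ s
      · refine ⟨⟨1, one_ne_zero⟩, ?_⟩
        rw [Set.mem_iUnion₂]
        exact ⟨γ, Submodule.subset_span hγ, by simp⟩
      · obtain ⟨a, ha, haγ⟩ := hmax γ hγ
        rw [Set.image_id] at haγ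
        refine ⟨⟨a.natAbs, Int.natAbs_ne_zero.2 ha⟩, ?_⟩
        rw [Set.mem_iUnion₂]
        refine ⟨a.natAbs • γ, ?_, rfl⟩
        change a.natAbs • γ ∈ Submodule.span ℤ s
        rw [← natCast_zsmul]
        rcases le_or_gt 0 a with h | h
        · rw [Int.natAbs_of_nonneg h]
          exact haγ
        · have h2 : ((a.natAbs : ℕ) : ℤ) = -a := by omega
          rw [h2, neg_smul]
          exact neg_mem haγ
    have : (Set.univ : Set Γ).Countable := by
      refine (Set.countable_iUnion fun n => ?_).mono huniv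
      refine hsp.biUnion fun t _ => ?_
      rcases {γ : Γ | n.1 • γ = t}.eq_empty_or_nonempty with h | ⟨γ₀, hγ₀⟩
      · rw [h]; exact Set.countable_empty
      · refine ((htor n.1 n.2).image fun γ => γ₀ + γ).mono ?_
        intro γ hγ
        refine ⟨γ - γ₀, ?_, add_sub_cancel γ₀ γ⟩
        change n.1 • (γ - γ₀) = 0
        rw [smul_sub, show n.1 • γ = t from hγ, show n.1 • γ₀ = t from hγ₀, sub_self]
    exact Set.countable_univ_iff.1 this
  -- the map
  have hli : LinearIndependent ℤ (fun x : s => (x : Γ)) := hs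
  let f : (s →₀ ℤ) →+ Γ := (Finsupp.linearCombination ℤ (fun x : s => (x : Γ))).toAddMonoidHom
  have hf : Injective f := hli
  have hQ : Divis ℚ := by
    intro n hn a
    refine ⟨a / n, ?_⟩
    have : (n : ℚ) ≠ 0 := by exact_mod_cast hn
    rw [nsmul_eq_mul]
    field_simp
  obtain ⟨h, hh⟩ := (hQ.finsupp (I := s)).extend f hf
    (Finsupp.mapRange.addMonoidHom (Int.castAddHom ℚ))
  refine ⟨ℚ, inferInstance, inferInstance, inferInstance, s, hsu, h, ?_⟩
  intro i q
  obtain ⟨γ, hγ⟩ := hdiv q.den q.den_nz (f (Finsupp.single i q.num))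
  refine ⟨γ, ?_⟩
  have h1 : q.den • h γ = Finsupp.single i (q.num : ℚ) := by
    rw [← map_nsmul, hγ]
    have h3 : h (f (Finsupp.single i q.num)) = (h.comp f) (Finsupp.single i q.num) := rfl
    rw [h3, hh]
    simp
  have h2 : q.den • Finsupp.single i q = Finsupp.single i (q.num : ℚ) := by
    rw [Finsupp.smul_single, nsmul_eq_mul, Rat.den_mul_eq_num]
  have h3 : q.den • h γ = q.den • Finsupp.single i q := h1.trans h2.symm
  ext k
  have h4 := congrArg (fun g : s →₀ ℚ => g k) h3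
  simp only [Finsupp.smul_apply, nsmul_eq_mul] at h4
  have h5 : (q.den : ℚ) ≠ 0 := by exact_mod_cast q.den_nz
  exact mul_left_cancel₀ h5 h4

theorem rich_of_divis (Γ : Type u) [AddCommGroup Γ] (hdiv : Divis Γ) (hunc : ¬ Countable Γ) :
    Rich Γ := by
  by_cases h : ∀ p : ℕ, p.Prime → Countable (nsmulAddMonoidHom p : Γ →+ Γ).ker
  · exact rich_of_rank Γ hdiv hunc h
  · push Not at h
    obtain ⟨p, hp, hpc⟩ := h
    exact rich_of_socle hp Γ hdiv (by rwa [not_countable_iff])

theorem rich_of_exponent {p : ℕ} (hp : p.Prime) (Γ : Type u) [AddCommGroup Γ]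
    (hΓ : ∀ γ : Γ, p • γ = 0) (hunc : ¬ Countable Γ) : Rich Γ := by
  obtain ⟨I, hI, h, hh⟩ := exists_exponent hp Γ hΓ hunc
  have : Fact p.Prime := ⟨hp⟩
  exact ⟨ZMod p, inferInstance, inferInstance, inferInstance, I, hI, h, fun i q => hh _⟩

end Pool.Agent.Lib.MP_335999_gt
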