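import Pool.Agent.Lib.MP_335999_gt.Folner

/-!
# Topologies of group filters, bump functions, and the Foelner type theorem
-/

open Filter Topology Set Uniformity

namespace Pool.Agent.Lib.MP_335999_gt

universe u

variable {X : Type u} [AddCommGroup X]

/-- Every group filter is the neighbourhood filter of a group topology. -/
theorem GF.exists_topology {F : Filter X} (h : GF F) :
    ∃ σ : TopologicalSpace X, @IsTopologicalAddGroup X σ _ ∧ @nhds X σ 0 = F := by
  let B : AddGroupFilterBasis X :=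
    { sets := F.sets
      nonempty := ⟨univ, univ_mem⟩
      inter_sets := fun {x y} hx hy => ⟨x ∩ y, inter_mem hx hy, Subset.rfl⟩
      zero' := fun {U} hU => h.zero_mem hU
      add' := fun {U} hU => by
        obtain ⟨W, hW, hWU⟩ := h.half hU
        refine ⟨W, hW, ?_⟩
        rintro _ ⟨a, ha, b, hb, rfl⟩
        exact hWU a ha b hb
      neg' := fun {U} hU => ⟨{x | -x ∈ U}, h.neg_mem hU, Subset.rfl⟩
      conj' := fun x₀ {U} hU => ⟨U, hU, by
        intro x hx
        change x₀ + x + -x₀ ∈ U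
        rwa [add_neg_cancel_comm]⟩ }
  refine ⟨B.topology, B.isTopologicalAddGroup, ?_⟩
  rw [B.nhds_zero_eq]
  ext s
  rw [FilterBasis.mem_filter_iff]
  constructor
  · rintro ⟨t, ht, hts⟩
    exact mem_of_superset ht hts
  · intro hs
    exact ⟨s, hs, Subset.rfl⟩

theorem exists_dist {F : Filter X} (h : GF F) (hc : F.IsCountablyGenerated) :
    ∃ d : X → X → ℝ, (∀ x, d x x = 0) ∧ (∀ x y z, d x z ≤ d x y + d y z) ∧
      (∀ x y, d x y = d y x) ∧ (∀ U ∈ F, ∃ ρ > 0, ∀ x y, d x y < ρ → y - x ∈ U) ∧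
      ∀ ρ > 0, ∃ V ∈ F, ∀ x y, y - x ∈ V → d x y < ρ := by
  obtain ⟨σ, hσ, hn⟩ := h.exists_topology
  let _ := σ
  let _ : UniformSpace X := IsTopologicalAddGroup.rightUniformSpace X
  have hu : 𝓤 X = comap (fun p : X × X => p.2 + -p.1) F := by
    rw [← hn]
    rfl
  have : (𝓤 X).IsCountablyGenerated := by
    rw [hu]
    infer_instance
  let _ : PseudoMetricSpace X := UniformSpace.pseudoMetricSpace X
  refine ⟨dist, dist_self, dist_triangle, dist_comm, ?_, ?_⟩
  · intro U hU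
    have h1 : {p : X × X | p.2 + -p.1 ∈ U} ∈ 𝓤 X := by
      rw [hu]
      exact preimage_mem_comap hU
    obtain ⟨ρ, hρ, hρU⟩ := Metric.mem_uniformity_dist.1 h1
    refine ⟨ρ, hρ, fun x y hxy => ?_⟩
    have := hρU hxy
    rwa [sub_eq_add_neg]
  · intro ρ hρ
    have h1 : {p : X × X | dist p.1 p.2 < ρ} ∈ 𝓤 X := Metric.dist_mem_uniformity hρ
    rw [hu] at h1
    obtain ⟨V, hV, hVρ⟩ := mem_comap.1 h1
    refine ⟨V, hV, fun x y hxy => ?_⟩
    have : (x, y) ∈ {p : X × X | dist p.1 p.2 < ρ} := hVρ (by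
      change y + -x ∈ V
      rwa [← sub_eq_add_neg])
    exact this

theorem exists_bump {N : Filter X} (hN : GF N) {U : Set X} (hU : U ∈ N) :
    ∃ f : X → ℝ, (∀ x, 0 ≤ f x) ∧ (∀ x, f x ≤ 1) ∧ (∀ x, f x ≠ 0 → x ∈ U) ∧
      {x | 1 / 2 ≤ f x} ∈ N ∧ ∀ ε > 0, {w | ∀ x, |f (x + w) - f x| ≤ ε} ∈ N := by
  obtain ⟨F, hF, hle, hc, hFU⟩ := hN.exists_countable (countable_singleton U) (by
    rintro V rfl
    exact hU)
  obtain ⟨d, d0, dt, ds, dU, dV⟩ := exists_dist hF hc
  obtain ⟨ρ, hρ, hρU⟩ := dU U (hFU U rfl)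
  have hdn : ∀ x y, 0 ≤ d x y := by
    intro x y
    have := dt x y x
    rw [d0, ds y x] at this
    linarith
  refine ⟨fun x => max 0 (1 - d 0 x / ρ), fun x => le_max_left _ _, ?_, ?_, ?_, ?_⟩
  · intro x
    refine max_le zero_le_one ?_
    have := div_nonneg (hdn 0 x) hρ.le
    linarith
  · intro x hx
    have h1 : 0 < 1 - d 0 x / ρ := by
      by_contra h
      exact hx (max_eq_left (not_lt.1 h))
    have h2 : d 0 x < ρ := by
      have : d 0 x / ρ < 1 := by linarith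
      rwa [div_lt_one hρ] at this
    have := hρU 0 x h2
    rwa [sub_zero] at this
  · obtain ⟨V, hV, hVd⟩ := dV (ρ / 2) (half_pos hρ)
    refine hle (mem_of_superset hV fun x hx => ?_)
    have h1 := hVd 0 x (by rwa [sub_zero])
    change (1 / 2 : ℝ) ≤ max 0 (1 - d 0 x / ρ)
    refine le_max_of_le_right ?_
    have h2 : d 0 x / ρ ≤ 1 / 2 := by
      rw [div_le_div_iff₀ hρ (by norm_num)]
      linarith
    linarith
  · intro ε hε
    obtain ⟨V, hV, hVd⟩ := dV (ε * ρ) (mul_pos hε hρ)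
    refine hle (mem_of_superset hV fun w hw x => ?_)
    have h1 := hVd x (x + w) (by rwa [add_sub_cancel_left])
    have h2 : |max 0 (1 - d 0 (x + w) / ρ) - max 0 (1 - d 0 x / ρ)| ≤
        |(1 - d 0 (x + w) / ρ) - (1 - d 0 x / ρ)| := by
      rw [max_comm (0 : ℝ), max_comm (0 : ℝ)]
      exact abs_max_sub_max_le_abs _ _ _
    refine h2.trans ?_
    have h3 : (1 - d 0 (x + w) / ρ) - (1 - d 0 x / ρ) = (d 0 x - d 0 (x + w)) / ρ := by ring
    rw [h3, abs_div, abs_of_pos hρ, div_le_iff₀ hρ]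
    have h4 : |d 0 x - d 0 (x + w)| ≤ d x (x + w) := by
      rw [abs_le]
      have h5 := dt 0 x (x + w)
      have h6 := dt 0 (x + w) x
      rw [ds (x + w) x] at h6
      constructor <;> linarith
    linarith

/-- A theorem of Foelner type. -/
theorem folner {N : Filter X} (hN : GF N) {U : Set X} (hU : U ∈ N) :
    ∃ U' ∈ N, ∀ (Y : Type u) [AddCommGroup Y] (j : Y →+ X),
      (∃ F : Set X, F.Finite ∧ ∀ y : Y, ∃ f ∈ F, j y - f ∈ U') →
      ∀ y : Y, (∀ χ ∈ Gam (comap j N), χ y = 0) → j y ∈ U := by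
  classical
  obtain ⟨U₂, hU₂, h2⟩ := hN.sub_half hU
  obtain ⟨U₁, hU₁, h1⟩ := hN.sub_half hU₂
  obtain ⟨f, hf0, hf1, hfs, hfN, hfc⟩ := exists_bump hN hU₁
  obtain ⟨U', hU', h'⟩ := hN.sub_half hfN
  refine ⟨U', hU', ?_⟩
  intro Y _ j ⟨F, hF, hFj⟩ y0 hy0
  by_contra hyU
  have hrep : ∀ a : X, ∃ r : Y, (∃ y : Y, j y - a ∈ U') → j r - a ∈ U' := by
    intro a
    by_cases h : ∃ y : Y, j y - a ∈ U'
    · obtain ⟨y, hy⟩ := h
      exact ⟨y, fun _ => hy⟩
    · exact ⟨0, fun h' => absurd h' h⟩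
  choose r hr using hrep
  have hsyn : ∀ y : Y, ∃ s ∈ hF.toFinset.image (fun a => -r a), 1 / 2 ≤ f (j (y + s)) := by
    intro y
    obtain ⟨a, ha, hya⟩ := hFj y
    refine ⟨-r a, Finset.mem_image.2 ⟨a, hF.mem_toFinset.2 ha, rfl⟩, ?_⟩
    have := h' _ hya _ (hr a ⟨y, hya⟩)
    have h3 : j y - a - (j (r a) - a) = j (y + -r a) := by
      rw [map_add, map_neg]
      abel
    rw [h3] at this
    exact this
  obtain ⟨χ, hχ1, δ, hδ, hχ⟩ := folner_core (fun y => f (j y)) (fun y => hf0 _) (fun y => hf1 _)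
    _ hsyn y0 (by
      intro z x z'
      by_contra hne
      apply hyU
      have e1 := left_ne_zero_of_mul hne
      have e2 := right_ne_zero_of_mul hne
      have a1 := hfs _ (left_ne_zero_of_mul e1)
      have a2 := hfs _ (right_ne_zero_of_mul e1)
      have a3 := hfs _ (left_ne_zero_of_mul e2)
      have a4 := hfs _ (right_ne_zero_of_mul e2)
      have := h2 _ (h1 _ a4 _ a3) _ (h1 _ a2 _ a1)
      convert this using 1
      simp only [map_add]
      abel)
  apply hχ1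
  rw [ev_eq_one_iff]
  apply hy0
  rw [mem_Gam, Metric.tendsto_nhds]
  intro ε hε
  have h3 : {w | ∀ x, |f (x + w) - f x| ≤ δ * (ε / 2)} ∈ N := hfc _ (by positivity)
  filter_upwards [preimage_mem_comap h3] with w hw
  have h4 := hχ w (δ * (ε / 2)) (fun x => by
    have := hw (j x)
    rwa [map_add])
  rw [dist_eq_norm]
  have h5 : ‖ev χ w - 1‖ ≤ ε / 2 := le_of_mul_le_mul_left h4 hδ
  linarith

end Pool.Agent.Lib.MP_335999_gt
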