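import Pool.Agent.Lib.MP_335999_gt.Duality
import Pool.Agent.Lib.MP_335999_gt.Algebra

/-!
# Minimal groups of countable tightness with enough characters
-/

open Filter Topology Set Pointwise

namespace Pool.Agent.Lib.MP_335999_gt

universe u

variable {X : Type u} [AddCommGroup X]

/-- the sum over a set of coordinates -/
noncomputable def sumOn {I : Type*} {Q : Type*} [AddCommGroup Q] (A : Set I) : (I →₀ Q) →+ Q := by
  classical
  exact Finsupp.liftAddHom (fun i => if i ∈ A then AddMonoidHom.id Q else 0)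

theorem sumOn_single {I : Type*} {Q : Type*} [AddCommGroup Q] {A : Set I} {i : I} (hi : i ∈ A)
    (q : Q) : sumOn A (Finsupp.single i q) = q := by
  simp [sumOn, hi]

theorem sumOn_eq_zero {I : Type*} {Q : Type*} [AddCommGroup Q] {A : Set I} {f : I →₀ Q}
    (hf : ∀ i ∈ f.support, i ∉ A) : sumOn A f = 0 := by
  classical
  simp only [sumOn, Finsupp.liftAddHom_apply]
  refine Finset.sum_eq_zero fun i hi => ?_
  simp [hf i hi]

theorem not_CT_of_rich {N : Filter X} (hmin : LM N univ) (hmap : MAP N)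
    (hrich : Rich (Gam N)) (hct : CT N) : False := by
  classical
  obtain ⟨Q, _, _, _, I, _, h, hh⟩ := hrich
  -- nonzero elements killed by the kernels
  have hex : ∀ A : {A : Set I // Aᶜ.Countable}, ∃ (y : X) (g : Gam N) (m : ℕ),
      1 / ((m : ℝ) + 1) < ‖ev g.1 y - 1‖ ∧
        ∀ γ : Gam N, sumOn A.1 (h γ) = 0 → γ.1 y = 0 := by
    intro A
    have hne : A.1.Nonempty := by
      by_contra hA
      rw [not_nonempty_iff_eq_empty] at hA
      have := A.2
      rw [hA, compl_empty] at this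
      exact not_countable (α := I) (countable_univ_iff.1 this)
    obtain ⟨i, hi⟩ := hne
    obtain ⟨q, hq⟩ := exists_ne (0 : Q)
    obtain ⟨y, hy0, hy⟩ := exists_annihilated hmin
      (Δ := ((sumOn A.1).comp h).ker.map (Gam N).subtype) (by
        rintro _ ⟨γ, -, rfl⟩
        exact γ.2) (by
        intro heq
        obtain ⟨γ, hγ⟩ := hh i q
        have h1 : γ.1 ∈ ((sumOn A.1).comp h).ker.map (Gam N).subtype := by
          rw [heq]; exact γ.2
        obtain ⟨γ', hγ', h2⟩ := h1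
        have h3 : γ' = γ := Subtype.ext h2
        rw [h3] at hγ'
        have h4 : sumOn A.1 (h γ) = 0 := hγ'
        rw [hγ, sumOn_single hi] at h4
        exact hq h4)
    obtain ⟨χ, hχ, hχy⟩ := hmap y hy0
    have h1 : 0 < ‖ev χ y - 1‖ := by
      rw [norm_pos_iff, sub_ne_zero]
      exact fun h' => hχy ((ev_eq_one_iff χ y).1 h')
    obtain ⟨m, hm⟩ := exists_nat_one_div_lt h1
    exact ⟨y, ⟨χ, hχ⟩, m, hm, fun γ hγ => hy γ.1 ⟨γ, hγ, rfl⟩⟩
  choose y g m hm hker using hex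
  have key : ∀ A, ∀ γ : Gam N, sumOn A.1 (h γ) = sumOn A.1 (h (g A)) →
      ev γ.1 (y A) = ev (g A).1 (y A) := by
    intro A γ hγ
    have h1 : sumOn A.1 (h (γ - g A)) = 0 := by rw [map_sub, map_sub, hγ, sub_self]
    have h2 := hker A _ h1
    have h3 : γ.1 (y A) - (g A).1 (y A) = 0 := h2
    unfold ev
    rw [sub_eq_zero.1 h3]
  -- the sets
  let Y : Q × ℕ → Set X := fun qm => {x | ∃ A, sumOn A.1 (h (g A)) = qm.1 ∧ m A = qm.2 ∧ y A = x}
  have hY : ∃ qm, ∀ U ∈ N, (Y qm ∩ U).Nonempty := by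
    by_contra hcon
    push Not at hcon
    choose U hU hUY using hcon
    have hNF : ∀ qm, ∃ J : Finset (X →+ Additive Circle), (∀ δ ∈ J, δ ∈ Gam N) ∧ ∃ ε : ℝ, 0 < ε ∧
        ∀ x, (∀ δ ∈ J, ‖ev δ x - 1‖ < ε) → x ∈ U qm := fun qm =>
      mem_NF (NF_Gam_le hmin hmap (hU qm))
    choose J hJ ε hε hJU using hNF
    let s : (X →+ Additive Circle) → Set I := fun χ =>
      if hχ : χ ∈ Gam N then ((h ⟨χ, hχ⟩).support : Set I) else ∅
    have hs : ∀ χ, (s χ).Countable := by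
      intro χ
      simp only [s]
      split_ifs
      · exact Finset.countable_toSet _
      · exact countable_empty
    let A : {A : Set I // Aᶜ.Countable} := ⟨(⋃ qm, ⋃ χ ∈ J qm, s χ)ᶜ, by
      rw [compl_compl]
      exact countable_iUnion fun qm => (Finset.countable_toSet (J qm)).biUnion fun χ _ => hs χ⟩
    have hyA : ∀ qm, y A ∈ U qm := by
      intro qm
      refine hJU qm (y A) fun χ hχ => ?_
      have h1 : sumOn A.1 (h ⟨χ, hJ qm χ hχ⟩) = 0 := by
        refine sumOn_eq_zero fun i hi hiA => ?_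
        apply hiA
        rw [mem_iUnion]
        refine ⟨qm, ?_⟩
        rw [mem_iUnion₂]
        refine ⟨χ, hχ, ?_⟩
        simp only [s]
        rw [dif_pos (hJ qm χ hχ)]
        exact hi
      have h2 := hker A _ h1
      rw [(ev_eq_one_iff χ (y A)).2 h2, sub_self, norm_zero]
      exact hε qm
    have h1 : y A ∈ Y (sumOn A.1 (h (g A)), m A) := ⟨A, rfl, rfl, rfl⟩
    have h2 := hUY (sumOn A.1 (h (g A)), m A)
    exact (h2 ▸ (⟨h1, hyA _⟩ : y A ∈ Y (sumOn A.1 (h (g A)), m A) ∩ U _) : y A ∈ (∅ : Set X))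
  obtain ⟨qm, hqm⟩ := hY
  obtain ⟨B, hBY, hBc, hB⟩ := hct (Y qm) hqm
  have : Nonempty {A : Set I // Aᶜ.Countable} := ⟨⟨univ, by simp⟩⟩
  have hBY' : ∀ b ∈ B, ∃ A, sumOn A.1 (h (g A)) = qm.1 ∧ m A = qm.2 ∧ y A = b :=
    fun b hb => hBY hb
  choose! A hA1 hA2 hA3 using hBY'
  have hi : ∃ i, ∀ b ∈ B, i ∈ (A b).1 := by
    by_contra hcon
    push Not at hcon
    have h1 : (⋃ b ∈ B, (A b).1ᶜ).Countable := hBc.biUnion fun b _ => (A b).2
    have h2 : (⋃ b ∈ B, (A b).1ᶜ) = univ := by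
      rw [eq_univ_iff_forall]
      intro i
      obtain ⟨b, hb, hib⟩ := hcon i
      rw [mem_iUnion₂]
      exact ⟨b, hb, hib⟩
    rw [h2] at h1
    exact not_countable (α := I) (countable_univ_iff.1 h1)
  obtain ⟨i, hi⟩ := hi
  obtain ⟨γ, hγ⟩ := hh i qm.1
  obtain ⟨b, hbB, hbU⟩ := hB _ (ball_mem_of_Gam γ.2 (ε := 1 / ((qm.2 : ℝ) + 1)) (by positivity))
  have h1 : sumOn (A b).1 (h γ) = sumOn (A b).1 (h (g (A b))) := by
    rw [hγ, sumOn_single (hi b hbB), hA1 b hbB]
  have h2 := key (A b) γ h1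
  have h3 := hm (A b)
  rw [← h2, hA2 b hbB, hA3 b hbB] at h3
  exact lt_irrefl _ (h3.trans hbU)

theorem psi_of_countable {N : Filter X} (hmap : MAP N) (hc : Countable (Gam N)) : Psi N := by
  refine ⟨range fun p : Gam N × ℕ => {x | ‖ev p.1.1 x - 1‖ < 1 / ((p.2 : ℝ) + 1)},
    countable_range _, ?_, ?_⟩
  · rintro _ ⟨p, rfl⟩
    exact ball_mem_of_Gam p.1.2 (by positivity)
  · intro x hx
    by_contra hx0
    obtain ⟨χ, hχ, hχx⟩ := hmap x hx0
    have h1 : 0 < ‖ev χ x - 1‖ := by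
      rw [norm_pos_iff, sub_ne_zero]
      exact fun h' => hχx ((ev_eq_one_iff χ x).1 h')
    obtain ⟨m, hm⟩ := exists_nat_one_div_lt h1
    have h2 : ‖ev χ x - 1‖ < 1 / ((m : ℝ) + 1) := hx _ ⟨(⟨χ, hχ⟩, m), rfl⟩
    exact lt_irrefl _ (hm.trans h2)

theorem psi_exponent {N : Filter X} (hmin : LM N univ) (hmap : MAP N) (hct : CT N) {p : ℕ}
    (hp : p.Prime) (hexp : ∀ x : X, p • x = 0) : Psi N := by
  by_cases hc : Countable (Gam N)
  · exact psi_of_countable hmap hc
  · exact (not_CT_of_rich hmin hmap (rich_of_exponent hp _ (by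
      intro γ
      apply Subtype.ext
      ext1 x
      change p • γ.1 x = 0
      rw [← map_nsmul, hexp, map_zero]) hc) hct).elim

theorem psi_torsionFree {N : Filter X} (hmin : LM N univ) (hmap : MAP N) (hct : CT N)
    (htf : ∀ k : ℕ, 0 < k → ∀ z : X, k • z = 0 → z = 0) : Psi N := by
  by_cases hc : Countable (Gam N)
  · exact psi_of_countable hmap hc
  · refine (not_CT_of_rich hmin hmap (rich_of_divis _ ?_ hc) hct).elim
    intro n hn γ
    by_contra hcon
    push Not at hcon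
    obtain ⟨y, hy0, hy⟩ := exists_annihilated hmin
      (Δ := (nsmulAddMonoidHom n : Gam N →+ Gam N).range.map (Gam N).subtype) (by
        rintro _ ⟨γ, -, rfl⟩
        exact γ.2) (by
        intro heq
        have h1 : γ.1 ∈ (nsmulAddMonoidHom n : Gam N →+ Gam N).range.map (Gam N).subtype := by
          rw [heq]; exact γ.2
        obtain ⟨γ', ⟨γ'', h3⟩, h2⟩ := h1
        have h4 : γ' = γ := Subtype.ext h2
        exact hcon γ'' (h3.trans h4))
    apply hy0
    apply htf n (Nat.pos_of_ne_zero hn)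
    by_contra hny
    obtain ⟨χ, hχ, hχy⟩ := hmap _ hny
    apply hχy
    have h1 := hy (n • χ) ⟨n • ⟨χ, hχ⟩, ⟨⟨χ, hχ⟩, rfl⟩, rfl⟩
    rw [map_nsmul]
    exact h1

end Pool.Agent.Lib.MP_335999_gt
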