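import Mathlib

/-!
# Invariant means on abelian groups
-/

open Filter Topology

namespace Pool.Agent.Lib.MP_335999_gt

/-- bounded functions -/
def Bdd {Y : Type*} (f : Y → ℂ) : Prop := ∃ C : ℝ, ∀ x, ‖f x‖ ≤ C

namespace Bdd

variable {Y : Type*} {f g : Y → ℂ}

theorem add (hf : Bdd f) (hg : Bdd g) : Bdd fun x => f x + g x := by
  obtain ⟨C, hC⟩ := hf
  obtain ⟨D, hD⟩ := hg
  exact ⟨C + D, fun x => (norm_add_le _ _).trans (add_le_add (hC x) (hD x))⟩

theorem mul (hf : Bdd f) (hg : Bdd g) : Bdd fun x => f x * g x := by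
  obtain ⟨C, hC⟩ := hf
  obtain ⟨D, hD⟩ := hg
  refine ⟨C * D, fun x => ?_⟩
  rw [norm_mul]
  exact mul_le_mul (hC x) (hD x) (norm_nonneg _) ((norm_nonneg _).trans (hC x))

theorem const (c : ℂ) : Bdd fun _ : Y => c := ⟨‖c‖, fun _ => le_rfl⟩

theorem neg (hf : Bdd f) : Bdd fun x => - f x := by
  obtain ⟨C, hC⟩ := hf
  exact ⟨C, fun x => by rw [norm_neg]; exact hC x⟩

theorem sub (hf : Bdd f) (hg : Bdd g) : Bdd fun x => f x - g x := by
  simpa only [sub_eq_add_neg] using hf.add hg.neg

theorem conj (hf : Bdd f) : Bdd fun x => starRingEnd ℂ (f x) := by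
  obtain ⟨C, hC⟩ := hf
  exact ⟨C, fun x => by rw [RCLike.norm_conj]; exact hC x⟩

theorem comp {Z : Type*} (hf : Bdd f) (h : Z → Y) : Bdd fun x => f (h x) := by
  obtain ⟨C, hC⟩ := hf
  exact ⟨C, fun x => hC _⟩

theorem sum {ι : Type*} {F : ι → Y → ℂ} (s : Finset ι) (h : ∀ i ∈ s, Bdd (F i)) :
    Bdd fun x => ∑ i ∈ s, F i x := by
  classical
  induction s using Finset.induction with
  | empty => simpa using Bdd.const (Y := Y) 0
  | insert i s hi ih =>
    have h1 := (h i (Finset.mem_insert_self _ _)).add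
      (ih fun j hj => h j (Finset.mem_insert_of_mem hj))
    obtain ⟨C, hC⟩ := h1
    refine ⟨C, fun x => ?_⟩
    have h2 := hC x
    simp only [Finset.sum_insert hi]
    exact h2

end Bdd

/-- invariant means on an abelian group -/
structure Mean (Y : Type*) [AddCommGroup Y] where
  /-- the functional -/
  M : (Y → ℂ) → ℂ
  add : ∀ f g, Bdd f → Bdd g → M (fun x => f x + g x) = M f + M g
  smul : ∀ (c : ℂ) f, Bdd f → M (fun x => c * f x) = c * M f
  conj : ∀ f, Bdd f → M (fun x => starRingEnd ℂ (f x)) = starRingEnd ℂ (M f)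
  norm_le : ∀ f (C : ℝ), (∀ x, ‖f x‖ ≤ C) → ‖M f‖ ≤ C
  nonneg : ∀ f, Bdd f → (∀ x, 0 ≤ (f x).re) → 0 ≤ (M f).re
  one : M (fun _ => 1) = 1
  shift : ∀ f y, Bdd f → M (fun x => f (x + y)) = M f

/-- the properties of finite averages -/
structure IsAvg {Y : Type*} (a : (Y → ℂ) →ₗ[ℂ] ℂ) : Prop where
  conj : ∀ f : Y → ℂ, a (fun x => starRingEnd ℂ (f x)) = starRingEnd ℂ (a f)
  norm_le : ∀ f (C : ℝ), (∀ x, ‖f x‖ ≤ C) → ‖a f‖ ≤ C
  nonneg : ∀ f, (∀ x, 0 ≤ (f x).re) → 0 ≤ (a f).re
  one : a (fun _ => 1) = 1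

/-- averaging over a finite progression -/
noncomputable def avg {Y : Type*} [AddCommGroup Y] (s : Y) (n : ℕ) : (Y → ℂ) →ₗ[ℂ] (Y → ℂ) where
  toFun f := fun x => ((n : ℂ) + 1)⁻¹ * ∑ k ∈ Finset.range (n + 1), f (x + k • s)
  map_add' f g := by
    ext x
    simp only [Pi.add_apply, Finset.sum_add_distrib, mul_add]
  map_smul' c f := by
    ext x
    simp only [Pi.smul_apply, smul_eq_mul, RingHom.id_apply, ← Finset.mul_sum]
    ring

theorem avg_apply {Y : Type*} [AddCommGroup Y] (s : Y) (n : ℕ) (f : Y → ℂ) (x : Y) :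
    avg s n f x = ((n : ℂ) + 1)⁻¹ * ∑ k ∈ Finset.range (n + 1), f (x + k • s) := rfl

theorem avg_norm_le {Y : Type*} [AddCommGroup Y] (s : Y) (n : ℕ) (f : Y → ℂ) (C : ℝ)
    (h : ∀ x, ‖f x‖ ≤ C) (x : Y) : ‖avg s n f x‖ ≤ C := by
  rw [avg_apply, norm_mul, norm_inv]
  have h0 : ‖(n : ℂ) + 1‖ = n + 1 := by
    have : ((n : ℂ) + 1) = ((n + 1 : ℕ) : ℂ) := by push_cast; rfl
    rw [this, Complex.norm_natCast]
    push_cast
    rfl
  rw [h0]
  have h1 : ‖∑ k ∈ Finset.range (n + 1), f (x + k • s)‖ ≤ (n + 1) * C := by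
    refine (norm_sum_le _ _).trans ?_
    refine (Finset.sum_le_sum fun k _ => h (x + k • s)).trans ?_
    simp
  have hpos : (0 : ℝ) < n + 1 := by positivity
  calc ((n : ℝ) + 1)⁻¹ * ‖∑ k ∈ Finset.range (n + 1), f (x + k • s)‖
      ≤ ((n : ℝ) + 1)⁻¹ * ((n + 1) * C) := mul_le_mul_of_nonneg_left h1 (by positivity)
    _ = C := by field_simp

theorem exists_avg {Y : Type*} [AddCommGroup Y] (n : ℕ) (S : Finset Y) :
    ∃ a : (Y → ℂ) →ₗ[ℂ] ℂ, IsAvg a ∧ ∀ s ∈ S, ∀ f (C : ℝ), (∀ x, ‖f x‖ ≤ C) →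
      ‖a (fun x => f (x + s)) - a f‖ ≤ 2 * C / (n + 1) := by
  classical
  induction S using Finset.induction with
  | empty =>
    refine ⟨LinearMap.proj 0, ⟨fun f => rfl, fun f C h => h 0, fun f h => h 0, rfl⟩, ?_⟩
    intro s hs
    simp at hs
  | insert s S hs ih =>
    obtain ⟨a, ha, haS⟩ := ih
    have hpos : (0 : ℝ) < n + 1 := by positivity
    have h0 : ‖(n : ℂ) + 1‖ = n + 1 := by
      have : ((n : ℂ) + 1) = ((n + 1 : ℕ) : ℂ) := by push_cast; rfl
      rw [this, Complex.norm_natCast]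
      push_cast
      rfl
    refine ⟨a ∘ₗ avg s n, ⟨?_, ?_, ?_, ?_⟩, ?_⟩
    · intro f
      have : avg s n (fun x => starRingEnd ℂ (f x)) = fun x => starRingEnd ℂ (avg s n f x) := by
        ext x
        simp only [avg_apply, map_mul, map_inv₀, map_add, map_one, map_sum, Complex.conj_natCast]
      rw [LinearMap.comp_apply, this, ha.conj]
      rfl
    · intro f C h
      exact ha.norm_le _ _ (avg_norm_le s n f C h)
    · intro f h
      refine ha.nonneg _ fun x => ?_
      have h1 : avg s n f x = (((n : ℝ) + 1)⁻¹ : ℝ) * ∑ k ∈ Finset.range (n + 1), f (x + k • s) := by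
        rw [avg_apply]
        push_cast
        rfl
      rw [h1, Complex.re_ofReal_mul, Complex.re_sum]
      exact mul_nonneg (by positivity) (Finset.sum_nonneg fun k _ => h _)
    · have : avg s n (fun _ => (1 : ℂ)) = fun _ => 1 := by
        ext x
        rw [avg_apply]
        have h1 : ((n : ℂ) + 1) ≠ 0 := by exact_mod_cast hpos.ne'
        simp [h1]
      rw [LinearMap.comp_apply, this, ha.one]
    · intro t ht f C h
      rcases Finset.mem_insert.1 ht with rfl | ht
      · rw [LinearMap.comp_apply, LinearMap.comp_apply, ← map_sub]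
        refine ha.norm_le _ _ fun x => ?_
        have h1 : (avg t n (fun x => f (x + t)) - avg t n f) x =
            ((n : ℂ) + 1)⁻¹ * (f (x + (n + 1) • t) - f x) := by
          rw [Pi.sub_apply, avg_apply, avg_apply, ← mul_sub, ← Finset.sum_sub_distrib]
          congr 1
          have : ∀ k, f (x + k • t + t) = f (x + (k + 1) • t) := by
            intro k
            rw [add_smul, one_smul, add_assoc]
          simp only [this]
          rw [Finset.sum_range_sub (fun k => f (x + k • t))]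
          simp
        rw [h1, norm_mul, norm_inv, h0, inv_mul_eq_div]
        refine div_le_div_of_nonneg_right ?_ hpos.le
        calc ‖f (x + (n + 1) • t) - f x‖ ≤ ‖f (x + (n + 1) • t)‖ + ‖f x‖ := norm_sub_le _ _
          _ ≤ 2 * C := by linarith [h (x + (n + 1) • t), h x]
      · rw [LinearMap.comp_apply, LinearMap.comp_apply]
        have h1 : avg s n (fun x => f (x + t)) = fun x => avg s n f (x + t) := by
          ext x
          rw [avg_apply, avg_apply]
          congr 1
          refine Finset.sum_congr rfl fun k _ => ?_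
          congr 1
          abel
        rw [h1]
        exact haS t ht _ C (avg_norm_le s n f C h)

/-- Every abelian group has an invariant mean. -/
theorem exists_mean (Y : Type*) [AddCommGroup Y] : Nonempty (Mean Y) := by
  classical
  choose a ha haS using fun i : ℕ × Finset Y => exists_avg (Y := Y) i.1 i.2
  let u : Ultrafilter (ℕ × Finset Y) := Ultrafilter.of atTop
  have hu : (u : Filter (ℕ × Finset Y)) ≤ atTop := Ultrafilter.of_le _
  let M : (Y → ℂ) → ℂ := fun f => limUnder (u : Filter (ℕ × Finset Y)) (fun i => a i f)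
  have hM : ∀ f, Bdd f → Tendsto (fun i => a i f) u (𝓝 (M f)) := by
    rintro f ⟨C, hC⟩
    have hmem : ∀ᶠ i in (u : Filter (ℕ × Finset Y)), a i f ∈ Metric.closedBall (0 : ℂ) C :=
      Eventually.of_forall fun i => by
        rw [mem_closedBall_zero_iff]
        exact (ha i).norm_le f C hC
    obtain ⟨x, hx⟩ := (isCompact_closedBall (0 : ℂ) C).ultrafilter_le_nhds'
      (u.map (fun i => a i f)) (mem_map.1 hmem)
    exact tendsto_nhds_limUnder ⟨x, hx.2⟩
  refine ⟨⟨M, ?_, ?_, ?_, ?_, ?_, ?_, ?_⟩⟩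
  · intro f g hf hg
    refine tendsto_nhds_unique (hM _ (hf.add hg)) ?_
    refine ((hM f hf).add (hM g hg)).congr fun i => ?_
    rw [← map_add]
    rfl
  · intro c f hf
    refine tendsto_nhds_unique (hM _ ((Bdd.const c).mul hf)) ?_
    refine ((hM f hf).const_mul c).congr fun i => ?_
    rw [← smul_eq_mul, ← map_smul]
    rfl
  · intro f hf
    refine tendsto_nhds_unique (hM _ hf.conj) ?_
    have h1 := (Complex.continuous_conj.tendsto (M f)).comp (hM f hf)
    refine h1.congr fun i => ?_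
    exact ((ha i).conj f).symm
  · intro f C h
    have h1 := (hM f ⟨C, h⟩).norm
    exact le_of_tendsto h1 (Eventually.of_forall fun i => (ha i).norm_le f C h)
  · intro f hf h
    have h1 := (Complex.continuous_re.tendsto (M f)).comp (hM f hf)
    exact ge_of_tendsto h1 (Eventually.of_forall fun i => (ha i).nonneg f h)
  · refine tendsto_nhds_unique (hM _ (Bdd.const 1)) ?_
    refine tendsto_const_nhds.congr fun i => ?_
    exact (ha i).one.symm
  · rintro f y ⟨C, hC⟩
    have hC0 : 0 ≤ C := (norm_nonneg _).trans (hC 0)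
    refine tendsto_nhds_unique (hM _ (Bdd.comp ⟨C, hC⟩ _)) ?_
    have h1 : Tendsto (fun i => a i (fun x => f (x + y)) - a i f) u (𝓝 0) := by
      rw [Metric.tendsto_nhds]
      intro ε hε
      obtain ⟨n, hn⟩ := exists_nat_gt (2 * C / ε)
      have h2 : ∀ᶠ i in (u : Filter (ℕ × Finset Y)), (n, {y}) ≤ i := hu (eventually_ge_atTop _)
      filter_upwards [h2] with i hi
      rw [dist_zero_right]
      have hy : y ∈ i.2 := hi.2 (Finset.mem_singleton_self y)
      refine (haS i y hy f C hC).trans_lt ?_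
      have hni : (n : ℝ) ≤ i.1 := by exact_mod_cast hi.1
      rw [div_lt_iff₀ (by positivity)]
      rw [div_lt_iff₀ hε] at hn
      nlinarith
    have h3 := h1.add (hM f ⟨C, hC⟩)
    simpa using h3

end Pool.Agent.Lib.MP_335999_gt
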