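import Pool.Agent.Lib.MP_335999_gt.Filters
import Pool.Agent.Lib.MP_335999_gt.Mean

/-!
# Characters and the topologies they generate
-/

open Filter Topology Set Pointwise

namespace Pool.Agent.Lib.MP_335999_gt

variable {X : Type*} [AddCommGroup X]

/-- the value of a character as a complex number -/
noncomputable def ev (χ : X →+ Additive Circle) (x : X) : ℂ := ((χ x).toMul : Circle)

theorem ev_add (χ : X →+ Additive Circle) (x y : X) : ev χ (x + y) = ev χ x * ev χ y := by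
  simp [ev]

theorem ev_add_left (χ ψ : X →+ Additive Circle) (x : X) :
    ev (χ + ψ) x = ev χ x * ev ψ x := by
  simp [ev]

theorem ev_zero (χ : X →+ Additive Circle) : ev χ 0 = 1 := by
  simp [ev]

theorem ev_zero_left (x : X) : ev (0 : X →+ Additive Circle) x = 1 := by
  simp [ev]

theorem ev_neg (χ : X →+ Additive Circle) (x : X) : ev χ (-x) = starRingEnd ℂ (ev χ x) := by
  simp only [ev, map_neg, toMul_neg, Circle.coe_inv_eq_conj]

theorem ev_neg_left (χ : X →+ Additive Circle) (x : X) :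
    ev (-χ) x = starRingEnd ℂ (ev χ x) := by
  simp only [ev, AddMonoidHom.neg_apply, toMul_neg, Circle.coe_inv_eq_conj]

theorem norm_ev (χ : X →+ Additive Circle) (x : X) : ‖ev χ x‖ = 1 := Circle.norm_coe _

theorem ev_eq_one_iff (χ : X →+ Additive Circle) (x : X) : ev χ x = 1 ↔ χ x = 0 := by
  rw [ev, Circle.coe_eq_one]
  exact toMul_eq_one

theorem ev_sub (χ : X →+ Additive Circle) (x y : X) :
    ‖ev χ (x - y) - 1‖ = ‖ev χ x - ev χ y‖ := by
  have h1 : ev χ x = ev χ (x - y) * ev χ y := by rw [← ev_add, sub_add_cancel]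
  have h2 : ev χ x - ev χ y = (ev χ (x - y) - 1) * ev χ y := by rw [h1]; ring
  rw [h2, norm_mul, norm_ev, mul_one]

theorem bdd_ev (χ : X →+ Additive Circle) : Bdd (ev χ) := ⟨1, fun x => (norm_ev χ x).le⟩

/-- the continuous characters -/
def Gam (N : Filter X) : AddSubgroup (X →+ Additive Circle) where
  carrier := {χ | Tendsto (ev χ) N (𝓝 1)}
  zero_mem' := by
    change Tendsto (ev 0) N (𝓝 1)
    exact tendsto_const_nhds.congr fun x => (ev_zero_left x).symm
  add_mem' := by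
    intro χ ψ hχ hψ
    change Tendsto (ev (χ + ψ)) N (𝓝 1)
    have := Tendsto.mul hχ hψ
    rw [mul_one] at this
    exact this.congr fun x => (ev_add_left χ ψ x).symm
  neg_mem' := by
    intro χ hχ
    change Tendsto (ev (-χ)) N (𝓝 1)
    have := (Complex.continuous_conj.tendsto 1).comp hχ
    rw [map_one] at this
    exact this.congr fun x => (ev_neg_left χ x).symm

theorem mem_Gam {N : Filter X} {χ : X →+ Additive Circle} :
    χ ∈ Gam N ↔ Tendsto (ev χ) N (𝓝 1) := Iff.rfl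

theorem ball_mem_of_Gam {N : Filter X} {χ : X →+ Additive Circle} (h : χ ∈ Gam N) {ε : ℝ}
    (hε : 0 < ε) : {x | ‖ev χ x - 1‖ < ε} ∈ N := by
  have := (Metric.tendsto_nhds.1 (mem_Gam.1 h)) ε hε
  filter_upwards [this] with x hx
  rwa [dist_eq_norm] at hx

/-- the filter generated by a set of characters -/
noncomputable def NF (Δ : AddSubgroup (X →+ Additive Circle)) : Filter X :=
  ⨅ δ : Δ, comap (ev δ.1) (𝓝 1)

theorem gf_comap_ev (χ : X →+ Additive Circle) : GF (comap (ev χ) (𝓝 1)) where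
  zero := by
    rw [← Filter.map_le_iff_le_comap, ← Filter.pure_zero, Filter.map_pure, ev_zero]
    exact pure_le_nhds 1
  add := by
    rw [← Filter.map_le_iff_le_comap, ← Filter.map₂_add, ← Filter.map_prod_eq_map₂,
      Filter.map_map]
    have h1 : Tendsto (ev χ) (comap (ev χ) (𝓝 1)) (𝓝 1) := tendsto_comap
    have h2 := (h1.comp (tendsto_fst (f := comap (ev χ) (𝓝 1)) (g := comap (ev χ) (𝓝 1)))).mul
      (h1.comp (tendsto_snd (f := comap (ev χ) (𝓝 1)) (g := comap (ev χ) (𝓝 1))))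
    rw [mul_one] at h2
    exact h2.congr fun p => (ev_add χ p.1 p.2).symm
  neg := by
    rw [← Filter.map_le_iff_le_comap, Filter.map_map]
    have h1 : Tendsto (ev χ) (comap (ev χ) (𝓝 1)) (𝓝 1) := tendsto_comap
    have h2 := (Complex.continuous_conj.tendsto 1).comp h1
    rw [map_one] at h2
    exact h2.congr fun x => (ev_neg χ x).symm

theorem gf_NF (Δ : AddSubgroup (X →+ Additive Circle)) : GF (NF Δ) :=
  GF.iInf fun δ => gf_comap_ev δ.1

theorem le_NF {N : Filter X} {Δ : AddSubgroup (X →+ Additive Circle)} (h : Δ ≤ Gam N) :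
    N ≤ NF Δ :=
  le_iInf fun δ => (mem_Gam.1 (h δ.2)).le_comap

theorem mem_NF {Δ : AddSubgroup (X →+ Additive Circle)} {U : Set X} (hU : U ∈ NF Δ) :
    ∃ I : Finset (X →+ Additive Circle), (∀ δ ∈ I, δ ∈ Δ) ∧ ∃ ε : ℝ, 0 < ε ∧
      ∀ x, (∀ δ ∈ I, ‖ev δ x - 1‖ < ε) → x ∈ U := by
  classical
  refine Filter.iInf_sets_induct (f := fun δ : Δ => comap (ev δ.1) (𝓝 1)) hU
    (p := fun U => ∃ I : Finset (X →+ Additive Circle), (∀ δ ∈ I, δ ∈ Δ) ∧ ∃ ε : ℝ, 0 < ε ∧
      ∀ x, (∀ δ ∈ I, ‖ev δ x - 1‖ < ε) → x ∈ U) ?_ ?_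
  · exact ⟨∅, by simp, 1, one_pos, fun _ _ => mem_univ _⟩
  · rintro δ s₁ s₂ hs₁ ⟨I, hI, ε, hε, h⟩
    obtain ⟨t, ht, hts⟩ := mem_comap.1 hs₁
    obtain ⟨ε', hε', hball⟩ := Metric.mem_nhds_iff.1 ht
    refine ⟨insert δ.1 I, ?_, min ε ε', lt_min hε hε', ?_⟩
    · intro δ' hδ'
      rcases Finset.mem_insert.1 hδ' with rfl | h'
      · exact δ.2
      · exact hI δ' h'
    · intro x hx
      refine ⟨hts (hball ?_), h x fun δ' hδ' => ?_⟩
      · rw [Metric.mem_ball, dist_eq_norm]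
        exact (hx _ (Finset.mem_insert_self _ _)).trans_le (min_le_right _ _)
      · exact (hx _ (Finset.mem_insert_of_mem hδ')).trans_le (min_le_left _ _)

/-- Bohr sets are syndetic. -/
theorem bohr_syndetic (I : Finset (X →+ Additive Circle)) {ε : ℝ} (hε : 0 < ε) :
    ∃ S : Finset X, ∀ x, ∃ s ∈ S, ∀ δ ∈ I, ‖ev δ (x + s) - 1‖ < ε := by
  classical
  let Φ : X → (I → ℂ) := fun x δ => ev δ.1 x
  have hΦ : ∀ x, Φ x ∈ Metric.closedBall (0 : I → ℂ) 1 := by
    intro x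
    rw [mem_closedBall_zero_iff, pi_norm_le_iff_of_nonneg zero_le_one]
    intro δ
    exact (norm_ev _ _).le
  obtain ⟨t, _, htfin, ht⟩ := (isCompact_closedBall (0 : I → ℂ) 1).finite_cover_balls
    (half_pos hε)
  have hch : ∀ y : I → ℂ, ∃ z : X, (∃ x, Φ x ∈ Metric.ball y (ε / 2)) →
      Φ z ∈ Metric.ball y (ε / 2) := by
    intro y
    by_cases h : ∃ x, Φ x ∈ Metric.ball y (ε / 2)
    · obtain ⟨x, hx⟩ := h
      exact ⟨x, fun _ => hx⟩
    · exact ⟨0, fun h' => absurd h' h⟩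
  choose g hg using hch
  refine ⟨htfin.toFinset.image fun y => -g y, fun x => ?_⟩
  obtain ⟨y, hy, hxy⟩ := Set.mem_iUnion₂.1 (ht (hΦ x))
  refine ⟨-g y, Finset.mem_image.2 ⟨y, htfin.mem_toFinset.2 hy, rfl⟩, fun δ hδ => ?_⟩
  have h1 := hg y ⟨x, hxy⟩
  rw [← sub_eq_add_neg, ev_sub]
  have h2 : dist (Φ x) (Φ (g y)) < ε := by
    calc dist (Φ x) (Φ (g y)) ≤ dist (Φ x) y + dist (Φ (g y)) y := dist_triangle_right _ _ _
      _ < ε / 2 + ε / 2 := add_lt_add hxy h1
      _ = ε := by ring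
  have h3 : dist (Φ x ⟨δ, hδ⟩) (Φ (g y) ⟨δ, hδ⟩) ≤ dist (Φ x) (Φ (g y)) := dist_le_pi_dist _ _ _
  rw [dist_eq_norm] at h3
  exact h3.trans_lt h2

theorem mean_ev (m : Mean X) {χ : X →+ Additive Circle} (hχ : χ ≠ 0) : m.M (ev χ) = 0 := by
  have : ∃ y, χ y ≠ 0 := by
    by_contra h
    push Not at h
    exact hχ (by ext y; simp [h y])
  obtain ⟨y, hy⟩ := this
  have h1 := m.shift (ev χ) y (bdd_ev χ)
  have h2 : (fun x => ev χ (x + y)) = fun x => ev χ y * ev χ x := by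
    ext x
    rw [ev_add, mul_comm]
  rw [h2, m.smul _ _ (bdd_ev χ)] at h1
  have h3 : (ev χ y - 1) * m.M (ev χ) = 0 := by rw [sub_mul, h1]; ring
  rcases mul_eq_zero.1 h3 with h4 | h4
  · exact absurd ((ev_eq_one_iff χ y).1 (sub_eq_zero.1 h4)) hy
  · exact h4

/-- the kernel functions -/
noncomputable def ker1 (δ : X →+ Additive Circle) (x : X) : ℝ := (1 + (ev δ x).re) / 2

theorem abs_re_ev_le (δ : X →+ Additive Circle) (x : X) : |(ev δ x).re| ≤ 1 := by
  have := Complex.abs_re_le_norm (ev δ x)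
  rwa [norm_ev] at this

theorem ker1_nonneg (δ : X →+ Additive Circle) (x : X) : 0 ≤ ker1 δ x := by
  have := (abs_le.1 (abs_re_ev_le δ x)).1
  unfold ker1
  linarith

theorem ker1_le_one (δ : X →+ Additive Circle) (x : X) : ker1 δ x ≤ 1 := by
  have := (abs_le.1 (abs_re_ev_le δ x)).2
  unfold ker1
  linarith

theorem ker1_eq (δ : X →+ Additive Circle) (x : X) :
    ((ker1 δ x : ℝ) : ℂ) = 1 / 2 + 1 / 4 * ev δ x + 1 / 4 * ev (-δ) x := by
  rw [ev_neg_left]
  have : ev δ x + starRingEnd ℂ (ev δ x) = 2 * ((ev δ x).re : ℂ) := by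
    rw [Complex.add_conj]; push_cast; ring
  have h2 : 1 / 2 + 1 / 4 * ev δ x + 1 / 4 * (starRingEnd ℂ) (ev δ x) =
      1 / 2 + 1 / 4 * (ev δ x + starRingEnd ℂ (ev δ x)) := by ring
  rw [h2, this]
  unfold ker1
  push_cast
  ring

theorem bdd_ker1 (δ : X →+ Additive Circle) : Bdd fun x => ((ker1 δ x : ℝ) : ℂ) := by
  refine ⟨1, fun x => ?_⟩
  rw [Complex.norm_real, Real.norm_of_nonneg (ker1_nonneg δ x)]
  exact ker1_le_one δ x

/-- the orthogonality predicate -/
def Orth (m : Mean X) (Δ : AddSubgroup (X →+ Additive Circle)) (γ : X →+ Additive Circle)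
    (P : X → ℂ) : Prop :=
  Bdd P ∧ ∀ δ ∈ Δ, m.M (fun x => ev γ x * ev δ x * P x) = 0

theorem Orth.one (m : Mean X) {Δ : AddSubgroup (X →+ Additive Circle)}
    {γ : X →+ Additive Circle} (hγ : γ ∉ Δ) : Orth m Δ γ fun _ => 1 := by
  refine ⟨Bdd.const 1, fun δ hδ => ?_⟩
  have h1 : (fun x => ev γ x * ev δ x * 1) = ev (γ + δ) := by
    ext x
    rw [ev_add_left, mul_one]
  rw [h1]
  apply mean_ev
  intro h
  apply hγ
  have : γ = -δ := eq_neg_of_add_eq_zero_left h
  rw [this]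
  exact Δ.neg_mem hδ

theorem Orth.mul_ker {m : Mean X} {Δ : AddSubgroup (X →+ Additive Circle)}
    {γ : X →+ Additive Circle} {P : X → ℂ} (h : Orth m Δ γ P) {δ : X →+ Additive Circle}
    (hδ : δ ∈ Δ) : Orth m Δ γ fun x => (ker1 δ x : ℂ) * P x := by
  refine ⟨(bdd_ker1 δ).mul h.1, fun δ' hδ' => ?_⟩
  have h1 : (fun x => ev γ x * ev δ' x * ((ker1 δ x : ℂ) * P x)) =
      fun x => (1 / 2 * (ev γ x * ev δ' x * P x) + 1 / 4 * (ev γ x * ev (δ' + δ) x * P x)) +
        1 / 4 * (ev γ x * ev (δ' + -δ) x * P x) := by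
    ext x
    rw [ker1_eq, ev_add_left, ev_add_left]
    ring
  have b : ∀ ψ : X →+ Additive Circle, Bdd fun x => ev γ x * ev ψ x * P x := fun ψ =>
    ((bdd_ev γ).mul (bdd_ev ψ)).mul h.1
  rw [h1, m.add _ _ (((Bdd.const _).mul (b _)).add ((Bdd.const _).mul (b _)))
    ((Bdd.const _).mul (b _)), m.add _ _ ((Bdd.const _).mul (b _)) ((Bdd.const _).mul (b _)),
    m.smul _ _ (b _), m.smul _ _ (b _), m.smul _ _ (b _), h.2 _ hδ', h.2 _ (Δ.add_mem hδ' hδ),
    h.2 _ (Δ.add_mem hδ' (Δ.neg_mem hδ))]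
  simp

theorem Orth.mul_prod {m : Mean X} {Δ : AddSubgroup (X →+ Additive Circle)}
    {γ : X →+ Additive Circle} (I : Finset (X →+ Additive Circle)) (hI : ∀ δ ∈ I, δ ∈ Δ)
    {P : X → ℂ} (h : Orth m Δ γ P) :
    Orth m Δ γ fun x => ((∏ δ ∈ I, ker1 δ x : ℝ) : ℂ) * P x := by
  classical
  induction I using Finset.induction with
  | empty => simpa using h
  | insert δ I hδ ih =>
    have h1 := (ih fun δ' h' => hI δ' (Finset.mem_insert_of_mem h')).mul_ker
      (hI δ (Finset.mem_insert_self _ _))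
    have h2 : (fun x => ((∏ δ ∈ insert δ I, ker1 δ x : ℝ) : ℂ) * P x) =
        fun x => (ker1 δ x : ℂ) * (((∏ δ ∈ I, ker1 δ x : ℝ) : ℂ) * P x) := by
      ext x
      rw [Finset.prod_insert hδ]
      push_cast
      ring
    rw [h2]
    exact h1

theorem Orth.pow {m : Mean X} {Δ : AddSubgroup (X →+ Additive Circle)}
    {γ : X →+ Additive Circle} (hγ : γ ∉ Δ) (I : Finset (X →+ Additive Circle))
    (hI : ∀ δ ∈ I, δ ∈ Δ) (n : ℕ) :
    Orth m Δ γ fun x => (((∏ δ ∈ I, ker1 δ x) ^ n : ℝ) : ℂ) := by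
  induction n with
  | zero => simpa using Orth.one m hγ
  | succ n ih =>
    have h1 := Orth.mul_prod I hI ih
    have h2 : (fun x => (((∏ δ ∈ I, ker1 δ x) ^ (n + 1) : ℝ) : ℂ)) =
        fun x => ((∏ δ ∈ I, ker1 δ x : ℝ) : ℂ) * (((∏ δ ∈ I, ker1 δ x) ^ n : ℝ) : ℂ) := by
      ext x
      push_cast
      ring
    rw [h2]
    exact h1

/-- A character which is continuous in the topology generated by a group of characters belongs
to that group. -/
theorem mem_of_continuous (Δ : AddSubgroup (X →+ Additive Circle)) (γ : X →+ Additive Circle)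
    (h : Tendsto (ev γ) (NF Δ) (𝓝 1)) : γ ∈ Δ := by
  classical
  by_contra hγ
  obtain ⟨m⟩ := exists_mean X
  have hU : {x | ‖ev γ x - 1‖ < 1 / 2} ∈ NF Δ := by
    have := (Metric.tendsto_nhds.1 h) (1 / 2) (by norm_num)
    filter_upwards [this] with x hx
    rwa [dist_eq_norm] at hx
  obtain ⟨I, hI, ε, hε, hIε⟩ := mem_NF hU
  set η : ℝ := min (ε ^ 2 / 4) (1 / 2) with hη
  have hη0 : 0 < η := lt_min (by positivity) (by norm_num)
  have hη1 : η ≤ 1 / 2 := min_le_right _ _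
  have hηε : η ≤ ε ^ 2 / 4 := min_le_left _ _
  set f : X → ℝ := fun x => ∏ δ ∈ I, ker1 δ x with hf
  have hf0 : ∀ x, 0 ≤ f x := fun x => Finset.prod_nonneg fun δ _ => ker1_nonneg δ x
  have hf1 : ∀ x, f x ≤ 1 := fun x =>
    Finset.prod_le_one (fun δ _ => ker1_nonneg δ x) fun δ _ => ker1_le_one δ x
  -- if `f x` is close to one then `ev γ x` is close to one
  have hclose : ∀ x, 1 - η < f x → ‖ev γ x - 1‖ < 1 / 2 := by
    intro x hx
    refine hIε x fun δ hδ => ?_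
    have h1 : f x ≤ ker1 δ x := by
      have : f x = ker1 δ x * ∏ δ ∈ I.erase δ, ker1 δ x := (Finset.mul_prod_erase I _ hδ).symm
      rw [this]
      exact mul_le_of_le_one_right (ker1_nonneg δ x)
        (Finset.prod_le_one (fun δ _ => ker1_nonneg δ x) fun δ _ => ker1_le_one δ x)
    have h2 : 1 - 2 * η < (ev δ x).re := by
      have : 1 - η < ker1 δ x := hx.trans_le h1
      unfold ker1 at this
      linarith
    have h3 : ‖ev δ x - 1‖ ^ 2 = 2 - 2 * (ev δ x).re := by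
      have h4 : ‖ev δ x‖ ^ 2 = 1 := by rw [norm_ev]; norm_num
      rw [← Complex.normSq_eq_norm_sq, Complex.normSq_apply] at h4 ⊢
      simp only [Complex.sub_re, Complex.one_re, Complex.sub_im, Complex.one_im, sub_zero]
      nlinarith
    have h5 : ‖ev δ x - 1‖ ^ 2 < ε ^ 2 := by rw [h3]; linarith
    exact lt_of_pow_lt_pow_left₀ 2 hε.le h5
  -- syndeticity
  set ε' : ℝ := η / (2 * (I.card + 1)) with hε'
  have hε'0 : 0 < ε' := by positivity
  obtain ⟨S, hS⟩ := bohr_syndetic I hε'0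
  have hfS : ∀ x, ∃ s ∈ S, 1 - η / 2 ≤ f (x + s) := by
    intro x
    obtain ⟨s, hs, hxs⟩ := hS x
    refine ⟨s, hs, ?_⟩
    have h1 : ∀ δ ∈ I, 1 - ε' ≤ ker1 δ (x + s) := by
      intro δ hδ
      have h2 := hxs δ hδ
      have h3 : |(ev δ (x + s) - 1).re| ≤ ‖ev δ (x + s) - 1‖ := Complex.abs_re_le_norm _
      rw [Complex.sub_re, Complex.one_re] at h3
      have h4 := (abs_le.1 h3).1
      unfold ker1
      linarith
    have hε'1 : ε' ≤ 1 := by
      rw [hε', div_le_one (by positivity)]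
      have : (0 : ℝ) ≤ I.card := by positivity
      linarith
    have h2 : (1 - ε') ^ I.card ≤ f (x + s) := by
      rw [← Finset.prod_const]
      exact Finset.prod_le_prod (fun δ _ => by linarith) h1
    have h3 : 1 + (I.card : ℝ) * (-ε') ≤ (1 + -ε') ^ I.card :=
      one_add_mul_le_pow (by linarith) _
    have h4 : (I.card : ℝ) * ε' ≤ η / 2 := by
      rw [hε', ← mul_div_assoc, div_le_div_iff₀ (by positivity) (by norm_num)]
      nlinarith
    have h5 : (1 + -ε') ^ I.card = (1 - ε') ^ I.card := by rw [← sub_eq_add_neg]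
    rw [h5] at h3
    linarith
  -- the two estimates
  have hbG : ∀ n, Bdd fun x => ((f x ^ n : ℝ) : ℂ) := by
    intro n
    refine ⟨1, fun x => ?_⟩
    rw [Complex.norm_real, Real.norm_of_nonneg (pow_nonneg (hf0 x) n)]
    exact pow_le_one₀ (hf0 x) (hf1 x)
  have hlow : ∀ n, (1 - η / 2) ^ n ≤ S.card * (m.M fun x => ((f x ^ n : ℝ) : ℂ)).re := by
    intro n
    have h1 : m.M (fun x => ∑ s ∈ S, ((f (x + s) ^ n : ℝ) : ℂ)) =
        S.card * m.M fun x => ((f x ^ n : ℝ) : ℂ) := by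
      have : ∀ T : Finset X, m.M (fun x => ∑ s ∈ T, ((f (x + s) ^ n : ℝ) : ℂ)) =
          T.card * m.M fun x => ((f x ^ n : ℝ) : ℂ) := by
        intro T
        induction T using Finset.induction with
        | empty =>
          have := m.smul 0 (fun _ => 1) (Bdd.const 1)
          simpa using this
        | insert t T ht ih =>
          have h2 : (fun x => ∑ s ∈ insert t T, ((f (x + s) ^ n : ℝ) : ℂ)) =
              fun x => ((f (x + t) ^ n : ℝ) : ℂ) + ∑ s ∈ T, ((f (x + s) ^ n : ℝ) : ℂ) := by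
            ext x
            rw [Finset.sum_insert ht]
          rw [h2, m.add _ _ ((hbG n).comp _) (Bdd.sum T fun s _ => (hbG n).comp _), ih,
            m.shift (fun x => ((f x ^ n : ℝ) : ℂ)) t (hbG n), Finset.card_insert_of_notMem ht]
          push_cast
          ring
      exact this S
    have h2 : 0 ≤ (m.M (fun x => (∑ s ∈ S, ((f (x + s) ^ n : ℝ) : ℂ)) -
        (((1 - η / 2) ^ n : ℝ) : ℂ))).re := by
      refine m.nonneg _ ((Bdd.sum S fun s _ => (hbG n).comp _).sub (Bdd.const _)) fun x => ?_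
      obtain ⟨s, hs, hxs⟩ := hfS x
      rw [Complex.sub_re, Complex.re_sum, Complex.ofReal_re]
      have h3 : (1 - η / 2) ^ n ≤ f (x + s) ^ n :=
        pow_le_pow_left₀ (by linarith) hxs n
      have h4 : f (x + s) ^ n ≤ ∑ s ∈ S, ((f (x + s) ^ n : ℝ) : ℂ).re := by
        have := Finset.single_le_sum (f := fun s => ((f (x + s) ^ n : ℝ) : ℂ).re)
          (fun s _ => by rw [Complex.ofReal_re]; exact pow_nonneg (hf0 _) n) hs
        exact (Complex.ofReal_re (f (x + s) ^ n)).symm.le.trans this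
      linarith
    have h3 : m.M (fun x => (∑ s ∈ S, ((f (x + s) ^ n : ℝ) : ℂ)) -
        (((1 - η / 2) ^ n : ℝ) : ℂ)) =
        S.card * m.M (fun x => ((f x ^ n : ℝ) : ℂ)) - (((1 - η / 2) ^ n : ℝ) : ℂ) := by
      have h4 : (fun x => (∑ s ∈ S, ((f (x + s) ^ n : ℝ) : ℂ)) -
          (((1 - η / 2) ^ n : ℝ) : ℂ)) = fun x => (∑ s ∈ S, ((f (x + s) ^ n : ℝ) : ℂ)) +
          (-(((1 - η / 2) ^ n : ℝ) : ℂ)) * (1 : ℂ) := by
        ext x
        ring
      rw [h4, m.add _ _ (Bdd.sum S fun s _ => (hbG n).comp _)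
        ((Bdd.const _).mul (Bdd.const _)), h1, m.smul _ _ (Bdd.const 1), m.one]
      ring
    rw [h3, Complex.sub_re, Complex.ofReal_re] at h2
    have h4 : ((S.card : ℂ) * m.M fun x => ((f x ^ n : ℝ) : ℂ)).re =
        S.card * (m.M fun x => ((f x ^ n : ℝ) : ℂ)).re := by
      have : ((S.card : ℂ)) = ((S.card : ℝ) : ℂ) := by push_cast; rfl
      rw [this, Complex.re_ofReal_mul]
    rw [h4] at h2
    linarith
  have hup : ∀ n, (m.M fun x => ((f x ^ n : ℝ) : ℂ)).re ≤ 4 * (1 - η) ^ n := by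
    intro n
    have horth := (Orth.pow (m := m) hγ I hI n).2 0 Δ.zero_mem
    have h0 : m.M (fun x => ev γ x * ((f x ^ n : ℝ) : ℂ)) = 0 := by
      rw [← horth]
      congr 1
      ext x
      rw [ev_zero_left, mul_one]
    have h1 : 0 ≤ (m.M (fun x => (((2 * (1 - η) ^ n : ℝ) : ℂ) * 1 +
        ((-(1 / 2) : ℝ) : ℂ) * ((f x ^ n : ℝ) : ℂ)) + ev γ x * ((f x ^ n : ℝ) : ℂ))).re := by
      refine m.nonneg _ ((((Bdd.const _).mul (Bdd.const _)).add
        ((Bdd.const _).mul (hbG n))).add ((bdd_ev γ).mul (hbG n))) fun x => ?_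
      rw [Complex.add_re, Complex.add_re, mul_one, Complex.ofReal_re, Complex.re_ofReal_mul,
        Complex.ofReal_re, mul_comm (ev γ x), Complex.re_ofReal_mul]
      have hpow0 : 0 ≤ f x ^ n := pow_nonneg (hf0 x) n
      have h1η : 0 ≤ (1 - η) ^ n := pow_nonneg (by linarith) n
      by_cases hx : 1 - η < f x
      · have h2 := hclose x hx
        have h3 : |(ev γ x - 1).re| ≤ ‖ev γ x - 1‖ := Complex.abs_re_le_norm _
        rw [Complex.sub_re, Complex.one_re] at h3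
        have h4 := (abs_le.1 h3).1
        have h5 : 1 / 2 ≤ (ev γ x).re := by linarith
        nlinarith
      · have h2 : f x ^ n ≤ (1 - η) ^ n := pow_le_pow_left₀ (hf0 x) (not_lt.1 hx) n
        have h3 := (abs_le.1 (abs_re_ev_le γ x)).1
        nlinarith
    rw [m.add _ _ (((Bdd.const _).mul (Bdd.const _)).add ((Bdd.const _).mul (hbG n)))
      ((bdd_ev γ).mul (hbG n)), m.add _ _ ((Bdd.const _).mul (Bdd.const _))
      ((Bdd.const _).mul (hbG n)), m.smul _ _ (Bdd.const 1), m.smul _ _ (hbG n), m.one, h0,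
      mul_one, add_zero, Complex.add_re, Complex.ofReal_re, Complex.re_ofReal_mul] at h1
    linarith
  -- contradiction
  have h1η : 0 < 1 - η := by linarith
  set r : ℝ := (1 - η / 2) / (1 - η) with hr
  have hr1 : 1 < r := by
    rw [hr, one_lt_div h1η]
    linarith
  obtain ⟨n, hn⟩ := pow_unbounded_of_one_lt (4 * S.card : ℝ) hr1
  have h1 := hlow n
  have h2 := hup n
  have h3 : (1 - η / 2) ^ n ≤ S.card * (4 * (1 - η) ^ n) :=
    h1.trans (mul_le_mul_of_nonneg_left h2 (by positivity))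
  have h4 : r ^ n ≤ 4 * S.card := by
    rw [hr, div_pow, div_le_iff₀ (pow_pos h1η n)]
    linarith
  linarith

/-- maximally almost periodic: continuous characters separate points -/
def MAP (N : Filter X) : Prop := ∀ x : X, x ≠ 0 → ∃ χ ∈ Gam N, χ x ≠ 0

theorem sep_NF {Δ : AddSubgroup (X →+ Additive Circle)}
    (h : ∀ x : X, x ≠ 0 → ∃ χ ∈ Δ, χ x ≠ 0) : Sep (NF Δ) := by
  intro x hx
  obtain ⟨χ, hχ, hχx⟩ := h x hx
  have h1 : ev χ x ≠ 1 := fun h' => hχx ((ev_eq_one_iff χ x).1 h')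
  refine ⟨ev χ ⁻¹' {ev χ x}ᶜ, ?_, by simp⟩
  have h2 : comap (ev χ) (𝓝 1) ≥ NF Δ := iInf_le (fun δ : Δ => comap (ev δ.1) (𝓝 1)) ⟨χ, hχ⟩
  exact h2 (preimage_mem_comap (isOpen_compl_singleton.mem_nhds fun h' => h1 h'.symm))

/-- In a minimal group, a proper group of continuous characters has a nonzero annihilator. -/
theorem exists_annihilated {N : Filter X} (hmin : LM N univ)
    {Δ : AddSubgroup (X →+ Additive Circle)} (hΔ : Δ ≤ Gam N) (hne : Δ ≠ Gam N) :
    ∃ y : X, y ≠ 0 ∧ ∀ δ ∈ Δ, δ y = 0 := by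
  by_contra hcon
  push Not at hcon
  apply hne
  refine le_antisymm hΔ fun γ hγ => ?_
  refine mem_of_continuous Δ γ ?_
  exact (mem_Gam.1 hγ).mono_left (hmin _ (gf_NF Δ) (sep_NF hcon) (le_NF hΔ) univ_mem)

theorem NF_Gam_le {N : Filter X} (hmin : LM N univ) (hmap : MAP N) : NF (Gam N) ≤ N :=
  hmin _ (gf_NF _) (sep_NF hmap) (le_NF le_rfl) univ_mem

end Pool.Agent.Lib.MP_335999_gt
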