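import Mathlib

/-!
# Group filters

Neighbourhood filters of `0` of group topologies on an abelian group.
-/

open Filter Pointwise Set

namespace Pool.Agent.Lib.MP_335999_gt

variable {X : Type*} [AddCommGroup X]

/-- group filters: the neighbourhood filters of `0` of group topologies -/
structure GF (F : Filter X) : Prop where
  zero : 0 ≤ F
  add : F + F ≤ F
  neg : map Neg.neg F ≤ F

/-- Hausdorff group filters -/
def Sep (F : Filter X) : Prop := ∀ x : X, x ≠ 0 → ∃ U ∈ F, x ∉ U

/-- local minimality with a fixed witness -/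
def LM (N : Filter X) (V : Set X) : Prop :=
  ∀ F : Filter X, GF F → Sep F → N ≤ F → V ∈ F → F ≤ N

/-- countable tightness at zero -/
def CT (N : Filter X) : Prop :=
  ∀ A : Set X, (∀ U ∈ N, (A ∩ U).Nonempty) → ∃ B ⊆ A, B.Countable ∧ ∀ U ∈ N, (B ∩ U).Nonempty

/-- countable pseudocharacter at zero -/
def Psi (N : Filter X) : Prop :=
  ∃ C : Set (Set X), C.Countable ∧ (∀ U ∈ C, U ∈ N) ∧ ∀ x, (∀ U ∈ C, x ∈ U) → x = 0

/-- the trace of a filter on a subgroup -/
def tr (N : Filter X) (L : AddSubgroup X) : Filter L := comap (Subtype.val) N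

/-- closed subgroups -/
def Clo (N : Filter X) (L : AddSubgroup X) : Prop :=
  ∀ x, (∀ U ∈ N, ∃ y ∈ L, x - y ∈ U) → x ∈ L

namespace GF

variable {F : Filter X}

theorem zero_mem (h : GF F) {U : Set X} (hU : U ∈ F) : (0 : X) ∈ U := by
  have := h.zero hU
  simpa using this

theorem half (h : GF F) {U : Set X} (hU : U ∈ F) : ∃ W ∈ F, ∀ a ∈ W, ∀ b ∈ W, a + b ∈ U := by
  obtain ⟨A, hA, B, hB, hAB⟩ := Filter.mem_add.1 (h.add hU)
  exact ⟨A ∩ B, inter_mem hA hB, fun a ha b hb => hAB (Set.add_mem_add ha.1 hb.2)⟩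

theorem neg_mem (h : GF F) {U : Set X} (hU : U ∈ F) : {x | -x ∈ U} ∈ F := h.neg hU

theorem symHalf (h : GF F) {U : Set X} (hU : U ∈ F) :
    ∃ W ∈ F, (∀ a ∈ W, -a ∈ W) ∧ ∀ a ∈ W, ∀ b ∈ W, a + b ∈ U := by
  obtain ⟨W, hW, hW'⟩ := h.half hU
  refine ⟨W ∩ {x | -x ∈ W}, inter_mem hW (h.neg_mem hW), ?_, ?_⟩
  · rintro a ⟨h1, h2⟩
    exact ⟨h2, by simpa using h1⟩
  · rintro a ⟨h1, _⟩ b ⟨h2, _⟩
    exact hW' a h1 b h2

theorem sub_half (h : GF F) {U : Set X} (hU : U ∈ F) :
    ∃ W ∈ F, ∀ a ∈ W, ∀ b ∈ W, a - b ∈ U := by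
  obtain ⟨W, hW, h1, h2⟩ := h.symHalf hU
  exact ⟨W, hW, fun a ha b hb => by rw [sub_eq_add_neg]; exact h2 a ha _ (h1 b hb)⟩

theorem tendsto_add (h : GF F) : Tendsto (fun p : X × X => p.1 + p.2) (F ×ˢ F) F := by
  have : F + F = map (fun p : X × X => p.1 + p.2) (F ×ˢ F) := by
    rw [← Filter.map₂_add, ← Filter.map_prod_eq_map₂]
  rw [Tendsto, ← this]
  exact h.add

theorem nsmul (h : GF F) (k : ℕ) : Tendsto (fun x : X => k • x) F F := by
  induction k with
  | zero =>
    simp only [zero_smul]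
    exact (tendsto_const_pure).mono_right (by simpa using h.zero)
  | succ k ih =>
    have := h.tendsto_add.comp (ih.prodMk tendsto_id)
    refine this.congr fun x => ?_
    simp [add_smul]

theorem zsmul (h : GF F) (k : ℤ) : Tendsto (fun x : X => k • x) F F := by
  obtain ⟨n, rfl | rfl⟩ := k.eq_nat_or_neg
  · simpa using h.nsmul n
  · have h1 : Tendsto (Neg.neg : X → X) F F := h.neg
    have := h1.comp (h.nsmul n)
    refine this.congr fun x => ?_
    simp

theorem comap {Y : Type*} [AddCommGroup Y] (h : GF F) (f : Y →+ X) : GF (Filter.comap f F) where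
  zero := by
    rw [← Filter.map_le_iff_le_comap]
    simpa [← Filter.pure_zero] using h.zero
  add := by
    rw [← Filter.map_le_iff_le_comap, Filter.map_add]
    exact (add_le_add Filter.map_comap_le Filter.map_comap_le).trans h.add
  neg := by
    rw [← Filter.map_le_iff_le_comap, Filter.map_map]
    have : (f ∘ Neg.neg : Y → X) = Neg.neg ∘ f := by
      ext y
      simp
    rw [this, ← Filter.map_map]
    exact (Filter.map_mono Filter.map_comap_le).trans h.neg

theorem map {Y : Type*} [AddCommGroup Y] (h : GF F) (f : X →+ Y) : GF (Filter.map f F) where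
  zero := by
    have := Filter.map_mono (m := f) h.zero
    simpa [← Filter.pure_zero] using this
  add := by
    rw [← Filter.map_add]
    exact Filter.map_mono h.add
  neg := by
    rw [Filter.map_map]
    have : (Neg.neg ∘ f : X → Y) = f ∘ Neg.neg := by
      ext y
      simp
    rw [this, ← Filter.map_map]
    exact Filter.map_mono h.neg

theorem iInf {ι : Sort*} {G : ι → Filter X} (h : ∀ i, GF (G i)) : GF (⨅ i, G i) where
  zero := le_iInf fun i => (h i).zero
  add := le_iInf fun i => (add_le_add (iInf_le _ i) (iInf_le _ i)).trans (h i).add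
  neg := le_iInf fun i => (Filter.map_mono (iInf_le _ i)).trans (h i).neg

theorem sum {G : Filter X} (hF : GF F) (hG : GF G) : GF (F + G) where
  zero := by
    have := add_le_add hF.zero hG.zero
    simpa using this
  add := by
    rw [add_add_add_comm]
    exact add_le_add hF.add hG.add
  neg := by
    have : Filter.map (Neg.neg) (F + G) = Filter.map Neg.neg F + Filter.map Neg.neg G := by
      have := Filter.map_add (f₁ := F) (f₂ := G) (negAddMonoidHom : X →+ X)
      simpa using this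
    rw [this]
    exact add_le_add hF.neg hG.neg

theorem le_sum_left {G : Filter X} (hG : GF G) : F ≤ F + G := by
  calc F = F + 0 := (add_zero F).symm
    _ ≤ F + G := add_le_add le_rfl hG.zero

theorem le_sum_right {G : Filter X} (hF : GF F) : G ≤ F + G := by
  calc G = 0 + G := (zero_add G).symm
    _ ≤ F + G := add_le_add hF.zero le_rfl

theorem tr {N : Filter X} (h : GF N) (L : AddSubgroup X) : GF (tr N L) := h.comap L.subtype

end GF

theorem Sep.tr {N : Filter X} (h : Sep N) (L : AddSubgroup X) : Sep (tr N L) := by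
  intro x hx
  obtain ⟨U, hU, hxU⟩ := h x.1 (fun h0 => hx (Subtype.ext h0))
  exact ⟨_, preimage_mem_comap hU, hxU⟩

theorem CT.tr {N : Filter X} (h : CT N) (L : AddSubgroup X) : CT (tr N L) := by
  intro A hA
  obtain ⟨B, hBA, hBc, hB⟩ := h (Subtype.val '' A) (by
    intro U hU
    obtain ⟨y, hy1, hy2⟩ := hA _ (preimage_mem_comap hU)
    exact ⟨y.1, ⟨y, hy1, rfl⟩, hy2⟩)
  refine ⟨Subtype.val ⁻¹' B, ?_, hBc.preimage Subtype.val_injective, ?_⟩
  · intro y hy
    obtain ⟨z, hz, hzy⟩ := hBA hy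
    rwa [← Subtype.ext hzy]
  · intro U hU
    obtain ⟨U', hU', hUU'⟩ := mem_comap.1 hU
    obtain ⟨y, hy1, hy2⟩ := hB U' hU'
    obtain ⟨z, hz, rfl⟩ := hBA hy1
    exact ⟨z, hy1, hUU' hy2⟩

/-- The filter of a closed subgroup inside a locally minimal group is minimal. -/
theorem LM.closed {N : Filter X} {V : Set X} (hN : GF N) (h : LM N V) {L : AddSubgroup X}
    (hL : Clo N L) {U₀ : Set X} (hU₀ : U₀ ∈ N) (hV : ∀ x ∈ L, ∀ u ∈ U₀, x + u ∈ V) :
    LM (tr N L) univ := by
  intro F hF hsep hle _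
  -- extend the filter
  set G : Filter X := map L.subtype F + N with hG
  have hGF : GF G := (hF.map L.subtype).sum hN
  have hle' : N ≤ G := GF.le_sum_right (hF.map L.subtype)
  have hVG : V ∈ G := by
    refine Filter.mem_add.2 ⟨L.subtype '' univ, image_mem_map univ_mem, U₀, hU₀, ?_⟩
    rintro _ ⟨_, ⟨x, -, rfl⟩, u, hu, rfl⟩
    exact hV x.1 x.2 u hu
  have hSep : Sep G := by
    intro x hx
    by_contra hcon
    push Not at hcon
    have hxL : x ∈ L := by
      refine hL x fun U hU => ?_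
      have := hcon (L.subtype '' univ + U) (Filter.add_mem_add (image_mem_map univ_mem) hU)
      obtain ⟨_, ⟨y, -, rfl⟩, u, hu, hxu⟩ := this
      refine ⟨y.1, y.2, ?_⟩
      rw [← hxu]
      simpa using hu
    obtain ⟨W', hW', hxW'⟩ := hsep ⟨x, hxL⟩ (fun h0 => hx (congrArg Subtype.val h0))
    obtain ⟨W, hW, hWW⟩ := hF.half hW'
    obtain ⟨U, hU, hUW⟩ := mem_comap.1 (hle hW)
    obtain ⟨_, ⟨w, hw, rfl⟩, u, hu, hxu⟩ :=
      hcon (L.subtype '' W + U) (Filter.add_mem_add (image_mem_map hW) hU)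
    have huL : u ∈ L := by
      have h1 : u = x - w.1 := by rw [← hxu]; simp
      rw [h1]
      exact L.sub_mem hxL w.2
    have h2 : (⟨u, huL⟩ : L) ∈ W := hUW hu
    have h3 := hWW w hw ⟨u, huL⟩ h2
    have h4 : w + ⟨u, huL⟩ = ⟨x, hxL⟩ := Subtype.ext hxu
    rw [h4] at h3
    exact hxW' h3
  have key := h G hGF hSep hle' hVG
  intro S hS
  obtain ⟨O, hO, hOS⟩ := mem_comap.1 hS
  obtain ⟨A, hA, B, hB, hAB⟩ := Filter.mem_add.1 (key hO)
  refine mem_of_superset hA ?_
  intro y hy
  apply hOS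
  have : (L.subtype y) + 0 ∈ O := hAB (Set.add_mem_add hy (hN.zero_mem hB))
  simpa using this

/-- Closed subgroups of minimal groups are minimal. -/
theorem LM.closed' {N : Filter X} (hN : GF N) (h : LM N univ) {L : AddSubgroup X}
    (hL : Clo N L) : LM (tr N L) univ :=
  h.closed hN hL univ_mem (fun _ _ _ _ => mem_univ _)

/-- Countably many members of a group filter lie in a countably generated group filter. -/
theorem GF.exists_countable {N : Filter X} (hN : GF N) {C : Set (Set X)} (hC : C.Countable)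
    (hCN : ∀ U ∈ C, U ∈ N) :
    ∃ F : Filter X, GF F ∧ N ≤ F ∧ F.IsCountablyGenerated ∧ ∀ U ∈ C, U ∈ F := by
  -- enumerate
  obtain ⟨U, hU⟩ : ∃ U : ℕ → Set X, (∀ n, U n ∈ N) ∧ ∀ S ∈ C, ∃ n, U n = S := by
    rcases (insert univ C).eq_empty_or_nonempty with h | h
    · exact absurd h (Set.insert_nonempty _ _).ne_empty
    · obtain ⟨f, hf⟩ := (hC.insert univ).exists_eq_range h
      refine ⟨f, fun n => ?_, fun S hS => ?_⟩
      · have : f n ∈ insert univ C := by rw [hf]; exact mem_range_self n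
        rcases this with h1 | h1
        · rw [h1]; exact univ_mem
        · exact hCN _ h1
      · have : S ∈ insert univ C := Or.inr hS
        rw [hf] at this
        exact this
  obtain ⟨hUN, hUC⟩ := hU
  -- choose halves
  have hstep : ∀ S : {S : Set X // S ∈ N}, ∃ W : {S : Set X // S ∈ N},
      (∀ a ∈ W.1, -a ∈ W.1) ∧ ∀ a ∈ W.1, ∀ b ∈ W.1, a + b ∈ S.1 := by
    intro S
    obtain ⟨W, hW, h1, h2⟩ := hN.symHalf S.2
    exact ⟨⟨W, hW⟩, h1, h2⟩
  choose g hg1 hg2 using hstep
  let W : ℕ → {S : Set X // S ∈ N} := fun n =>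
    Nat.rec (g ⟨U 0, hUN 0⟩) (fun n S => g ⟨S.1 ∩ U (n + 1), inter_mem S.2 (hUN (n + 1))⟩) n
  have hW0 : W 0 = g ⟨U 0, hUN 0⟩ := rfl
  have hWs : ∀ n, W (n + 1) = g ⟨(W n).1 ∩ U (n + 1), inter_mem (W n).2 (hUN (n + 1))⟩ :=
    fun n => rfl
  have hgsub : ∀ S : {S : Set X // S ∈ N}, (g S).1 ⊆ S.1 := by
    intro S a ha
    have := hg2 S a ha 0 (hN.zero_mem (g S).2)
    simpa using this
  have hanti : Antitone fun n => (W n).1 := by
    refine antitone_nat_of_succ_le fun n => ?_
    change (W (n + 1)).1 ⊆ (W n).1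
    rw [hWs]
    exact (hgsub _).trans inter_subset_left
  have hWU : ∀ n, (W n).1 ⊆ U n := by
    intro n
    cases n with
    | zero => rw [hW0]; exact hgsub _
    | succ n => rw [hWs]; exact (hgsub _).trans inter_subset_right
  have hbas : (⨅ n, 𝓟 (W n).1).HasAntitoneBasis fun n => (W n).1 :=
    HasAntitoneBasis.iInf_principal hanti
  refine ⟨⨅ n, 𝓟 (W n).1, ⟨?_, ?_, ?_⟩, ?_, ?_, ?_⟩
  · refine le_iInf fun n => ?_
    rw [le_principal_iff]
    simpa using hN.zero_mem (W n).2
  · refine le_iInf fun n => ?_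
    rw [le_principal_iff]
    refine Filter.mem_add.2 ⟨(W (n + 1)).1, hbas.mem (n + 1), (W (n + 1)).1, hbas.mem (n + 1), ?_⟩
    rintro _ ⟨a, ha, b, hb, rfl⟩
    rw [hWs] at ha hb
    exact (hg2 _ a ha b hb).1
  · refine le_iInf fun n => ?_
    rw [le_principal_iff]
    refine mem_map.2 (mem_of_superset (hbas.mem n) ?_)
    intro a ha
    cases n with
    | zero => rw [hW0] at ha; exact hg1 _ a ha
    | succ n => rw [hWs] at ha; exact hg1 _ a ha
  · exact le_iInf fun n => le_principal_iff.2 (W n).2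
  · exact hbas.toHasBasis.isCountablyGenerated
  · intro S hS
    obtain ⟨n, rfl⟩ := hUC S hS
    exact mem_of_superset (hbas.mem n) (hWU n)

/-- The kernel of a group filter. -/
def GF.ker {F : Filter X} (h : GF F) : AddSubgroup X where
  carrier := {x | ∀ U ∈ F, x ∈ U}
  zero_mem' := fun U hU => h.zero_mem hU
  add_mem' := by
    intro a b ha hb U hU
    obtain ⟨W, hW, hWU⟩ := h.half hU
    exact hWU a (ha W hW) b (hb W hW)
  neg_mem' := by
    intro a ha U hU
    exact ha _ (h.neg_mem hU)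

theorem GF.mem_ker {F : Filter X} (h : GF F) {x : X} : x ∈ h.ker ↔ ∀ U ∈ F, x ∈ U := Iff.rfl

theorem GF.ker_clo {F N : Filter X} (h : GF F) (hle : N ≤ F) : Clo N h.ker := by
  intro x hx U hU
  obtain ⟨W, hW, hWU⟩ := h.half hU
  obtain ⟨y, hy, hxy⟩ := hx W (hle hW)
  have := hWU (x - y) hxy y (hy W hW)
  simpa using this

/-- Locally minimal groups of countable pseudocharacter are first countable. -/
theorem LM.countablyGenerated {N : Filter X} {V : Set X} (hN : GF N) (hV : V ∈ N) (h : LM N V)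
    (hpsi : Psi N) : N.IsCountablyGenerated := by
  obtain ⟨C, hC, hCN, hC0⟩ := hpsi
  obtain ⟨F, hF, hle, hcg, hCF⟩ := hN.exists_countable (hC.insert V) (by
    rintro U (rfl | hU)
    · exact hV
    · exact hCN U hU)
  have hsep : Sep F := by
    intro x hx
    by_contra hcon
    push Not at hcon
    exact hx (hC0 x fun U hU => hcon U (hCF U (Or.inr hU)))
  have : F = N := le_antisymm (h F hF hsep hle (hCF V (Or.inl rfl))) hle
  rwa [← this]

/-- Passing from the kernel of a countably generated group filter to the whole group. -/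
theorem Psi.of_ker {N F : Filter X} (hF : GF F) (hle : N ≤ F) (hcg : F.IsCountablyGenerated)
    (h : Psi (tr N hF.ker)) : Psi N := by
  obtain ⟨C, hC, hCN, hC0⟩ := h
  obtain ⟨W, hW⟩ := F.exists_antitone_basis
  have : ∀ U ∈ C, ∃ U' ∈ N, (Subtype.val : hF.ker → X) ⁻¹' U' ⊆ U := fun U hU =>
    mem_comap.1 (hCN U hU)
  choose! f hf1 hf2 using this
  refine ⟨range W ∪ f '' C, (countable_range W).union (hC.image f), ?_, ?_⟩
  · rintro U (⟨n, rfl⟩ | ⟨U', hU', rfl⟩)
    · exact hle (hW.mem n)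
    · exact hf1 U' hU'
  · intro x hx
    have hxk : x ∈ hF.ker := by
      intro U hU
      obtain ⟨n, -, hn⟩ := hW.toHasBasis.mem_iff.1 hU
      exact hn (hx _ (Or.inl (mem_range_self n)))
    have := hC0 ⟨x, hxk⟩ fun U hU => hf2 U hU (hx _ (Or.inr ⟨U, hU, rfl⟩))
    exact congrArg Subtype.val this

end Pool.Agent.Lib.MP_335999_gt
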