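import Pool.Agent.Lib.MP_335999_gt.GNS2

/-!
# A theorem of Foelner type: characters from syndetic sets
-/

open Filter Topology UniformSpace Completion InnerProductSpace

namespace Pool.Agent.Lib.MP_335999_gt

variable {Y : Type*} [AddCommGroup Y]

theorem mean_const (m : Mean Y) (c : ℂ) : m.M (fun _ => c) = c := by
  have := m.smul c (fun _ => 1) (Bdd.const 1)
  rw [m.one] at this
  simpa using this

theorem mean_sum (m : Mean Y) {ι : Type*} (T : Finset ι) (G : ι → Y → ℂ) (hG : ∀ i, Bdd (G i)) :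
    m.M (fun x => ∑ i ∈ T, G i x) = ∑ i ∈ T, m.M (G i) := by
  classical
  induction T using Finset.induction with
  | empty => simpa using mean_const m 0
  | insert i T hi ih =>
    have h1 : (fun x => ∑ j ∈ insert i T, G j x) = fun x => G i x + ∑ j ∈ T, G j x := by
      ext x
      rw [Finset.sum_insert hi]
    rw [h1, m.add _ _ (hG i) (Bdd.sum T fun j _ => hG j), ih, Finset.sum_insert hi]

theorem mean_sum_shift (m : Mean Y) (T : Finset Y) (g : Y → ℂ) (hg : Bdd g) :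
    m.M (fun x => ∑ s ∈ T, g (x + s)) = T.card * m.M g := by
  rw [mean_sum m T (fun s x => g (x + s)) (fun s => hg.comp _)]
  rw [Finset.sum_congr rfl fun s _ => m.shift g s hg]
  simp

theorem mean_mono (m : Mean Y) {g h : Y → ℂ} (hg : Bdd g) (hh : Bdd h)
    (hgh : ∀ x, (g x).re ≤ (h x).re) : (m.M g).re ≤ (m.M h).re := by
  have h1 : 0 ≤ (m.M fun x => h x + (-1) * g x).re := by
    refine m.nonneg _ (hh.add ((Bdd.const _).mul hg)) fun x => ?_
    have := hgh x
    simp only [Complex.add_re, neg_mul, one_mul, Complex.neg_re]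
    linarith
  rw [m.add _ _ hh ((Bdd.const _).mul hg), m.smul _ _ hg] at h1
  simp only [Complex.add_re, neg_mul, one_mul, Complex.neg_re] at h1
  linarith

theorem PH.norm_le (m : Mean Y) (g : PH m) {C : ℝ} (hC : 0 ≤ C) (h : ∀ x, ‖PH.fn m g x‖ ≤ C) :
    ‖g‖ ≤ C := by
  rw [@norm_eq_sqrt_re_inner ℂ]
  refine Real.sqrt_le_iff.2 ⟨hC, ?_⟩
  rw [PH.inner_def]
  refine (Complex.re_le_norm _).trans (m.norm_le _ _ fun x => ?_)
  rw [norm_mul, RCLike.norm_conj, sq]
  exact mul_le_mul (h x) (h x) (norm_nonneg _) hC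

theorem folner_core (f : Y → ℝ) (hf0 : ∀ x, 0 ≤ f x) (hf1 : ∀ x, f x ≤ 1) (F : Finset Y)
    (hF : ∀ y, ∃ s ∈ F, 1 / 2 ≤ f (y + s)) (y0 : Y)
    (hy0 : ∀ z x z', f z * f (z + x) * (f z' * f (z' + (x + y0))) = 0) :
    ∃ χ : Y →+ Additive Circle, ev χ y0 ≠ 1 ∧ ∃ δ : ℝ, 0 < δ ∧
      ∀ y (ε : ℝ), (∀ x, |f (x + y) - f x| ≤ ε) → δ * ‖ev χ y - 1‖ ≤ ε := by
  classical
  obtain ⟨m⟩ := exists_mean Y
  have hfb : Bdd fun x => (f x : ℂ) := by
    refine ⟨1, fun x => ?_⟩
    rw [Complex.norm_real, Real.norm_of_nonneg (hf0 x)]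
    exact hf1 x
  have hffb : ∀ y : Y, Bdd fun x => ((f x * f (x + y) : ℝ) : ℂ) := by
    intro y
    obtain ⟨C, hC⟩ := hfb.mul (hfb.comp fun x => x + y)
    refine ⟨C, fun x => ?_⟩
    have := hC x
    push_cast
    exact this
  set ξ₀ : PH m := PH.mk m (fun x => (f x : ℂ)) hfb with hξ₀
  set ξ : HS m := (ξ₀ : HS m) with hξ
  set φ : Y → ℂ := fun x => m.M fun z => ((f z * f (z + x) : ℝ) : ℂ) with hφdef
  have hφ : ∀ x, ⟪ξ, pi m x ξ⟫_ℂ = φ x := by
    intro x
    rw [hξ, pi_coe, inner_coe, PH.inner_def]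
    change m.M (fun z => starRingEnd ℂ (f z : ℂ) * (f (z + x) : ℂ)) = _
    congr 1
    ext z
    rw [Complex.conj_ofReal]
    push_cast
    rfl
  set r : Y → ℝ := fun x => (φ x).re with hr
  have hφr : ∀ x, φ x = (r x : ℂ) := by
    intro x
    have h1 : starRingEnd ℂ (φ x) = φ x := by
      rw [hφdef]
      simp only
      rw [← m.conj _ (hffb x)]
      congr 1
      ext z
      rw [Complex.conj_ofReal]
    exact (Complex.conj_eq_iff_re.1 h1).symm
  have hφ' : ∀ x, ⟪pi m x ξ, ξ⟫_ℂ = (r x : ℂ) := by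
    intro x
    rw [← inner_conj_symm, hφ, hφr, Complex.conj_ofReal]
  have hrb : Bdd fun x => (r x : ℂ) := by
    refine ⟨‖ξ‖ * ‖ξ‖, fun x => ?_⟩
    change ‖((r x : ℝ) : ℂ)‖ ≤ _
    rw [← hφr, ← hφ]
    refine (norm_inner_le_norm _ _).trans ?_
    rw [norm_pi]
  -- lower bounds
  have hFcard : (0 : ℝ) ≤ F.card := Nat.cast_nonneg _
  have hF0 : (0 : ℝ) < F.card := by
    obtain ⟨s, hs, _⟩ := hF 0
    exact_mod_cast Finset.card_pos.2 ⟨s, hs⟩
  set a : ℝ := (m.M fun x => (f x : ℂ)).re with ha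
  have ha1 : 1 / 2 ≤ F.card * a := by
    have h1 := mean_mono m (g := fun _ => ((1 / 2 : ℝ) : ℂ)) (h := fun x => ∑ s ∈ F, (f (x + s) : ℂ))
      (Bdd.const _) (Bdd.sum F fun s _ => hfb.comp _) (by
        intro x
        obtain ⟨s, hs, hxs⟩ := hF x
        rw [Complex.ofReal_re, Complex.re_sum]
        have h2 := Finset.single_le_sum (f := fun s => ((f (x + s) : ℝ) : ℂ).re)
          (fun s _ => by rw [Complex.ofReal_re]; exact hf0 _) hs
        exact hxs.trans ((Complex.ofReal_re (f (x + s))).symm.le.trans h2))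
    rw [mean_const, mean_sum_shift m F (fun x => (f x : ℂ)) hfb, Complex.ofReal_re] at h1
    have h2 : ((F.card : ℂ) * m.M fun x => (f x : ℂ)).re = F.card * a := by
      have : ((F.card : ℂ)) = ((F.card : ℝ) : ℂ) := by push_cast; rfl
      rw [this, Complex.re_ofReal_mul]
    rwa [h2] at h1
  have ha0 : 0 < a := by
    by_contra h
    have : F.card * a ≤ 0 := mul_nonpos_of_nonneg_of_nonpos hFcard (not_lt.1 h)
    linarith
  have hra : ∀ x, a / 2 ≤ ∑ s ∈ F, r (x + s) := by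
    intro x
    have h1 : ∑ s ∈ F, φ (x + s) =
        m.M (fun z => ∑ s ∈ F, ((f z * f (z + (x + s)) : ℝ) : ℂ)) := by
      rw [mean_sum m F (fun s z => ((f z * f (z + (x + s)) : ℝ) : ℂ)) (fun s => hffb _)]
    have h2 := mean_mono m (g := fun z => ((1 / 2 : ℝ) : ℂ) * (f z : ℂ))
      (h := fun z => ∑ s ∈ F, ((f z * f (z + (x + s)) : ℝ) : ℂ))
      ((Bdd.const _).mul hfb) (Bdd.sum F fun s _ => hffb _) (by
        intro z
        obtain ⟨s, hs, hxs⟩ := hF (z + x)
        rw [Complex.re_ofReal_mul, Complex.ofReal_re, Complex.re_sum]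
        have h3 := Finset.single_le_sum (f := fun s => ((f z * f (z + (x + s)) : ℝ) : ℂ).re)
          (fun s _ => by rw [Complex.ofReal_re]; exact mul_nonneg (hf0 _) (hf0 _)) hs
        have h4 : 1 / 2 * f z ≤ f z * f (z + (x + s)) := by
          rw [← add_assoc]
          nlinarith [hf0 z]
        exact h4.trans ((Complex.ofReal_re (f z * f (z + (x + s)))).symm.le.trans h3))
    rw [← h1, m.smul _ _ hfb, Complex.re_ofReal_mul, Complex.re_sum] at h2
    have h5 : ∑ s ∈ F, (φ (x + s)).re = ∑ s ∈ F, r (x + s) := rfl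
    rw [h5] at h2
    linarith
  set b : ℝ := (m.M fun x => (r x : ℂ)).re with hb
  have hb0 : 0 < b := by
    have h1 := mean_mono m (g := fun _ => ((a / 2 : ℝ) : ℂ)) (h := fun x => ∑ s ∈ F, (r (x + s) : ℂ))
      (Bdd.const _) (Bdd.sum F fun s _ => hrb.comp _) (by
        intro x
        rw [Complex.ofReal_re, Complex.re_sum]
        simpa using hra x)
    rw [mean_const, mean_sum_shift m F (fun x => (r x : ℂ)) hrb, Complex.ofReal_re] at h1
    have h2 : ((F.card : ℂ) * m.M fun x => (r x : ℂ)).re = F.card * b := by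
      have : ((F.card : ℂ)) = ((F.card : ℝ) : ℂ) := by push_cast; rfl
      rw [this, Complex.re_ofReal_mul]
    rw [h2] at h1
    by_contra h
    have : F.card * b ≤ 0 := mul_nonpos_of_nonneg_of_nonpos hFcard (not_lt.1 h)
    linarith
  have hr2 : 0 < (m.M fun x => (r x : ℂ) * (r x : ℂ)).re := by
    have h1 : 0 ≤ (m.M fun x => ((r x : ℂ) * (r x : ℂ) + ((-(2 * b) : ℝ) : ℂ) * (r x : ℂ)) +
        ((b ^ 2 : ℝ) : ℂ)).re := by
      refine m.nonneg _ (((hrb.mul hrb).add ((Bdd.const _).mul hrb)).add (Bdd.const _)) fun x => ?_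
      rw [Complex.add_re, Complex.add_re, Complex.re_ofReal_mul, Complex.re_ofReal_mul,
        Complex.ofReal_re, Complex.ofReal_re]
      nlinarith [sq_nonneg (r x - b)]
    rw [m.add _ _ ((hrb.mul hrb).add ((Bdd.const _).mul hrb)) (Bdd.const _),
      m.add _ _ (hrb.mul hrb) ((Bdd.const _).mul hrb), m.smul _ _ hrb, mean_const,
      Complex.add_re, Complex.add_re, Complex.re_ofReal_mul, Complex.ofReal_re] at h1
    nlinarith [hb0]
  -- the operator does not vanish
  set T := TT m ξ with hT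
  have hTξ : ⟪T ξ, ξ⟫_ℂ = m.M fun x => (r x : ℂ) * (r x : ℂ) := by
    rw [hT, TT_inner]
    congr 1
    ext x
    rw [igd, hφ, hφ', hφr]
  have hTy : ⟪(pi m y0 * T) ξ, ξ⟫_ℂ = 0 := by
    rw [mul_apply_eq_comp, pi_adj, hT, TT_inner]
    have h1 : igd m ξ ξ (pi m (-y0) ξ) = fun _ => 0 := by
      ext x
      rw [igd, ← pi_adj, hφ, ← mul_apply_eq_comp, ← pi_add, hφ', hφr, add_comm y0 x]
      by_cases hx : r x = 0
      · rw [hx]; simp
      · have h2 : ∃ z, f z * f (z + x) ≠ 0 := by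
          by_contra hcon
          push Not at hcon
          apply hx
          rw [hr, hφdef]
          simp only [hcon]
          rw [mean_const]
          simp
        obtain ⟨z, hz⟩ := h2
        have h3 : r (x + y0) = 0 := by
          have h4 : ∀ z', f z' * f (z' + (x + y0)) = 0 := fun z' =>
            (mul_eq_zero.1 (hy0 z x z')).resolve_left hz
          rw [hr, hφdef]
          simp only [h4]
          rw [mean_const]
          simp
        rw [h3]
        simp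
    rw [h1, mean_const]
  have hne : (1 - pi m y0) * T ≠ 0 := by
    intro h
    have h1 : ⟪((1 - pi m y0) * T) ξ, ξ⟫_ℂ = 0 := by rw [h]; simp
    rw [sub_mul, one_mul, sub_apply, inner_sub_left, hTy, sub_zero, hTξ] at h1
    rw [h1] at hr2
    simp at hr2
  -- the commuting family
  obtain ⟨B, hSB, ω, hω, hmem, hω0⟩ := exists_character (S := insert T (Set.range (pi m))) (by
    rintro a' (rfl | ⟨x, rfl⟩) b' (rfl | ⟨y, rfl⟩)
    · rfl
    · exact (pi_mul_TT m ξ y).symm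
    · exact pi_mul_TT m ξ x
    · exact pi_mul_comm m x y) (by
    rintro a' (rfl | ⟨x, rfl⟩)
    · rw [hT, star_TT]; exact Or.inl rfl
    · rw [star_pi]; exact Or.inr ⟨_, rfl⟩) (s₀ := (1 - pi m y0) * T)
    (mul_mem (sub_mem (one_mem _) (StarAlgebra.subset_adjoin ℂ _ (Or.inr ⟨_, rfl⟩)))
      (StarAlgebra.subset_adjoin ℂ _ (Or.inl rfl))) hne
  let p : Y → B := fun y => ⟨pi m y, hSB (Or.inr ⟨y, rfl⟩)⟩
  let t : B := ⟨T, hSB (Or.inl rfl)⟩
  have hp_add : ∀ x y, p (x + y) = p x * p y := fun x y => Subtype.ext (pi_add m x y)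
  have hp_zero : p 0 = 1 := Subtype.ext (pi_zero m)
  have hp_norm : ∀ y, ‖ω (p y)‖ ≤ 1 := by
    intro y
    refine (hω (p y)).trans ?_
    refine ContinuousLinearMap.opNorm_le_bound _ zero_le_one fun v => ?_
    change ‖pi m y v‖ ≤ _
    rw [norm_pi, one_mul]
  have hp_norm1 : ∀ y, ‖ω (p y)‖ = 1 := by
    intro y
    refine le_antisymm (hp_norm y) ?_
    have h1 : ω (p y) * ω (p (-y)) = 1 := by
      rw [← map_mul, ← hp_add, add_neg_cancel, hp_zero, map_one]
    have h2 : ‖ω (p y)‖ * ‖ω (p (-y))‖ = 1 := by rw [← norm_mul, h1, norm_one]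
    have h3 := hp_norm (-y)
    nlinarith [norm_nonneg (ω (p y)), norm_nonneg (ω (p (-y)))]
  let χ : Y →+ Additive Circle := AddMonoidHom.mk'
    (fun y => Additive.ofMul (⟨ω (p y), mem_sphere_zero_iff_norm.2 (hp_norm1 y)⟩ : Circle)) (by
      intro x y
      apply congrArg Additive.ofMul
      apply Subtype.ext
      change ω (p (x + y)) = ω (p x) * ω (p y)
      rw [hp_add, map_mul])
  have hev : ∀ y, ev χ y = ω (p y) := fun y => rfl
  have hprod : ω ⟨(1 - pi m y0) * T, hmem⟩ = (1 - ev χ y0) * ω t := by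
    have h1 : (⟨(1 - pi m y0) * T, hmem⟩ : B) = (1 - p y0) * t := Subtype.ext rfl
    rw [h1, map_mul, map_sub, map_one, hev]
  rw [hprod] at hω0
  refine ⟨χ, fun h => ?_, ‖ω t‖, norm_pos_iff.2 (right_ne_zero_of_mul hω0), ?_⟩
  · rw [h, sub_self, zero_mul] at hω0
    exact hω0 rfl
  intro y ε hε
  have hε0 : 0 ≤ ε := (abs_nonneg _).trans (hε 0)
  have h1 : ‖ω t‖ * ‖ev χ y - 1‖ = ‖ω (p y * t - t)‖ := by
    rw [map_sub, map_mul, hev, ← norm_mul]
    congr 1
    ring
  rw [h1]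
  refine (hω _).trans ?_
  change ‖pi m y * T - T‖ ≤ ε
  refine (norm_pi_TT m ξ y).trans ?_
  have h2 : ‖ξ‖ ≤ 1 := by
    rw [hξ, norm_coe]
    refine PH.norm_le m ξ₀ zero_le_one fun x => ?_
    change ‖(f x : ℂ)‖ ≤ 1
    rw [Complex.norm_real, Real.norm_of_nonneg (hf0 x)]
    exact hf1 x
  have h3 : ‖pi m y ξ - ξ‖ ≤ ε := by
    rw [hξ, pi_coe, ← coe_sub, norm_coe]
    refine PH.norm_le m _ hε0 fun x => ?_
    change ‖(f (x + y) : ℂ) - (f x : ℂ)‖ ≤ ε
    rw [← Complex.ofReal_sub, Complex.norm_real]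
    exact hε x
  calc ‖ξ‖ * ‖pi m y ξ - ξ‖ ≤ 1 * ε := mul_le_mul h2 h3 (norm_nonneg _) zero_le_one
    _ = ε := one_mul ε

end Pool.Agent.Lib.MP_335999_gt
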