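import Pool.Agent.Lib.MP_335999_gt.Duality

/-!
# The Hilbert space of an invariant mean
-/

open Filter Topology UniformSpace Completion InnerProductSpace

namespace Pool.Agent.Lib.MP_335999_gt

variable {Y : Type*} [AddCommGroup Y]

/-- bounded functions as a submodule -/
def bddSub (Y : Type*) : Submodule ℂ (Y → ℂ) where
  carrier := {f | Bdd f}
  add_mem' := fun hf hg => Bdd.add hf hg
  zero_mem' := Bdd.const 0
  smul_mem' := fun c _ hf => (Bdd.const c).mul hf

/-- the pre-Hilbert space of bounded functions -/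
def PH (_m : Mean Y) : Type _ := bddSub Y

variable (m : Mean Y)

instance : AddCommGroup (PH m) := inferInstanceAs (AddCommGroup (bddSub Y))
noncomputable instance : Module ℂ (PH m) := inferInstanceAs (Module ℂ (bddSub Y))

/-- a bounded function as an element of the pre-Hilbert space -/
def PH.mk (f : Y → ℂ) (hf : Bdd f) : PH m := (⟨f, hf⟩ : bddSub Y)

/-- the underlying function -/
def PH.fn (f : PH m) : Y → ℂ := (show bddSub Y from f).1

theorem PH.bdd (f : PH m) : Bdd (PH.fn m f) := (show bddSub Y from f).2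

theorem PH.ext {f g : PH m} (h : ∀ x, PH.fn m f x = PH.fn m g x) : f = g :=
  Subtype.ext (funext h)

@[simp] theorem PH.fn_mk (f : Y → ℂ) (hf : Bdd f) : PH.fn m (PH.mk m f hf) = f := rfl

@[simp] theorem PH.fn_add (f g : PH m) (x : Y) :
    PH.fn m (f + g) x = PH.fn m f x + PH.fn m g x := rfl

@[simp] theorem PH.fn_sub (f g : PH m) (x : Y) :
    PH.fn m (f - g) x = PH.fn m f x - PH.fn m g x := rfl

@[simp] theorem PH.fn_smul (c : ℂ) (f : PH m) (x : Y) :
    PH.fn m (c • f) x = c * PH.fn m f x := rfl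

/-- the semi-inner product given by the mean -/
@[instance_reducible]
noncomputable def preCore : PreInnerProductSpace.Core ℂ (PH m) where
  inner f g := m.M fun x => starRingEnd ℂ (PH.fn m f x) * PH.fn m g x
  conj_inner_symm f g := by
    rw [← m.conj _ ((PH.bdd m g).conj.mul (PH.bdd m f))]
    congr 1
    ext x
    simp [mul_comm]
  re_inner_nonneg f := by
    refine m.nonneg _ ((PH.bdd m f).conj.mul (PH.bdd m f)) fun x => ?_
    rw [mul_comm, Complex.mul_conj, Complex.ofReal_re]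
    exact Complex.normSq_nonneg _
  add_left f g h := by
    rw [← m.add _ _ ((PH.bdd m f).conj.mul (PH.bdd m h)) ((PH.bdd m g).conj.mul (PH.bdd m h))]
    congr 1
    ext x
    simp [add_mul]
  smul_left f g c := by
    rw [← m.smul _ _ ((PH.bdd m f).conj.mul (PH.bdd m g))]
    congr 1
    ext x
    simp [mul_assoc]

noncomputable instance : SeminormedAddCommGroup (PH m) :=
  InnerProductSpace.Core.toSeminormedAddCommGroup (c := preCore m)

noncomputable instance : InnerProductSpace ℂ (PH m) := InnerProductSpace.ofCore (preCore m)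

theorem PH.inner_def (f g : PH m) :
    ⟪f, g⟫_ℂ = m.M fun x => starRingEnd ℂ (PH.fn m f x) * PH.fn m g x := rfl

/-- translations -/
noncomputable def shiftLin (y : Y) : PH m →ₗ[ℂ] PH m where
  toFun f := PH.mk m (fun x => PH.fn m f (x + y)) ((PH.bdd m f).comp _)
  map_add' _ _ := rfl
  map_smul' _ _ := rfl

theorem shiftLin_inner (y : Y) (f g : PH m) :
    ⟪shiftLin m y f, shiftLin m y g⟫_ℂ = ⟪f, g⟫_ℂ := by
  rw [PH.inner_def, PH.inner_def]
  exact m.shift (fun x => starRingEnd ℂ (PH.fn m f x) * PH.fn m g x) y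
    ((PH.bdd m f).conj.mul (PH.bdd m g))

theorem norm_shiftLin (y : Y) (f : PH m) : ‖shiftLin m y f‖ = ‖f‖ := by
  rw [@norm_eq_sqrt_re_inner ℂ, @norm_eq_sqrt_re_inner ℂ, shiftLin_inner]

/-- translations as continuous linear maps -/
noncomputable def shiftL (y : Y) : PH m →L[ℂ] PH m :=
  (shiftLin m y).mkContinuous 1 fun f => by rw [norm_shiftLin, one_mul]

theorem shiftL_apply (y : Y) (f : PH m) : shiftL m y f = shiftLin m y f := rfl

/-- the Hilbert space -/
abbrev HS : Type _ := Completion (PH m)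

/-- the translation operators -/
noncomputable def pi (y : Y) : HS m →L[ℂ] HS m := (shiftL m y).completion

theorem pi_coe (y : Y) (f : PH m) : pi m y (f : HS m) = ((shiftLin m y f : PH m) : HS m) := by
  rw [pi, ContinuousLinearMap.completion_apply_coe, shiftL_apply]

theorem pi_inner (y : Y) (v w : HS m) : ⟪pi m y v, pi m y w⟫_ℂ = ⟪v, w⟫_ℂ := by
  induction v, w using induction_on₂ with
  | hp => apply isClosed_eq <;> fun_prop
  | ih v w => rw [pi_coe, pi_coe, inner_coe, inner_coe, shiftLin_inner]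

theorem pi_add (x y : Y) : pi m (x + y) = pi m x * pi m y := by
  ext v
  induction v using induction_on with
  | hp => apply isClosed_eq <;> fun_prop
  | ih v =>
    rw [mul_apply_eq_comp, pi_coe, pi_coe, pi_coe]
    congr 1
    apply PH.ext
    intro z
    change PH.fn m v (z + (x + y)) = PH.fn m v (z + x + y)
    rw [add_assoc]

theorem pi_zero : pi m (0 : Y) = 1 := by
  ext v
  induction v using induction_on with
  | hp => apply isClosed_eq <;> fun_prop
  | ih v =>
    rw [one_apply_eq_self, pi_coe]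
    congr 1
    apply PH.ext
    intro z
    change PH.fn m v (z + 0) = PH.fn m v z
    rw [add_zero]

theorem pi_neg_mul (y : Y) : pi m (-y) * pi m y = 1 := by
  rw [← pi_add, neg_add_cancel, pi_zero]

theorem pi_mul_neg (y : Y) : pi m y * pi m (-y) = 1 := by
  rw [← pi_add, add_neg_cancel, pi_zero]

theorem pi_adj (y : Y) (v w : HS m) : ⟪pi m y v, w⟫_ℂ = ⟪v, pi m (-y) w⟫_ℂ := by
  have h : w = pi m y (pi m (-y) w) := by
    rw [← mul_apply_eq_comp, pi_mul_neg, one_apply_eq_self]
  conv_lhs => rw [h]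
  rw [pi_inner]

theorem norm_pi (y : Y) (v : HS m) : ‖pi m y v‖ = ‖v‖ := by
  rw [@norm_eq_sqrt_re_inner ℂ, @norm_eq_sqrt_re_inner ℂ, pi_inner]

/-- The integrand of the averaged rank one operators -/
noncomputable def igd (ξ v w : HS m) (x : Y) : ℂ := ⟪v, pi m x ξ⟫_ℂ * ⟪pi m x ξ, w⟫_ℂ

theorem igd_norm (ξ v w : HS m) (x : Y) : ‖igd m ξ v w x‖ ≤ ‖ξ‖ ^ 2 * ‖v‖ * ‖w‖ := by
  rw [igd, norm_mul]
  have h1 := norm_inner_le_norm (𝕜 := ℂ) v (pi m x ξ)
  have h2 := norm_inner_le_norm (𝕜 := ℂ) (pi m x ξ) w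
  rw [norm_pi] at h1 h2
  calc ‖⟪v, pi m x ξ⟫_ℂ‖ * ‖⟪pi m x ξ, w⟫_ℂ‖ ≤ (‖v‖ * ‖ξ‖) * (‖ξ‖ * ‖w‖) :=
        mul_le_mul h1 h2 (norm_nonneg _) (by positivity)
    _ = ‖ξ‖ ^ 2 * ‖v‖ * ‖w‖ := by ring

theorem igd_bdd (ξ v w : HS m) : Bdd (igd m ξ v w) := ⟨_, igd_norm m ξ v w⟩

/-- the sesquilinear form -/
noncomputable def formLin (ξ : HS m) : HS m →ₗ⋆[ℂ] HS m →ₗ[ℂ] ℂ :=
  LinearMap.mk₂'ₛₗ (starRingEnd ℂ) (RingHom.id ℂ) (fun v w => m.M (igd m ξ v w))
    (by
      intro v v' w
      rw [← m.add _ _ (igd_bdd m ξ v w) (igd_bdd m ξ v' w)]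
      congr 1
      ext x
      simp [igd, inner_add_left, add_mul])
    (by
      intro c v w
      rw [smul_eq_mul, ← m.smul _ _ (igd_bdd m ξ v w)]
      congr 1
      ext x
      simp [igd, inner_smul_left, mul_assoc])
    (by
      intro v w w'
      rw [← m.add _ _ (igd_bdd m ξ v w) (igd_bdd m ξ v w')]
      congr 1
      ext x
      simp [igd, inner_add_right, mul_add])
    (by
      intro c v w
      rw [RingHom.id_apply, smul_eq_mul, ← m.smul _ _ (igd_bdd m ξ v w)]
      congr 1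
      ext x
      simp only [igd, inner_smul_right]
      ring)

/-- the bounded sesquilinear form -/
noncomputable def form (ξ : HS m) : HS m →L⋆[ℂ] HS m →L[ℂ] ℂ :=
  (formLin m ξ).mkContinuous₂ (‖ξ‖ ^ 2) fun v w => m.norm_le _ _ (igd_norm m ξ v w)

/-- the averaged operator -/
noncomputable def TT (ξ : HS m) : HS m →L[ℂ] HS m := continuousLinearMapOfBilin (form m ξ)

theorem TT_inner (ξ v w : HS m) : ⟪TT m ξ v, w⟫_ℂ = m.M (igd m ξ v w) := by
  rw [TT, continuousLinearMapOfBilin_apply]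
  rfl

end Pool.Agent.Lib.MP_335999_gt
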