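import Pool.Agent.Lib.MP_335999_gt.GNS

/-!
# Characters from commuting families of operators
-/

open Filter Topology UniformSpace Completion InnerProductSpace WeakDual

namespace Pool.Agent.Lib.MP_335999_gt

/-- Characters of commutative star-subalgebras of a C-star-algebra do not all vanish on a nonzero
element. -/
theorem exists_character {A : Type*} [CStarAlgebra A] {S : Set A}
    (hcomm : ∀ a ∈ S, ∀ b ∈ S, a * b = b * a) (hstar : ∀ a ∈ S, star a ∈ S) {s₀ : A}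
    (hs₀ : s₀ ∈ StarAlgebra.adjoin ℂ S) (hne : s₀ ≠ 0) :
    ∃ (B : StarSubalgebra ℂ A) (_ : S ⊆ B) (ω : B →⋆ₐ[ℂ] ℂ),
      (∀ b : B, ‖ω b‖ ≤ ‖(b : A)‖) ∧ ∃ h : s₀ ∈ B, ω ⟨s₀, h⟩ ≠ 0 := by
  have hc : ∀ x y : StarAlgebra.adjoin ℂ S, x * y = y * x :=
    (StarAlgebra.isMulCommutative_adjoin ℂ hcomm
      (fun a ha b hb => hcomm a ha (star b) (hstar b hb))).is_comm.comm
  let B := (StarAlgebra.adjoin ℂ S).topologicalClosure
  have hB : IsClosed (B : Set A) := (StarAlgebra.adjoin ℂ S).isClosed_topologicalClosure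
  have hcB : ∀ x y : B, x * y = y * x :=
    (StarSubalgebra.commRingTopologicalClosure (StarAlgebra.adjoin ℂ S) hc).mul_comm
  let _ : CommCStarAlgebra B := { (inferInstance : CStarAlgebra B) with mul_comm := hcB }
  have hsB : s₀ ∈ B := StarSubalgebra.le_topologicalClosure _ hs₀
  have hex : ∃ ω : characterSpace ℂ B, ω ⟨s₀, hsB⟩ ≠ 0 := by
    by_contra hcon
    push Not at hcon
    have h1 : gelfandTransform ℂ B ⟨s₀, hsB⟩ = 0 := by
      ext ω
      exact hcon ω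
    have h2 : (⟨s₀, hsB⟩ : B) = 0 := by
      apply (gelfandTransform_isometry (A := B)).injective
      rw [h1, map_zero]
    exact hne (congrArg Subtype.val h2)
  obtain ⟨ω, hω⟩ := hex
  refine ⟨B, (StarAlgebra.subset_adjoin ℂ S).trans (StarSubalgebra.le_topologicalClosure _),
    { toFun := ω
      map_one' := map_one ω
      map_mul' := map_mul ω
      map_zero' := map_zero ω
      map_add' := map_add ω
      commutes' := fun r => AlgHomClass.commutes ω r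
      map_star' := fun b => map_star ω b }, ?_, hsB, hω⟩
  intro b
  have h1 : ‖gelfandTransform ℂ B b ω‖ ≤ ‖gelfandTransform ℂ B b‖ :=
    ContinuousMap.norm_coe_le_norm _ _
  have h2 : ‖gelfandTransform ℂ B b‖ = ‖b‖ :=
    AddMonoidHomClass.isometry_iff_norm _ |>.1 (gelfandTransform_isometry (A := B)) b
  rw [h2] at h1
  exact h1

variable {Y : Type*} [AddCommGroup Y] (m : Mean Y)

theorem TT_selfadj (ξ v w : HS m) : ⟪TT m ξ v, w⟫_ℂ = ⟪v, TT m ξ w⟫_ℂ := by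
  rw [← inner_conj_symm v, TT_inner, TT_inner, ← m.conj _ (igd_bdd m ξ w v)]
  congr 1
  ext x
  simp only [igd, map_mul, inner_conj_symm]
  ring

theorem pi_mul_TT (ξ : HS m) (y : Y) : pi m y * TT m ξ = TT m ξ * pi m y := by
  ext v
  refine ext_inner_right ℂ fun w => ?_
  rw [mul_apply_eq_comp, mul_apply_eq_comp, pi_adj, TT_inner, TT_inner,
    ← m.shift (igd m ξ (pi m y v) w) y (igd_bdd m ξ _ _)]
  congr 1
  ext x
  have h1 : pi m (x + y) ξ = pi m y (pi m x ξ) := by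
    rw [add_comm, pi_add, mul_apply_eq_comp]
  simp only [igd]
  rw [h1, pi_inner, pi_adj m y]

theorem star_pi (y : Y) : star (pi m y) = pi m (-y) := by
  symm
  rw [ContinuousLinearMap.star_eq_adjoint, ContinuousLinearMap.eq_adjoint_iff]
  intro v w
  rw [pi_adj, neg_neg]

theorem star_TT (ξ : HS m) : star (TT m ξ) = TT m ξ := by
  symm
  rw [ContinuousLinearMap.star_eq_adjoint, ContinuousLinearMap.eq_adjoint_iff]
  intro v w
  exact TT_selfadj m ξ v w

theorem pi_mul_comm (x y : Y) : pi m x * pi m y = pi m y * pi m x := by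
  rw [← pi_add, ← pi_add, add_comm]

/-- continuity estimate -/
theorem norm_pi_TT (ξ : HS m) (y : Y) :
    ‖pi m y * TT m ξ - TT m ξ‖ ≤ ‖ξ‖ * ‖pi m y ξ - ξ‖ := by
  refine ContinuousLinearMap.opNorm_le_bound _ (by positivity) fun v => ?_
  set u := (pi m y * TT m ξ - TT m ξ) v with hu
  have key : ∀ w, ‖⟪u, w⟫_ℂ‖ ≤ ‖ξ‖ * ‖pi m y ξ - ξ‖ * ‖v‖ * ‖w‖ := by
    intro w
    have h1 : ⟪u, w⟫_ℂ = m.M (fun x => ⟪v, pi m x ξ⟫_ℂ * ⟪pi m x (pi m y ξ - ξ), w⟫_ℂ) := by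
      rw [hu, sub_apply, inner_sub_left, mul_apply_eq_comp, pi_adj,
        TT_inner, TT_inner]
      have h2 : m.M (igd m ξ v (pi m (-y) w)) = m.M (fun x =>
          ⟪v, pi m x ξ⟫_ℂ * ⟪pi m x (pi m y ξ - ξ), w⟫_ℂ + igd m ξ v w x) := by
        congr 1
        ext x
        simp only [igd]
        rw [map_sub, inner_sub_left]
        have h3 : ⟪pi m x ξ, pi m (-y) w⟫_ℂ = ⟪pi m x (pi m y ξ), w⟫_ℂ := by
          rw [← pi_adj, ← mul_apply_eq_comp, ← mul_apply_eq_comp, pi_mul_comm]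
        rw [h3]
        ring
      have hb : Bdd (fun x => ⟪v, pi m x ξ⟫_ℂ * ⟪pi m x (pi m y ξ - ξ), w⟫_ℂ) := by
        refine ⟨‖v‖ * ‖ξ‖ * (‖pi m y ξ - ξ‖ * ‖w‖), fun x => ?_⟩
        rw [norm_mul]
        have h4 := norm_inner_le_norm (𝕜 := ℂ) v (pi m x ξ)
        have h5 := norm_inner_le_norm (𝕜 := ℂ) (pi m x (pi m y ξ - ξ)) w
        rw [norm_pi] at h4 h5
        exact mul_le_mul h4 h5 (norm_nonneg _) (by positivity)
      rw [h2, m.add _ _ hb (igd_bdd m ξ v w)]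
      ring
    rw [h1]
    refine m.norm_le _ _ fun x => ?_
    rw [norm_mul]
    have h4 := norm_inner_le_norm (𝕜 := ℂ) v (pi m x ξ)
    have h5 := norm_inner_le_norm (𝕜 := ℂ) (pi m x (pi m y ξ - ξ)) w
    rw [norm_pi] at h4 h5
    calc _ ≤ (‖v‖ * ‖ξ‖) * (‖pi m y ξ - ξ‖ * ‖w‖) :=
          mul_le_mul h4 h5 (norm_nonneg _) (by positivity)
      _ = _ := by ring
  have h1 := key u
  rw [inner_self_eq_norm_sq_to_K] at h1
  have h2 : ‖((‖u‖ : ℂ)) ^ 2‖ = ‖u‖ * ‖u‖ := by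
    rw [norm_pow, Complex.norm_real, norm_norm, sq]
  have h3 : ‖u‖ * ‖u‖ ≤ ‖ξ‖ * ‖pi m y ξ - ξ‖ * ‖v‖ * ‖u‖ := by
    rw [← h2]
    exact h1
  rcases (norm_nonneg u).eq_or_lt with h0 | h0
  · rw [← h0]
    positivity
  · exact le_of_mul_le_mul_right h3 h0

end Pool.Agent.Lib.MP_335999_gt
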