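import Pool.Agent.Lib.MP_335999_gt.Defs

/-!
# A two-step nilpotent locally minimal group which is countably tight but not sequential
-/

open Filter Topology Set
open scoped commutatorElement

namespace Pool.Agent.Lib.MP_335999_gt

/-- functions on `ℕ` which vanish along a fixed nonprincipal ultrafilter -/
def KSub : AddSubgroup (ℕ → ZMod 2) where
  carrier := {k | ∀ᶠ n in (hyperfilter ℕ : Filter ℕ), k n = 0}
  zero_mem' := Eventually.of_forall fun _ => rfl
  add_mem' := by
    intro a b ha hb
    filter_upwards [ha, hb] with n h1 h2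
    simp [h1, h2]
  neg_mem' := by
    intro a ha
    filter_upwards [ha] with n h1
    simp [h1]

/-- the pairing -/
def pair (k : ℕ → ZMod 2) (g : ℕ →₀ ZMod 2) : ZMod 2 := g.sum fun n a => a * k n

theorem pair_zero_left (g : ℕ →₀ ZMod 2) : pair 0 g = 0 := by simp [pair]

theorem pair_zero_right (k : ℕ → ZMod 2) : pair k 0 = 0 := by simp [pair]

theorem pair_add_left (k k' : ℕ → ZMod 2) (g : ℕ →₀ ZMod 2) :
    pair (k + k') g = pair k g + pair k' g := by
  simp [pair, mul_add, Finsupp.sum_add]

theorem pair_add_right (k : ℕ → ZMod 2) (g g' : ℕ →₀ ZMod 2) :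
    pair k (g + g') = pair k g + pair k g' := by
  unfold pair
  rw [Finsupp.sum_add_index'] <;> intros <;> ring

theorem pair_neg_left (k : ℕ → ZMod 2) (g : ℕ →₀ ZMod 2) : pair (-k) g = -pair k g := by
  have := pair_add_left k (-k) g
  rw [add_neg_cancel, pair_zero_left] at this
  exact (neg_eq_of_add_eq_zero_right this.symm).symm

theorem pair_neg_right (k : ℕ → ZMod 2) (g : ℕ →₀ ZMod 2) : pair k (-g) = -pair k g := by
  have := pair_add_right k g (-g)
  rw [add_neg_cancel, pair_zero_right] at this
  exact (neg_eq_of_add_eq_zero_right this.symm).symm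

theorem pair_single (k : ℕ → ZMod 2) (n : ℕ) : pair k (Finsupp.single n 1) = k n := by
  simp [pair]

/-- The group. -/
@[ext] structure Heis where
  z : ZMod 2
  k : KSub
  g : ℕ →₀ ZMod 2

namespace Heis

noncomputable instance : Mul Heis := ⟨fun a b => ⟨a.z + b.z + pair b.k a.g, a.k + b.k, a.g + b.g⟩⟩
instance : One Heis := ⟨⟨0, 0, 0⟩⟩
noncomputable instance : Inv Heis := ⟨fun a => ⟨-a.z + pair a.k a.g, -a.k, -a.g⟩⟩

@[simp] theorem mul_z (a b : Heis) : (a * b).z = a.z + b.z + pair b.k a.g := rfl
@[simp] theorem mul_k (a b : Heis) : (a * b).k = a.k + b.k := rfl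
@[simp] theorem mul_g (a b : Heis) : (a * b).g = a.g + b.g := rfl
@[simp] theorem one_z : (1 : Heis).z = 0 := rfl
@[simp] theorem one_k : (1 : Heis).k = 0 := rfl
@[simp] theorem one_g : (1 : Heis).g = 0 := rfl
@[simp] theorem inv_z (a : Heis) : (a⁻¹).z = -a.z + pair a.k a.g := rfl
@[simp] theorem inv_k (a : Heis) : (a⁻¹).k = -a.k := rfl
@[simp] theorem inv_g (a : Heis) : (a⁻¹).g = -a.g := rfl

noncomputable instance : Group Heis where
  mul_assoc a b c := by
    ext1
    · simp only [mul_z, mul_k, mul_g, AddSubgroup.coe_add, pair_add_left, pair_add_right]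
      ring
    · simp [add_assoc]
    · simp [add_assoc]
  one_mul a := by
    ext1 <;> simp [pair_zero_right]
  mul_one a := by
    ext1
    · simp only [mul_z, one_z, one_k, ZeroMemClass.coe_zero, pair_zero_left, add_zero]
    · simp
    · simp
  inv_mul_cancel a := by
    ext1
    · simp only [mul_z, inv_z, inv_g, pair_neg_right, one_z]
      ring
    · simp
    · simp

theorem comm_formula (a b : Heis) :
    ⁅a, b⁆ = ⟨pair b.k a.g - pair a.k b.g, 0, 0⟩ := by
  rw [commutatorElement_def]
  ext1
  · simp only [mul_z, mul_k, mul_g, inv_z, inv_k, inv_g, pair_add_left, pair_add_right,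
      AddSubgroup.coe_neg, pair_neg_left, pair_neg_right]
    ring
  · simp
  · simp

theorem comm_comm (a b c : Heis) : ⁅⁅a, b⁆, c⁆ = 1 := by
  rw [comm_formula a b, comm_formula]
  ext1
  · simp only [pair_zero_right, one_z, ZeroMemClass.coe_zero, pair_zero_left, sub_zero]
  · rfl
  · rfl

/-- The group topology: `z`, `k` and all `pair k g` are locally constant. -/
def toProd (a : Heis) : ZMod 2 × KSub × (KSub → ZMod 2) := (a.z, a.k, fun k => pair k a.g)

/-- The topology. -/
instance instTop : TopologicalSpace Heis :=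
  TopologicalSpace.induced toProd
    (@instTopologicalSpaceProd (ZMod 2) (KSub × (KSub → ZMod 2)) ⊥
      (@instTopologicalSpaceProd KSub (KSub → ZMod 2) ⊥ (@Pi.topologicalSpace _ _ fun _ => ⊥)))

theorem ev_z (a : Heis) : ∀ᶠ b in 𝓝 a, b.z = a.z := by
  let : TopologicalSpace (ZMod 2) := ⊥
  let : TopologicalSpace KSub := ⊥
  have : DiscreteTopology (ZMod 2) := ⟨rfl⟩
  have : DiscreteTopology KSub := ⟨rfl⟩
  have h : Continuous toProd := continuous_induced_dom
  exact ((IsLocallyConstant.iff_continuous _).2 h.fst).eventually_eq a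

theorem ev_k (a : Heis) : ∀ᶠ b in 𝓝 a, b.k = a.k := by
  let : TopologicalSpace (ZMod 2) := ⊥
  let : TopologicalSpace KSub := ⊥
  have : DiscreteTopology (ZMod 2) := ⟨rfl⟩
  have : DiscreteTopology KSub := ⟨rfl⟩
  have h : Continuous toProd := continuous_induced_dom
  exact ((IsLocallyConstant.iff_continuous _).2 h.snd.fst).eventually_eq a

theorem ev_pair (a : Heis) (k : KSub) : ∀ᶠ b in 𝓝 a, pair k b.g = pair k a.g := by
  let : TopologicalSpace (ZMod 2) := ⊥
  let : TopologicalSpace KSub := ⊥
  have : DiscreteTopology (ZMod 2) := ⟨rfl⟩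
  have : DiscreteTopology KSub := ⟨rfl⟩
  have h : Continuous toProd := continuous_induced_dom
  exact ((IsLocallyConstant.iff_continuous _).2
    ((continuous_apply k).comp h.snd.snd)).eventually_eq a

theorem continuous_of {X : Type*} [TopologicalSpace X] {f : X → Heis}
    (h1 : ∀ x, ∀ᶠ y in 𝓝 x, (f y).z = (f x).z) (h2 : ∀ x, ∀ᶠ y in 𝓝 x, (f y).k = (f x).k)
    (h3 : ∀ k : KSub, ∀ x, ∀ᶠ y in 𝓝 x, pair k (f y).g = pair k (f x).g) : Continuous f := by
  let : TopologicalSpace (ZMod 2) := ⊥
  let : TopologicalSpace KSub := ⊥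
  have : DiscreteTopology (ZMod 2) := ⟨rfl⟩
  have : DiscreteTopology KSub := ⟨rfl⟩
  refine continuous_induced_rng.2 ?_
  refine Continuous.prodMk ?_ (Continuous.prodMk ?_ (continuous_pi fun k => ?_))
  · exact (IsLocallyConstant.iff_continuous _).1 ((IsLocallyConstant.iff_eventually_eq _).2 h1)
  · exact (IsLocallyConstant.iff_continuous _).1 ((IsLocallyConstant.iff_eventually_eq _).2 h2)
  · exact (IsLocallyConstant.iff_continuous _).1 ((IsLocallyConstant.iff_eventually_eq _).2 (h3 k))

instance : IsTopologicalGroup Heis where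
  continuous_mul := by
    have hf : ∀ x : Heis × Heis, Tendsto Prod.fst (𝓝 x) (𝓝 x.1) := fun x =>
      continuous_fst.continuousAt
    have hs : ∀ x : Heis × Heis, Tendsto Prod.snd (𝓝 x) (𝓝 x.2) := fun x =>
      continuous_snd.continuousAt
    refine continuous_of ?_ ?_ ?_
    · intro x
      filter_upwards [(hf x).eventually (ev_z x.1), (hs x).eventually (ev_z x.2),
        (hs x).eventually (ev_k x.2), (hf x).eventually (ev_pair x.1 x.2.k)] with y h1 h2 h3 h4
      rw [mul_z, mul_z, h1, h2, h3, h4]
    · intro x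
      filter_upwards [(hf x).eventually (ev_k x.1), (hs x).eventually (ev_k x.2)] with y h1 h2
      rw [mul_k, mul_k, h1, h2]
    · intro k x
      filter_upwards [(hf x).eventually (ev_pair x.1 k), (hs x).eventually (ev_pair x.2 k)]
        with y h1 h2
      rw [mul_g, mul_g, pair_add_right, pair_add_right, h1, h2]
  continuous_inv := by
    refine continuous_of ?_ ?_ ?_
    · intro x
      filter_upwards [ev_z x, ev_k x, ev_pair x x.k] with y h1 h2 h3
      rw [inv_z, inv_z, h1, h2, h3]
    · intro x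
      filter_upwards [ev_k x] with y h1
      rw [inv_k, inv_k, h1]
    · intro k x
      filter_upwards [ev_pair x k] with y h1
      rw [inv_g, inv_g, pair_neg_right, pair_neg_right, h1]

/-- delta functions belong to `KSub` -/
theorem single_mem (n : ℕ) : (Pi.single n 1 : ℕ → ZMod 2) ∈ KSub := by
  have : ({n}ᶜ : Set ℕ) ∈ (hyperfilter ℕ : Filter ℕ) :=
    (Set.finite_singleton n).compl_mem_hyperfilter
  filter_upwards [this] with m hm
  exact Pi.single_eq_of_ne hm _

theorem pair_delta (n : ℕ) (g : ℕ →₀ ZMod 2) : pair (Pi.single n 1) g = g n := by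
  unfold pair
  rw [Finsupp.sum, Finset.sum_eq_single n]
  · simp
  · intro b _ hb
    rw [Pi.single_eq_of_ne hb, mul_zero]
  · intro h
    simpa using h

theorem ev_g (a : Heis) (n : ℕ) : ∀ᶠ b in 𝓝 a, b.g n = a.g n := by
  filter_upwards [ev_pair a ⟨_, single_mem n⟩] with b hb
  simpa [pair_delta] using hb

instance : T2Space Heis := by
  refine IsTopologicalGroup.t2Space_of_one_sep ?_
  intro x hx
  by_contra hcon
  push Not at hcon
  apply hx
  have key : ∀ {p : Heis → Prop}, (∀ᶠ b in 𝓝 (1 : Heis), p b) → p x := fun h => hcon _ h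
  ext n
  · simpa using key (ev_z 1)
  · simpa using congrArg (fun k : KSub => (k : ℕ → ZMod 2) n) (key (ev_k 1))
  · simpa using key (ev_g 1 n)

/-- the open subgroup, as a set -/
def V : Set Heis := {a | a.z = 0 ∧ a.k = 0}

theorem V_mem : V ∈ 𝓝 (1 : Heis) := by
  filter_upwards [ev_z 1, ev_k 1] with a h1 h2
  exact ⟨h1, h2⟩

theorem locallyMinimal : LocallyMinimal Heis := by
  refine ⟨V, V_mem, ?_⟩
  intro σ hσ _ hle hV
  refine le_antisymm ?_ hle
  -- the identity map from `σ` to the original topology is continuous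
  have key : ∀ k : KSub, ∀ᶠ a in @nhds Heis σ 1, pair k a.g = 0 := by
    intro k
    have hc : @Continuous _ _ σ σ (fun a : Heis => (⟨0, k, 0⟩ : Heis) * a * (⟨0, k, 0⟩ : Heis)⁻¹) := by
      let := σ
      exact (continuous_const.mul continuous_id).mul continuous_const
    have h1 : @Filter.Tendsto _ _ (fun a : Heis => (⟨0, k, 0⟩ : Heis) * a * (⟨0, k, 0⟩ : Heis)⁻¹)
        (@nhds Heis σ 1) (@nhds Heis σ 1) := by
      have := (@Continuous.tendsto _ _ σ σ _ hc 1)
      simpa using this
    filter_upwards [h1 hV, hV] with a ha1 ha2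
    have h3 := ha1.1
    simp only [mul_z, inv_z, mul_g, pair_zero_right, inv_k, AddSubgroup.coe_neg,
      pair_neg_left, ha2.1] at h3
    simpa using h3
  have hz : ∀ᶠ a in @nhds Heis σ 1, a.z = 0 ∧ a.k = 0 := hV
  have hcont : @Continuous Heis Heis σ instTop id := by
    let := σ
    have tr : ∀ x : Heis, @Filter.Tendsto _ _ (fun y : Heis => x⁻¹ * y) (@nhds Heis σ x)
        (@nhds Heis σ 1) := by
      intro x
      have hc : @Continuous _ _ σ σ (fun y : Heis => x⁻¹ * y) :=
        continuous_const.mul continuous_id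
      have := (@Continuous.tendsto _ _ σ σ _ hc x)
      simpa using this
    refine @continuous_of Heis σ id ?_ ?_ ?_
    · intro x
      filter_upwards [(tr x).eventually hz, (tr x).eventually (key x.k)] with y h1 h2
      have h3 := h1.1
      have h4 := h1.2
      simp only [mul_k, inv_k] at h4
      have h5 : y.k = x.k := by
        have : y.k - x.k = 0 := by rw [← h4]; abel
        exact sub_eq_zero.1 this
      simp only [mul_z, inv_z, inv_g, pair_neg_right, h5] at h3
      show y.z = x.z
      have : y.z - x.z = 0 := by rw [← h3]; ring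
      exact sub_eq_zero.1 this
    · intro x
      filter_upwards [(tr x).eventually hz] with y h1
      have h4 := h1.2
      simp only [mul_k, inv_k] at h4
      have : y.k - x.k = 0 := by rw [← h4]; abel
      exact sub_eq_zero.1 this
    · intro k x
      filter_upwards [(tr x).eventually (key k)] with y h1
      simp only [mul_g, inv_g, pair_add_right, pair_neg_right] at h1
      show pair k y.g = pair k x.g
      have : pair k y.g - pair k x.g = 0 := by rw [← h1]; ring
      exact sub_eq_zero.1 this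
  exact continuous_id_iff_le.1 hcont

theorem V_countable : V.Countable := by
  have : V ⊆ Set.range (fun g : ℕ →₀ ZMod 2 => (⟨0, 0, g⟩ : Heis)) := by
    rintro a ⟨h1, h2⟩
    exact ⟨a.g, by ext1 <;> simp [h1, h2]⟩
  exact (Set.countable_range _).mono this

theorem countablyTight : CountablyTight Heis := by
  intro A x hx
  have hV : {y : Heis | x⁻¹ * y ∈ V} ∈ 𝓝 x := by
    have hc : Continuous (fun y : Heis => x⁻¹ * y) := continuous_const.mul continuous_id
    have := hc.tendsto x
    simp only [inv_mul_cancel] at this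
    exact this V_mem
  refine ⟨A ∩ {y : Heis | x⁻¹ * y ∈ V}, inter_subset_left, ?_, ?_⟩
  · have : {y : Heis | x⁻¹ * y ∈ V} ⊆ (fun y => x * y) '' V := by
      intro y hy
      exact ⟨x⁻¹ * y, hy, by simp⟩
    exact ((V_countable.image _).mono this).mono inter_subset_right
  · rw [mem_closure_iff_nhds] at hx ⊢
    intro U hU
    obtain ⟨y, hy1, hy2⟩ := hx (U ∩ {y : Heis | x⁻¹ * y ∈ V}) (inter_mem hU hV)
    exact ⟨y, hy1.1, hy2, hy1.2⟩

/-- the points `e n` -/
noncomputable def e (n : ℕ) : Heis := ⟨0, 0, Finsupp.single n 1⟩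

theorem e_inj : Function.Injective e := by
  intro m n h
  have := congrArg Heis.g h
  simpa [e] using (Finsupp.single_left_injective (one_ne_zero (α := ZMod 2))) this

theorem one_mem_closure : (1 : Heis) ∈ closure (range e) := by
  -- `e n` tends to `1` along the ultrafilter
  have : Tendsto e (hyperfilter ℕ : Filter ℕ) (𝓝 1) := by
    let : TopologicalSpace (ZMod 2) := ⊥
    let : TopologicalSpace KSub := ⊥
    have : DiscreteTopology (ZMod 2) := ⟨rfl⟩
    have : DiscreteTopology KSub := ⟨rfl⟩
    rw [nhds_induced, tendsto_comap_iff]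
    refine Tendsto.prodMk_nhds ?_ (Tendsto.prodMk_nhds ?_ (tendsto_pi_nhds.2 fun k => ?_))
    · exact tendsto_const_nhds
    · exact tendsto_const_nhds
    · rw [nhds_discrete]
      simp only [Heis.one_g, tendsto_pure]
      filter_upwards [k.2] with n hn
      simp [e, pair_single, hn, pair_zero_right]
  exact mem_closure_of_tendsto this (Eventually.of_forall fun n => mem_range_self n)

theorem seqClosed : IsSeqClosed (range e) := by
  intro x p hx hp
  choose n hn using hx
  by_contra hcon
  -- each value is taken finitely often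
  have hfin : ∀ m, ∀ᶠ i in atTop, n i ≠ m := by
    intro m
    have hne : p ≠ e m := fun h => hcon ⟨m, h.symm⟩
    have : {e m}ᶜ ∈ 𝓝 p := isOpen_compl_singleton.mem_nhds hne
    filter_upwards [hp this] with i hi
    intro h
    apply hi
    rw [mem_singleton_iff, ← hn i, h]
  -- construct a strictly increasing subsequence of values
  have hlarge : ∀ m, ∀ᶠ i in atTop, m < n i := by
    intro m
    have : ∀ᶠ i in atTop, ∀ j ∈ Finset.range (m + 1), n i ≠ j :=
      (Finset.eventually_all _).2 fun j _ => hfin j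
    filter_upwards [this] with i hi
    by_contra h
    push Not at h
    exact hi (n i) (Finset.mem_range.2 (Nat.lt_succ_of_le h)) rfl
  have htop : Tendsto n atTop atTop := tendsto_atTop.2 fun m => (hlarge m).mono fun i hi => hi.le
  obtain ⟨φ, hφ, hnφ⟩ := strictMono_subseq_of_tendsto_atTop htop
  -- split
  have hsplit : ∃ S : Set ℕ, S ∉ (hyperfilter ℕ : Filter ℕ) ∧
      (∃ᶠ j in atTop, n (φ j) ∈ S) ∧ (∃ᶠ j in atTop, n (φ j) ∉ S) := by
    set P : Set ℕ := {m | ∃ j, m = n (φ (2 * j))} with hP
    set Q : Set ℕ := {m | ∃ j, m = n (φ (2 * j + 1))} with hQ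
    have hdisj : Disjoint P Q := by
      rw [Set.disjoint_left]
      rintro m ⟨j, hj⟩ ⟨j', hj'⟩
      have := hnφ.injective (hj.symm.trans hj')
      omega
    have hP' : ∃ᶠ j in atTop, n (φ j) ∈ P :=
      Filter.frequently_atTop.2 fun a => ⟨2 * a, by omega, a, rfl⟩
    have hQ' : ∃ᶠ j in atTop, n (φ j) ∈ Q :=
      Filter.frequently_atTop.2 fun a => ⟨2 * a + 1, by omega, a, rfl⟩
    by_cases h : P ∈ (hyperfilter ℕ : Filter ℕ)
    · refine ⟨Q, ?_, hQ', hP'.mono fun j hj => disjoint_left.1 hdisj hj⟩
      intro hQm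
      have := inter_mem h hQm
      rw [hdisj.inter_eq] at this
      exact (hyperfilter ℕ).neBot.ne (empty_mem_iff_bot.1 this)
    · exact ⟨P, h, hP', hQ'.mono fun j hj => disjoint_right.1 hdisj hj⟩
  obtain ⟨S, hS, h1, h2⟩ := hsplit
  classical
  have hk : (fun m => if m ∈ S then 1 else 0 : ℕ → ZMod 2) ∈ KSub := by
    have : Sᶜ ∈ (hyperfilter ℕ : Filter ℕ) := Ultrafilter.compl_mem_iff_notMem.2 hS
    filter_upwards [this] with m hm
    exact if_neg hm
  have hconv : ∀ᶠ j in atTop, pair (fun m => if m ∈ S then 1 else 0 : ℕ → ZMod 2) (x (φ j)).g =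
      pair (fun m => if m ∈ S then 1 else 0 : ℕ → ZMod 2) p.g :=
    (hp.comp hφ.tendsto_atTop).eventually (ev_pair p ⟨_, hk⟩)
  have hval : ∀ j, pair (fun m => if m ∈ S then 1 else 0 : ℕ → ZMod 2) (x (φ j)).g =
      if n (φ j) ∈ S then 1 else 0 := by
    intro j
    rw [← hn (φ j)]
    simp [e, pair_single]
  obtain ⟨j1, hj1, hj1'⟩ := (h1.and_eventually hconv).exists
  obtain ⟨j2, hj2, hj2'⟩ := (h2.and_eventually hconv).exists
  rw [hval, if_pos hj1] at hj1'
  rw [hval, if_neg hj2] at hj2'
  exact one_ne_zero (hj1'.trans hj2'.symm)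

theorem not_sequential : ¬ SequentialSpace Heis := by
  intro h
  have h1 : IsClosed (range e) := seqClosed.isClosed
  have h2 := one_mem_closure
  rw [h1.closure_eq] at h2
  obtain ⟨n, hn⟩ := h2
  have := congrArg Heis.g hn
  simp [e] at this

end Heis

end Pool.Agent.Lib.MP_335999_gt
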