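import Pool.Agent.Lib.MP_335999_gt.TSeq

/-!
# Boundedness properties of minimal abelian groups
-/

open Filter Pointwise Set

namespace Pool.Agent.Lib.MP_335999_gt

variable {X : Type*} [AddCommGroup X]

/-- precompact group filters -/
def TB (N : Filter X) : Prop := ∀ U ∈ N, ∃ F : Set X, F.Finite ∧ ∀ x, ∃ f ∈ F, x - f ∈ U

/-- In a minimal group, for every neighbourhood `U` some multiple of the group is `U`-bounded. -/
theorem bounded_multiple {N : Filter X} (hN : GF N) (hsep : Sep N) (hmin : LM N univ)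
    {U : Set X} (hU : U ∈ N) :
    ∃ c : ℕ, 0 < c ∧ ∃ F : Set X, F.Finite ∧ ∀ x, ∃ f ∈ F, c • x - f ∈ U := by
  by_contra hcon
  push Not at hcon
  obtain ⟨U', hU', hsel⟩ := select hN 0 (inter_mem hU (hN.neg_mem hU))
  obtain ⟨x, S, hx, hS⟩ := exists_seq (X := X) (fun n S x => ∀ c : ℤ, |c| ≤ 2 ^ (n + 1) →
      ¬ (((0 : ℕ) : ℤ) ∣ c) → ∀ s ∈ S, ∀ y : X, c • x - s - 0 • y ∉ U') (by
    intro n S
    obtain ⟨x, hx⟩ := hsel ((Finset.Icc (-2 ^ (n + 1)) (2 ^ (n + 1))).filter (· ≠ 0)) S (by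
      rintro c hc ⟨F, hF, hFx⟩
      have hc0 : c ≠ 0 := (Finset.mem_filter.1 hc).2
      obtain ⟨x, hx⟩ := hcon c.natAbs (by omega) ((fun f => c.natAbs • f) '' F) (hF.image _)
      obtain ⟨f, hf, y, hy⟩ := hFx x
      apply hx (c.natAbs • f) ⟨f, hf, rfl⟩
      rw [zero_smul, sub_zero] at hy
      rw [← smul_sub, ← natCast_zsmul]
      rcases le_or_gt 0 c with h | h
      · rw [Int.natAbs_of_nonneg h]
        exact hy.1
      · have h2 : ((c.natAbs : ℕ) : ℤ) = -c := by omega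
        rw [h2, neg_smul]
        exact hy.2)
    refine ⟨x, fun c hc hc0 s hs y => hx c ?_ s hs y⟩
    rw [Finset.mem_filter, Finset.mem_Icc]
    refine ⟨abs_le.1 hc, ?_⟩
    rintro rfl
    exact hc0 (dvd_zero _))
  refine tseq hN hsep hmin (p := 0) (by norm_num) hU' hS hx ?_
  intro U hU
  refine ⟨1, ?_, ?_⟩
  · intro i hi V hV
    refine ⟨V, hV, fun z hz => ?_⟩
    have : i = 0 := by omega
    subst this
    simpa using hz
  · intro a _ ha
    have : a = 0 := by
      ext n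
      simpa using ha n
    rw [this, map_zero]
    exact hN.zero_mem hU

/-- the prime-to-`p` part of `n!` -/
def dfac (p n : ℕ) : ℕ := n.factorial / p ^ (n.factorial.factorization p)

theorem not_dvd_dfac {p : ℕ} (hp : p.Prime) (n : ℕ) : ¬ (p ∣ dfac p n) :=
  Nat.not_dvd_ordCompl hp (Nat.factorial_ne_zero n)

theorem dvd_dfac {p : ℕ} (hp : p.Prime) {c n : ℕ} (hc0 : 0 < c) (hc : ¬ p ∣ c) (hcn : c ≤ n) :
    c ∣ dfac p n := by
  have h1 : c ∣ n.factorial := Nat.dvd_factorial hc0 hcn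
  have h2 : p ^ (n.factorial.factorization p) * dfac p n = n.factorial :=
    Nat.ordProj_mul_ordCompl_eq_self _ _
  rw [← h2] at h1
  have h3 : Nat.Coprime c (p ^ (n.factorial.factorization p)) := by
    apply Nat.Coprime.pow_right
    exact ((Nat.Prime.coprime_iff_not_dvd hp).2 hc).symm
  exact h3.dvd_of_dvd_mul_left h1

/-- The property needed to see that the topology generated by a sequence is Hausdorff. -/
def Good (N : Filter X) (p : ℕ) : Prop :=
  ∀ x : ℕ → X, (∀ n, ∃ y : X, x n = dfac p n • y) → ∀ U ∈ N, ∃ e : ℕ,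
      (∀ i < e, ∀ U' ∈ N, ∃ U'' ∈ N, ∀ z : X, p ^ i • z ∈ U'' → z ∈ U') ∧
      ∀ a : ℕ →₀ ℤ, (∀ n, |a n| ≤ 2 ^ n) → (∀ n, (p : ℤ) ^ e ∣ a n) → Phi x a ∈ U

theorem stepK {N : Filter X} (hN : GF N) (hsep : Sep N) (hmin : LM N univ) {p : ℕ} (hp : p.Prime)
    (h2 : Good N p) {W : Set X} (hW : W ∈ N) :
    ∃ F : Set X, F.Finite ∧ ∀ x, ∃ f ∈ F, ∃ y : X, x - f - p • y ∈ W := by
  classical
  by_contra hcon
  have hU₃ : (⋂ u ∈ Finset.range p, {z : X | u • z ∈ W}) ∈ N :=
    (Filter.biInter_finset_mem _).2 fun u _ => hN.nsmul u hW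
  obtain ⟨U', hU', hsel⟩ := select hN p hU₃
  -- no syndetic set
  have hns : ∀ c : ℤ, ¬ ((p : ℤ) ∣ c) → ¬ ∃ F : Set X, F.Finite ∧ ∀ x, ∃ f ∈ F, ∃ y : X,
      c • (x - f) - p • y ∈ ⋂ u ∈ Finset.range p, {z : X | u • z ∈ W} := by
    rintro c hc ⟨F, hF, hFx⟩
    apply hcon
    refine ⟨F, hF, fun x => ?_⟩
    obtain ⟨f, hf, y, hy⟩ := hFx x
    have hcop : IsCoprime c (p : ℤ) := by
      rw [isCoprime_comm]
      exact (Prime.coprime_iff_not_dvd (Nat.prime_iff_prime_int.1 hp)).2 hc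
    obtain ⟨u, v, huv⟩ := hcop
    have hppos : (0 : ℤ) < p := by exact_mod_cast hp.pos
    have h1 : 0 ≤ u % p := Int.emod_nonneg _ hppos.ne'
    have h3 : u % p < p := Int.emod_lt_of_pos _ hppos
    obtain ⟨u', hu'⟩ := Int.eq_ofNat_of_zero_le h1
    have hu'p : u' < p := by
      have : (u' : ℤ) < p := by rw [← hu']; exact h3
      exact_mod_cast this
    have hmem : u' • (c • (x - f) - p • y) ∈ W := Set.mem_iInter₂.1 hy u' (Finset.mem_range.2 hu'p)
    refine ⟨f, hf, (v + u / p * c) • (x - f) + u' • y, ?_⟩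
    convert hmem using 1
    have h4 : (u' : ℤ) * c + p * (v + u / p * c) = 1 := by
      have h5 : (p : ℤ) * (u / p) + u % p = u := Int.mul_ediv_add_emod u p
      rw [← hu']
      have h6 : (u % p) = u - p * (u / p) := by omega
      rw [h6]
      linear_combination huv
    have h5 : x - f = ((u' : ℤ) * c + p * (v + u / p * c)) • (x - f) := by rw [h4, one_smul]
    have h6 : x - f - p • ((v + u / p * c) • (x - f) + u' • y) =
        ((u' : ℤ) * c + p * (v + u / p * c)) • (x - f) -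
          (p : ℤ) • ((v + u / p * c) • (x - f) + (u' : ℤ) • y) := by
      rw [← h5, natCast_zsmul, natCast_zsmul]
    rw [h6]
    have h7 : u' • (c • (x - f) - p • y) = (u' : ℤ) • (c • (x - f) - (p : ℤ) • y) := by
      rw [natCast_zsmul, natCast_zsmul]
    rw [h7]
    module
  obtain ⟨x, S, hx, hS⟩ := exists_seq (X := X) (fun n S x => (∃ y : X, x = dfac p n • y) ∧
      ∀ c : ℤ, |c| ≤ 2 ^ (n + 1) → ¬ ((p : ℤ) ∣ c) → ∀ s ∈ S, ∀ y : X,
        c • x - s - p • y ∉ U') (by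
    intro n S
    obtain ⟨x', hx'⟩ := hsel (((Finset.Icc (-2 ^ (n + 1)) (2 ^ (n + 1))).filter
      (fun c : ℤ => ¬ ((p : ℤ) ∣ c))).image (fun c => c * dfac p n)) S (by
      intro c hc
      apply hns
      obtain ⟨c', hc', rfl⟩ := Finset.mem_image.1 hc
      intro h
      rcases (Nat.prime_iff_prime_int.1 hp).dvd_or_dvd h with h3 | h3
      · exact (Finset.mem_filter.1 hc').2 h3
      · exact not_dvd_dfac hp n (by exact_mod_cast h3))
    refine ⟨dfac p n • x', ⟨x', rfl⟩, ?_⟩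
    intro c hc hpc s hs y
    have := hx' (c * dfac p n) (Finset.mem_image.2 ⟨c, by
      rw [Finset.mem_filter, Finset.mem_Icc]
      exact ⟨abs_le.1 hc, hpc⟩, rfl⟩) s hs y
    rwa [mul_smul, natCast_zsmul] at this)
  exact tseq hN hsep hmin hp.one_lt.ne' hU' hS (fun n => (hx n).2) (h2 x fun n => (hx n).1)

/-- Minimal groups of prime exponent are precompact. -/
theorem TB_of_exponent {N : Filter X} (hN : GF N) (hsep : Sep N) (hmin : LM N univ) {p : ℕ}
    (hp : p.Prime) (hexp : ∀ x : X, p • x = 0) : TB N := by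
  intro U hU
  obtain ⟨F, hF, h⟩ := stepK hN hsep hmin hp (by
    intro x _ U hU
    refine ⟨1, ?_, ?_⟩
    · intro i hi V hV
      refine ⟨V, hV, fun z hz => ?_⟩
      have : i = 0 := by omega
      subst this
      simpa using hz
    · intro a _ ha
      obtain ⟨m, hm⟩ := exists_bound a
      rw [Phi_eq_sum x a hm, Finset.sum_eq_zero]
      · exact hN.zero_mem hU
      · intro i _
        obtain ⟨c, hc⟩ := ha i
        rw [hc, pow_one, mul_comm, mul_smul, natCast_zsmul, hexp, smul_zero]) hU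
  refine ⟨F, hF, fun x => ?_⟩
  obtain ⟨f, hf, y, hy⟩ := h x
  refine ⟨f, hf, ?_⟩
  rwa [hexp, sub_zero] at hy

/-- Multiplication by `k` is an embedding in a minimal group in which it is injective. -/
theorem division {N : Filter X} (hN : GF N) (hsep : Sep N) (hmin : LM N univ) {k : ℕ}
    (hk : ∀ z : X, k • z = 0 → z = 0) {U : Set X} (hU : U ∈ N) :
    ∃ U'' ∈ N, ∀ z : X, k • z ∈ U'' → z ∈ U := by
  have h1 : GF (comap (nsmulAddMonoidHom k : X →+ X) N) := hN.comap _
  have h2 : Sep (comap (nsmulAddMonoidHom k : X →+ X) N) := by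
    intro x hx
    obtain ⟨V, hV, hxV⟩ := hsep (k • x) (fun h => hx (hk x h))
    exact ⟨_, preimage_mem_comap hV, hxV⟩
  have h3 : N ≤ comap (nsmulAddMonoidHom k : X →+ X) N := (hN.nsmul k).le_comap
  obtain ⟨V, hV, hVU⟩ := mem_comap.1 (hmin _ h1 h2 h3 univ_mem hU)
  exact ⟨V, hV, fun z hz => hVU hz⟩

/-- Torsion-free minimal groups with arbitrarily small multiples are precompact. -/
theorem TB_of_torsionFree {N : Filter X} (hN : GF N) (hsep : Sep N) (hmin : LM N univ)
    (htf : ∀ k : ℕ, 0 < k → ∀ z : X, k • z = 0 → z = 0)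
    (hsmall : ∀ U ∈ N, ∃ c : ℕ, 0 < c ∧ ∀ x : X, c • x ∈ U) : TB N := by
  classical
  have hgood : ∀ p : ℕ, p.Prime → Good N p := by
    intro p hp x hx U hU
    obtain ⟨c, hc0, hc⟩ := hsmall U hU
    obtain ⟨e₀, c', hc', rfl⟩ := Nat.exists_eq_pow_mul_and_not_dvd hc0.ne' p hp.ne_one
    have hc'0 : 0 < c' := Nat.pos_of_mul_pos_left hc0
    refine ⟨e₀ + c' + 1, ?_, ?_⟩
    · intro i _ U' hU'
      exact division hN hsep hmin (htf _ (pow_pos hp.pos _)) hU'
    · intro a ha hpa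
      choose y hy using hx
      obtain ⟨m, hm⟩ := exists_bound a
      have hz : ∀ i, ∃ z : X, a i • x i = (p ^ e₀ * c') • z := by
        intro i
        by_cases h0 : a i = 0
        · exact ⟨0, by simp [h0]⟩
        · have h1 : (2 : ℤ) ^ (e₀ + c' + 1) ≤ |a i| := by
            have h3 : (p : ℤ) ^ (e₀ + c' + 1) ≤ |a i| := by
              have := Int.le_of_dvd (abs_pos.2 h0) ((dvd_abs _ _).2 (hpa i))
              exact this
            refine le_trans (pow_le_pow_left₀ (by norm_num) ?_ _) h3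
            exact_mod_cast hp.two_le
          have h3 : (2 : ℤ) ^ (e₀ + c' + 1) ≤ 2 ^ i := h1.trans (ha i)
          have h4 : e₀ + c' + 1 ≤ i := by
            by_contra h
            have : (2 : ℤ) ^ i < 2 ^ (e₀ + c' + 1) :=
              pow_lt_pow_right₀ (by norm_num) (not_le.1 h)
            omega
          obtain ⟨r, hr⟩ := dvd_dfac hp hc'0 hc' (show c' ≤ i by omega)
          have h5 : (p : ℤ) ^ e₀ ∣ a i := (pow_dvd_pow _ (by omega)).trans (hpa i)
          obtain ⟨q, hq⟩ := h5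
          refine ⟨(q * r) • y i, ?_⟩
          rw [hy i, hr, hq, ← natCast_zsmul, ← natCast_zsmul, smul_smul, smul_smul]
          congr 1
          push_cast
          ring
      choose z hz using hz
      have : Phi x a = (p ^ e₀ * c') • ∑ i ∈ Finset.range m, z i := by
        rw [Phi_eq_sum x a hm, Finset.smul_sum]
        exact Finset.sum_congr rfl fun i _ => hz i
      rw [this]
      exact hc _
  have hall : ∀ c : ℕ, 0 < c → ∀ W ∈ N, ∃ F : Set X, F.Finite ∧ ∀ x, ∃ f ∈ F, ∃ y : X,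
      x - f - c • y ∈ W := by
    intro c
    induction c using induction_on_primes with
    | zero => intro h; exact absurd h (lt_irrefl 0)
    | one =>
      intro _ W hW
      refine ⟨{0}, finite_singleton 0, fun x => ⟨0, rfl, x, ?_⟩⟩
      simpa using hN.zero_mem hW
    | prime_mul p a hp ih =>
      intro hpa W hW
      have ha : 0 < a := Nat.pos_of_mul_pos_left hpa
      obtain ⟨W₁, hW₁, hWW⟩ := hN.half hW
      obtain ⟨F₁, hF₁, h1⟩ := ih ha W₁ hW₁
      obtain ⟨F₂, hF₂, h2⟩ := stepK hN hsep hmin hp (hgood p hp) (hN.nsmul a hW₁)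
      refine ⟨F₁ + (fun g => a • g) '' F₂, hF₁.add (hF₂.image _), fun x => ?_⟩
      obtain ⟨f, hf, y, hy⟩ := h1 x
      obtain ⟨g, hg, z, hz⟩ := h2 y
      refine ⟨f + a • g, Set.add_mem_add hf ⟨g, hg, rfl⟩, z, ?_⟩
      have := hWW _ hy _ hz
      convert this using 1
      rw [mul_comm, mul_smul]
      simp only [smul_sub]
      abel
  intro U hU
  obtain ⟨U₁, hU₁, hUU⟩ := hN.half hU
  obtain ⟨c, hc0, hc⟩ := hsmall U₁ hU₁
  obtain ⟨F, hF, h⟩ := hall c hc0 U₁ hU₁
  refine ⟨F, hF, fun x => ?_⟩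
  obtain ⟨f, hf, y, hy⟩ := h x
  refine ⟨f, hf, ?_⟩
  have := hUU _ hy _ (hc y)
  simpa using this

end Pool.Agent.Lib.MP_335999_gt
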