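import Pool.Agent.Lib.MP_335999_gt.Bump
import Pool.Agent.Lib.MP_335999_gt.Core
import Pool.Agent.Lib.MP_335999_gt.Precompact

/-!
# Minimal abelian groups of countable tightness have countable pseudocharacter
-/

open Filter Topology Set

namespace Pool.Agent.Lib.MP_335999_gt

universe u

variable {X : Type u} [AddCommGroup X]

/-- Precompact Hausdorff groups have enough characters. -/
theorem MAP_of_TB {N : Filter X} (hN : GF N) (hsep : Sep N) (htb : TB N) : MAP N := by
  intro x hx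
  by_contra hcon
  push Not at hcon
  obtain ⟨U, hU, hxU⟩ := hsep x hx
  apply hxU
  obtain ⟨U', hU', h⟩ := folner hN hU
  have := h X (AddMonoidHom.id X) (htb U' hU') x (by
    intro χ hχ
    rw [AddMonoidHom.coe_id, comap_id] at hχ
    exact hcon χ hχ)
  exact this

/-- the common kernel of all continuous characters -/
noncomputable def vN (N : Filter X) : AddSubgroup X where
  carrier := {x | ∀ χ ∈ Gam N, χ x = 0}
  zero_mem' := fun χ _ => map_zero χ
  add_mem' := by
    intro a b ha hb χ hχ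
    rw [map_add, ha χ hχ, hb χ hχ, add_zero]
  neg_mem' := by
    intro a ha χ hχ
    rw [map_neg, ha χ hχ, neg_zero]

theorem clo_vN (N : Filter X) : Clo N (vN N) := by
  intro x hx χ hχ
  rw [← ev_eq_one_iff, ← sub_eq_zero, ← norm_eq_zero]
  refine le_antisymm (le_of_forall_pos_le_add fun ε hε => ?_) (norm_nonneg _)
  obtain ⟨y, hy, hxy⟩ := hx _ (ball_mem_of_Gam hχ hε)
  have h1 : ‖ev χ (x - y) - 1‖ < ε := hxy
  rw [ev_sub, (ev_eq_one_iff χ y).2 (hy χ hχ)] at h1
  linarith

theorem clo_torsion {N : Filter X} (hN : GF N) (hsep : Sep N) (p : ℕ) :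
    Clo N (nsmulAddMonoidHom p : X →+ X).ker := by
  intro x hx
  change p • x = 0
  by_contra hpx
  obtain ⟨U, hU, hxU⟩ := hsep _ hpx
  obtain ⟨y, hy, hxy⟩ := hx _ (hN.nsmul p hU)
  apply hxU
  have h1 : p • (x - y) ∈ U := hxy
  have h2 : p • y = 0 := hy
  rwa [smul_sub, h2, sub_zero] at h1

/-- The torsion-free case. -/
theorem psi_of_torsionFree {N : Filter X} (hN : GF N) (hsep : Sep N) (hmin : LM N univ)
    (hct : CT N) (htf : ∀ k : ℕ, 0 < k → ∀ z : X, k • z = 0 → z = 0) : Psi N := by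
  have htf' : ∀ L : AddSubgroup X, ∀ k : ℕ, 0 < k → ∀ z : L, k • z = 0 → z = 0 := by
    intro L k hk z hz
    exact Subtype.ext (htf k hk z.1 (congrArg Subtype.val hz))
  -- the common kernel of the characters
  have hRmin : LM (tr N (vN N)) univ := hmin.closed' hN (clo_vN N)
  have hRsmall : ∀ U ∈ tr N (vN N), ∃ c : ℕ, 0 < c ∧ ∀ x : vN N, c • x ∈ U := by
    intro U hU
    obtain ⟨U₀, hU₀, hUU⟩ := mem_comap.1 hU
    obtain ⟨U', hU', h⟩ := folner hN hU₀
    obtain ⟨c, hc, F, hF, hFc⟩ := bounded_multiple hN hsep hmin hU'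
    refine ⟨c, hc, fun x => hUU ?_⟩
    refine h X (nsmulAddMonoidHom c) ⟨F, hF, hFc⟩ x.1 fun χ hχ => x.2 χ ?_
    exact (mem_Gam.1 hχ).mono_left (hN.nsmul c).le_comap
  have hRtb : TB (tr N (vN N)) :=
    TB_of_torsionFree (hN.tr _) (hsep.tr _) hRmin (htf' _) hRsmall
  have hRpsi : Psi (tr N (vN N)) :=
    psi_torsionFree hRmin (MAP_of_TB (hN.tr _) (hsep.tr _) hRtb) (hct.tr _) (htf' _)
  -- pass to an admissible subgroup
  obtain ⟨C, hC, hCN, hC0⟩ := hRpsi
  have hC' : ∀ U ∈ C, ∃ U₀ ∈ N, (Subtype.val : vN N → X) ⁻¹' U₀ ⊆ U := fun U hU =>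
    mem_comap.1 (hCN U hU)
  choose! g hg1 hg2 using hC'
  obtain ⟨F, hF, hle, hcg, hCF⟩ := hN.exists_countable (hC.image g) (by
    rintro _ ⟨U, hU, rfl⟩
    exact hg1 U hU)
  refine Psi.of_ker hF hle hcg ?_
  have hLmin : LM (tr N hF.ker) univ := hmin.closed' hN (hF.ker_clo hle)
  have hLmap : MAP (tr N hF.ker) := by
    intro x hx
    have hxR : x.1 ∉ vN N := by
      intro h
      have h1 := hC0 ⟨x.1, h⟩ fun U hU => hg2 U hU (x.2 _ (hCF _ ⟨U, hU, rfl⟩))
      have h2 : x.1 = 0 := congrArg (fun z : vN N => (z : X)) h1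
      exact hx (Subtype.ext h2)
    have hex : ∃ χ ∈ Gam N, χ x.1 ≠ 0 := by
      by_contra hcon
      push Not at hcon
      exact hxR hcon
    obtain ⟨χ, hχ, hχx⟩ := hex
    refine ⟨χ.comp hF.ker.subtype, ?_, hχx⟩
    exact (mem_Gam.1 hχ).comp tendsto_comap
  exact psi_torsionFree hLmin hLmap (hct.tr _) (htf' _)

/-- Minimal abelian groups of countable tightness have countable pseudocharacter. -/
theorem psi_of_minimal {N : Filter X} (hN : GF N) (hsep : Sep N) (hmin : LM N univ)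
    (hct : CT N) : Psi N := by
  -- the socles
  have hsoc : ∀ p : ℕ, p.Prime → Psi (tr N (nsmulAddMonoidHom p : X →+ X).ker) := by
    intro p hp
    have h1 : LM (tr N (nsmulAddMonoidHom p : X →+ X).ker) univ :=
      hmin.closed' hN (clo_torsion hN hsep p)
    have h2 : ∀ x : (nsmulAddMonoidHom p : X →+ X).ker, p • x = 0 := fun x => Subtype.ext x.2
    have h3 := TB_of_exponent (hN.tr _) (hsep.tr _) h1 hp h2
    exact psi_exponent h1 (MAP_of_TB (hN.tr _) (hsep.tr _) h3) (hct.tr _) hp h2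
  have hC' : ∀ p : ℕ, ∃ C : Set (Set X), C.Countable ∧ (∀ U ∈ C, U ∈ N) ∧
      (p.Prime → ∀ x : X, p • x = 0 → (∀ U ∈ C, x ∈ U) → x = 0) := by
    intro p
    by_cases hp : p.Prime
    · obtain ⟨C, hC, hCN, hC0⟩ := hsoc p hp
      have hC' : ∀ U ∈ C, ∃ U₀ ∈ N,
          (Subtype.val : (nsmulAddMonoidHom p : X →+ X).ker → X) ⁻¹' U₀ ⊆ U := fun U hU =>
        mem_comap.1 (hCN U hU)
      choose! g hg1 hg2 using hC'
      refine ⟨g '' C, hC.image g, ?_, ?_⟩
      · rintro _ ⟨U, hU, rfl⟩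
        exact hg1 U hU
      · intro _ x hpx hx
        have h1 := hC0 ⟨x, hpx⟩ fun U hU => hg2 U hU (hx _ ⟨U, hU, rfl⟩)
        exact congrArg Subtype.val h1
    · exact ⟨∅, countable_empty, by simp, fun h => absurd h hp⟩
  choose C hC hCN hC0 using hC'
  obtain ⟨F, hF, hle, hcg, hCF⟩ := hN.exists_countable (C := ⋃ p, C p)
    (countable_iUnion hC) (by
    intro U hU
    obtain ⟨p, hp⟩ := mem_iUnion.1 hU
    exact hCN p U hp)
  refine Psi.of_ker hF hle hcg ?_
  refine psi_of_torsionFree (hN.tr _) (hsep.tr _) (hmin.closed' hN (hF.ker_clo hle)) (hct.tr _) ?_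
  intro k
  induction k using induction_on_primes with
  | zero => intro h; exact absurd h (lt_irrefl 0)
  | one => intro _ z hz; simpa using hz
  | prime_mul p a hp ih =>
    intro hpa z hz
    refine ih (Nat.pos_of_mul_pos_left hpa) z ?_
    have h1 : p • (a • z) = 0 := by rw [← mul_smul]; exact hz
    apply Subtype.ext
    exact hC0 p hp (a • z).1 (congrArg Subtype.val h1) fun U hU =>
      (a • z).2 U (hCF U (mem_iUnion.2 ⟨p, hU⟩))

/-- Locally minimal abelian groups of countable tightness are first countable. -/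
theorem countablyGenerated_of_LM {N : Filter X} (hN : GF N) (hsep : Sep N) {V : Set X}
    (hV : V ∈ N) (hmin : LM N V) (hct : CT N) : N.IsCountablyGenerated := by
  obtain ⟨V', hV', hVV⟩ := hN.half hV
  obtain ⟨F, hF, hle, hcg, hCF⟩ := hN.exists_countable (countable_singleton V') (by
    rintro U rfl
    exact hV')
  refine hmin.countablyGenerated hN hV (Psi.of_ker hF hle hcg ?_)
  refine psi_of_minimal (hN.tr _) (hsep.tr _) ?_ (hct.tr _)
  exact hmin.closed hN (hF.ker_clo hle) hV' fun x hx u hu => hVV x (hx V' (hCF V' rfl)) u hu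

end Pool.Agent.Lib.MP_335999_gt
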