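import Pool.Agent.Lib.MP_335999_gt.Filters

/-!
# Coarser group topologies making a sequence converge

Applications to minimal abelian groups.
-/

open Filter Pointwise Set

namespace Pool.Agent.Lib.MP_335999_gt

variable {X : Type*} [AddCommGroup X]

/-- a covering lemma of B. H. Neumann type for sets -/
theorem neumann {ι : Type*} (M : ι → Set X) (C : Finset ι) :
    ∀ F : ι → Set X, (∀ c, (F c).Finite) → (∀ x, ∃ c ∈ C, ∃ f ∈ F c, x - f ∈ M c) →
    ∃ c ∈ C, ∃ F' : Set X, F'.Finite ∧ ∀ x, ∃ f ∈ F', ∃ u ∈ M c, ∃ v ∈ M c, x - f = u - v := by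
  classical
  induction C using Finset.induction with
  | empty =>
    intro F hF h
    obtain ⟨c, hc, _⟩ := h 0
    simp at hc
  | insert c C hcC ih =>
    intro F hF h
    by_cases hsyn : ∃ F' : Set X, F'.Finite ∧ ∀ x, ∃ f ∈ F', ∃ u ∈ M c, ∃ v ∈ M c, x - f = u - v
    · exact ⟨c, Finset.mem_insert_self _ _, hsyn⟩
    · push Not at hsyn
      obtain ⟨x₀, hx₀⟩ := hsyn (F c - F c) ((hF c).sub (hF c))
      obtain ⟨d, hd, hd'⟩ := ih (fun d => F d ∪ ((fun y => x₀ + y) '' F d))
        (fun d => (hF d).union ((hF d).image _)) (by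
          intro x
          obtain ⟨d, hd, f, hf, hxf⟩ := h x
          rcases Finset.mem_insert.1 hd with rfl | hd
          · obtain ⟨e, he, f', hf', hxf'⟩ := h (x - x₀)
            rcases Finset.mem_insert.1 he with rfl | he
            · exact absurd (by abel) (hx₀ (f - f') (Set.sub_mem_sub hf hf') (x - f) hxf
                (x - x₀ - f') hxf')
            · refine ⟨e, he, x₀ + f', Or.inr ⟨f', hf', rfl⟩, ?_⟩
              rwa [← sub_sub]
          · exact ⟨d, hd, f, Or.inl hf, hxf⟩)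
      exact ⟨d, Finset.mem_insert_of_mem hd, hd'⟩

/-- selection of elements avoiding finitely many conditions -/
theorem select {N : Filter X} (hN : GF N) (p : ℕ) {U₃ : Set X} (hU₃ : U₃ ∈ N) :
    ∃ U' ∈ N, ∀ (C : Finset ℤ) (S : Finset X),
      (∀ c ∈ C, ¬ ∃ F : Set X, F.Finite ∧ ∀ x, ∃ f ∈ F, ∃ y : X, c • (x - f) - p • y ∈ U₃) →
      ∃ x : X, ∀ c ∈ C, ∀ s ∈ S, ∀ y : X, c • x - s - p • y ∉ U' := by
  obtain ⟨U₂, hU₂, h23⟩ := hN.sub_half hU₃
  obtain ⟨U', hU', h12⟩ := hN.sub_half hU₂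
  refine ⟨U', hU', fun C S hC => ?_⟩
  by_contra hcon
  push Not at hcon
  have hrep : ∀ q : ℤ × X, ∃ r : X, (∃ x y : X, q.1 • x - q.2 - p • y ∈ U') →
      ∃ y : X, q.1 • r - q.2 - p • y ∈ U' := by
    intro q
    by_cases h : ∃ x y : X, q.1 • x - q.2 - p • y ∈ U'
    · obtain ⟨x, hx⟩ := h
      exact ⟨x, fun _ => hx⟩
    · exact ⟨0, fun h' => absurd h' h⟩
  choose r hr using hrep
  obtain ⟨c, hc, F', hF', h⟩ := neumann (fun c : ℤ => {x : X | ∃ y : X, c • x - p • y ∈ U₂}) C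
    (fun c => (fun s => r (c, s)) '' (S : Set X)) (fun c => S.finite_toSet.image _) (by
      intro x
      obtain ⟨c, hc, s, hs, y, hy⟩ := hcon x
      obtain ⟨y₀, hy₀⟩ := hr (c, s) ⟨x, y, hy⟩
      refine ⟨c, hc, r (c, s), ⟨s, hs, rfl⟩, y - y₀, ?_⟩
      have := h12 _ hy _ hy₀
      convert this using 1
      simp only [smul_sub]
      abel)
  refine hC c hc ⟨F', hF', fun x => ?_⟩
  obtain ⟨f, hf, u, ⟨yu, hu⟩, v, ⟨yv, hv⟩, huv⟩ := h x
  refine ⟨f, hf, yu - yv, ?_⟩
  have := h23 _ hu _ hv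
  convert this using 1
  rw [huv]
  simp only [smul_sub]
  abel

/-- construction of a sequence, keeping track of bounded combinations of the earlier terms -/
theorem exists_seq (P : ℕ → Finset X → X → Prop) (hP : ∀ n S, ∃ x, P n S x) :
    ∃ (x : ℕ → X) (S : ℕ → Finset X), (∀ n, P n (S n) (x n)) ∧
      ∀ n (b : ℕ → ℤ), (∀ i, |b i| ≤ 2 ^ (i + 1)) → ∑ i ∈ Finset.range n, b i • x i ∈ S n := by
  classical
  choose g hg using hP
  let S : ℕ → Finset X := fun n => Nat.rec {0}
    (fun n S => S + (Finset.Icc (-2 ^ (n + 1) : ℤ) (2 ^ (n + 1))).image (fun c => c • g n S)) n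
  have hS0 : S 0 = {0} := rfl
  have hSs : ∀ n, S (n + 1) =
      S n + (Finset.Icc (-2 ^ (n + 1) : ℤ) (2 ^ (n + 1))).image (fun c => c • g n (S n)) :=
    fun n => rfl
  refine ⟨fun n => g n (S n), S, fun n => hg n (S n), ?_⟩
  intro n b hb
  induction n with
  | zero => simp [hS0]
  | succ n ih =>
    rw [Finset.sum_range_succ, hSs]
    refine Finset.add_mem_add ih (Finset.mem_image.2 ⟨b n, ?_, rfl⟩)
    rw [Finset.mem_Icc]
    exact abs_le.1 (hb n)

/-- small coefficient sequences -/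
def coef (k : ℕ) : Set (ℕ →₀ ℤ) := {a | ∀ n, 2 ^ k * |a n| ≤ 2 ^ n}

theorem coef_anti : Antitone coef := by
  intro k l hkl a ha n
  refine le_trans ?_ (ha n)
  exact mul_le_mul_of_nonneg_right (pow_le_pow_right₀ (by norm_num) hkl) (abs_nonneg _)

theorem coef_eq_zero {k : ℕ} {a : ℕ →₀ ℤ} (ha : a ∈ coef k) {n : ℕ} (hn : n < k) : a n = 0 := by
  by_contra h
  have h1 : (1 : ℤ) ≤ |a n| := Int.one_le_abs h
  have h2 := ha n
  have h3 : (2 : ℤ) ^ n < 2 ^ k := pow_lt_pow_right₀ (by norm_num) hn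
  have h4 : (2 : ℤ) ^ k ≤ 2 ^ k * |a n| := le_mul_of_one_le_right (by positivity) h1
  omega

/-- the group filter of small coefficient sequences -/
def coefF : Filter (ℕ →₀ ℤ) := ⨅ k, 𝓟 (coef k)

theorem coefF_basis : coefF.HasAntitoneBasis coef := HasAntitoneBasis.iInf_principal coef_anti

theorem coefF_gf : GF coefF where
  zero := by
    refine le_iInf fun k => ?_
    rw [le_principal_iff]
    change coef k ∈ (pure 0 : Filter (ℕ →₀ ℤ))
    rw [mem_pure]
    intro n
    simp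
  add := by
    refine le_iInf fun k => ?_
    rw [le_principal_iff]
    refine Filter.mem_add.2 ⟨coef (k + 1), coefF_basis.mem _, coef (k + 1), coefF_basis.mem _, ?_⟩
    rintro _ ⟨a, ha, b, hb, rfl⟩ n
    have h1 := ha n
    have h2 := hb n
    have h3 : |(a + b) n| ≤ |a n| + |b n| := by
      rw [Finsupp.add_apply]; exact abs_add_le _ _
    have h4 : (2 : ℤ) ^ k * |(a + b) n| ≤ 2 ^ k * (|a n| + |b n|) :=
      mul_le_mul_of_nonneg_left h3 (by positivity)
    have h5 : (2 : ℤ) ^ (k + 1) * |a n| = 2 * (2 ^ k * |a n|) := by ring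
    have h6 : (2 : ℤ) ^ (k + 1) * |b n| = 2 * (2 ^ k * |b n|) := by ring
    have h7 : (2 : ℤ) ^ k * (|a n| + |b n|) = 2 ^ k * |a n| + 2 ^ k * |b n| := by ring
    change (2 : ℤ) ^ k * |(a + b) n| ≤ 2 ^ n
    omega
  neg := by
    refine le_iInf fun k => ?_
    rw [le_principal_iff]
    refine mem_map.2 (mem_of_superset (coefF_basis.mem k) ?_)
    intro a ha n
    simpa using ha n

/-- the linear combination map -/
noncomputable def Phi (x : ℕ → X) : (ℕ →₀ ℤ) →+ X :=
  (Finsupp.linearCombination ℤ x).toAddMonoidHom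

theorem Phi_single (x : ℕ → X) (n : ℕ) (c : ℤ) : Phi x (Finsupp.single n c) = c • x n := by
  simp [Phi]

theorem Phi_eq_sum (x : ℕ → X) (a : ℕ →₀ ℤ) {m : ℕ} (hm : ∀ i, m ≤ i → a i = 0) :
    Phi x a = ∑ i ∈ Finset.range m, a i • x i := by
  change Finsupp.linearCombination ℤ x a = _
  rw [Finsupp.linearCombination_apply]
  refine Finsupp.sum_of_support_subset a ?_ _ (by simp)
  intro i hi
  rw [Finset.mem_range]
  by_contra h
  exact Finsupp.mem_support_iff.1 hi (hm i (not_lt.1 h))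

theorem exists_bound (a : ℕ →₀ ℤ) : ∃ m, ∀ i, m ≤ i → a i = 0 := by
  refine ⟨a.support.sup id + 1, fun i hi => ?_⟩
  by_contra h
  have : i ≤ a.support.sup id := Finset.le_sup (f := id) (Finsupp.mem_support_iff.2 h)
  omega

/-- The top index argument. -/
theorem top_index {p : ℕ} {U' : Set X} {x : ℕ → X} {S : ℕ → Finset X}
    (hS : ∀ n (b : ℕ → ℤ), (∀ i, |b i| ≤ 2 ^ (i + 1)) → ∑ i ∈ Finset.range n, b i • x i ∈ S n)
    (h1 : ∀ n, ∀ c : ℤ, |c| ≤ 2 ^ (n + 1) → ¬ ((p : ℤ) ∣ c) →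
      ∀ s ∈ S n, ∀ y : X, c • x n - s - p • y ∉ U')
    {b : ℕ →₀ ℤ} (hb : ∀ n, |b n| ≤ 2 ^ (n + 1)) (hbU : Phi x b ∈ U') : ∀ n, (p : ℤ) ∣ b n := by
  classical
  by_contra hcon
  push Not at hcon
  obtain ⟨n₀, hn₀⟩ := hcon
  set T := b.support.filter (fun n => ¬ ((p : ℤ) ∣ b n)) with hT
  have hTne : T.Nonempty := by
    refine ⟨n₀, ?_⟩
    rw [hT, Finset.mem_filter, Finsupp.mem_support_iff]
    refine ⟨fun h => hn₀ ?_, hn₀⟩
    rw [h]
    exact dvd_zero _
  set n := T.max' hTne with hn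
  have hnT : n ∈ T := T.max'_mem hTne
  have hnp : ¬ ((p : ℤ) ∣ b n) := (Finset.mem_filter.1 hnT).2
  have hgt : ∀ i, n < i → (p : ℤ) ∣ b i := by
    intro i hi
    by_contra h
    have hiT : i ∈ T := by
      rw [hT, Finset.mem_filter, Finsupp.mem_support_iff]
      refine ⟨fun h0 => h ?_, h⟩
      rw [h0]
      exact dvd_zero _
    have := T.le_max' i hiT
    omega
  obtain ⟨m, hm⟩ := exists_bound b
  have hnm : n < m := by
    by_contra h
    exact Finsupp.mem_support_iff.1 (Finset.mem_filter.1 hnT).1 (hm n (not_lt.1 h))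
  have hsum : Phi x b = ∑ i ∈ Finset.range n, b i • x i + (b n • x n +
      ∑ i ∈ Finset.Ico (n + 1) m, b i • x i) := by
    rw [Phi_eq_sum x b hm, Finset.range_eq_Ico, Finset.range_eq_Ico,
      ← Finset.sum_Ico_consecutive _ (Nat.zero_le n) hnm.le,
      Finset.sum_eq_sum_Ico_succ_bot hnm]
  have hlast : ∑ i ∈ Finset.Ico (n + 1) m, b i • x i =
      p • ∑ i ∈ Finset.Ico (n + 1) m, (b i / p) • x i := by
    rw [Finset.smul_sum]
    refine Finset.sum_congr rfl fun i hi => ?_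
    rw [Finset.mem_Ico] at hi
    have : (p : ℤ) * (b i / p) = b i := Int.mul_ediv_cancel' (hgt i (by omega))
    rw [← natCast_zsmul, smul_smul, this]
  refine h1 n (b n) (hb n) hnp (∑ i ∈ Finset.range n, (-b i) • x i)
    (hS n (fun i => -b i) (fun i => by rw [abs_neg]; exact hb i))
    (-∑ i ∈ Finset.Ico (n + 1) m, (b i / p) • x i) ?_
  have : b n • x n - ∑ i ∈ Finset.range n, (-b i) • x i -
      p • (-∑ i ∈ Finset.Ico (n + 1) m, (b i / p) • x i) = Phi x b := by
    rw [hsum, hlast]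
    simp only [neg_smul, Finset.sum_neg_distrib, smul_neg]
    abel
  rw [this]
  exact hbU

/-- The main contradiction: in a minimal group such sequences do not exist. -/
theorem tseq {N : Filter X} (hN : GF N) (hsep : Sep N) (hmin : LM N univ) {p : ℕ} (hp : p ≠ 1)
    {U' : Set X} (hU' : U' ∈ N) {x : ℕ → X} {S : ℕ → Finset X}
    (hS : ∀ n (b : ℕ → ℤ), (∀ i, |b i| ≤ 2 ^ (i + 1)) → ∑ i ∈ Finset.range n, b i • x i ∈ S n)
    (h1 : ∀ n, ∀ c : ℤ, |c| ≤ 2 ^ (n + 1) → ¬ ((p : ℤ) ∣ c) →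
      ∀ s ∈ S n, ∀ y : X, c • x n - s - p • y ∉ U')
    (h2 : ∀ U ∈ N, ∃ e : ℕ,
      (∀ i < e, ∀ U' ∈ N, ∃ U'' ∈ N, ∀ z : X, p ^ i • z ∈ U'' → z ∈ U') ∧
      ∀ a : ℕ →₀ ℤ, (∀ n, |a n| ≤ 2 ^ n) → (∀ n, (p : ℤ) ^ e ∣ a n) → Phi x a ∈ U) : False := by
  classical
  set G : Filter X := map (Phi x) coefF + N with hG
  have hGF : GF G := (coefF_gf.map (Phi x)).sum hN
  have hle : N ≤ G := GF.le_sum_right (coefF_gf.map (Phi x))
  have hmemG : ∀ (k : ℕ) (W : Set X), W ∈ N → (Phi x '' coef k) + W ∈ G := fun k W hW =>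
    Filter.add_mem_add (image_mem_map (coefF_basis.mem k)) hW
  have hSep : Sep G := by
    intro z hz
    by_contra hcon
    push Not at hcon
    -- it suffices that `z` is in every member of `N`
    obtain ⟨U, hU, hzU⟩ := hsep z hz
    apply hzU
    obtain ⟨U₁, hU₁, hU₁U⟩ := hN.half hU
    obtain ⟨e, he1, he2⟩ := h2 U₁ hU₁
    -- the division neighbourhoods
    have hdiv : ∀ i, ∃ U'' ∈ N, i < e → ∀ z : X, p ^ i • z ∈ U'' → z ∈ U' := by
      intro i
      by_cases hi : i < e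
      · obtain ⟨U'', hU'', h⟩ := he1 i hi U' hU'
        exact ⟨U'', hU'', fun _ => h⟩
      · exact ⟨univ, univ_mem, fun h => absurd h hi⟩
    choose D hD hD' using hdiv
    have hDall : (⋂ i ∈ Finset.range e, D i) ∈ N := (Filter.biInter_finset_mem _).2 fun i _ => hD i
    obtain ⟨W₁, hW₁, hW₁D⟩ := hN.sub_half hDall
    set W := W₁ ∩ U₁ with hW
    have hWN : W ∈ N := inter_mem hW₁ hU₁
    obtain ⟨_, ⟨a, ha, rfl⟩, w, hw, hzw⟩ := hcon _ (hmemG 0 W hWN)
    obtain ⟨m, hm⟩ := exists_bound a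
    obtain ⟨_, ⟨a', ha', rfl⟩, w', hw', hzw'⟩ := hcon _ (hmemG m W hWN)
    have haB : ∀ n, |a n| ≤ 2 ^ n := fun n => by simpa using ha n
    have haB' : ∀ n, |a' n| ≤ 2 ^ n := fun n => by simpa using coef_anti (Nat.zero_le m) ha' n
    set b := a - a' with hb
    have hbB : ∀ n, |b n| ≤ 2 ^ (n + 1) := by
      intro n
      have h3 := haB n
      have h4 := haB' n
      have h5 : |b n| ≤ |a n| + |a' n| := by
        rw [hb, Finsupp.sub_apply]; exact abs_sub _ _
      have h6 : (2 : ℤ) ^ (n + 1) = 2 * 2 ^ n := by ring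
      omega
    have hPb : Phi x b = w' - w := by
      rw [hb, map_sub]
      have h3 : Phi x a = z - w := eq_sub_of_add_eq hzw
      have h4 : Phi x a' = z - w' := eq_sub_of_add_eq hzw'
      rw [h3, h4]
      abel
    have hPbD : Phi x b ∈ ⋂ i ∈ Finset.range e, D i := by
      rw [hPb]
      exact hW₁D _ hw'.1 _ hw.1
    have hpow : ∀ i ≤ e, ∀ n, (p : ℤ) ^ i ∣ b n := by
      intro i
      induction i with
      | zero => intro _ n; simp
      | succ i ih =>
        intro hi n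
        have hdvd := ih (by omega)
        set b' : ℕ →₀ ℤ := b.mapRange (fun c => c / (p : ℤ) ^ i) (by simp) with hb'
        have hbb' : ∀ n, b n = (p : ℤ) ^ i * b' n := by
          intro n
          rw [hb', Finsupp.mapRange_apply]
          exact (Int.mul_ediv_cancel' (hdvd n)).symm
        have hPhi : Phi x b = p ^ i • Phi x b' := by
          have : b = p ^ i • b' := by
            ext n
            rw [hbb' n]
            simp
          rw [this, map_nsmul]
        have hmem : p ^ i • Phi x b' ∈ D i := by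
          rw [← hPhi]
          have := Set.mem_iInter₂.1 hPbD i (Finset.mem_range.2 (by omega))
          exact this
        have hU'mem := hD' i (by omega) _ hmem
        have hbB' : ∀ n, |b' n| ≤ 2 ^ (n + 1) := by
          intro n
          refine le_trans ?_ (hbB n)
          rw [hb', Finsupp.mapRange_apply]
          exact Int.abs_ediv_le_abs _ _
        obtain ⟨c, hc⟩ := top_index hS h1 hbB' hU'mem n
        rw [hbb' n, hc]
        exact ⟨c, by ring⟩
    have hae : ∀ n, (p : ℤ) ^ e ∣ a n := by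
      intro n
      by_cases hn : n < m
      · have h3 := hpow e le_rfl n
        have h4 : b n = a n := by
          rw [hb, Finsupp.sub_apply, coef_eq_zero ha' hn, sub_zero]
        rwa [h4] at h3
      · rw [hm n (not_lt.1 hn)]
        exact dvd_zero _
    have h3 := he2 a haB hae
    have h4 : Phi x a + w = z := hzw
    rw [← h4]
    exact hU₁U _ h3 _ hw.2
  have hGN : G ≤ N := hmin G hGF hSep hle univ_mem
  obtain ⟨A, hA, B, hB, hAB⟩ := Filter.mem_add.1 (hGN hU')
  obtain ⟨k, -, hk⟩ := coefF_basis.toHasBasis.mem_iff.1 (mem_map.1 hA)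
  have hx : x k ∈ U' := by
    have h3 : Finsupp.single k (1 : ℤ) ∈ coef k := by
      intro n
      rw [Finsupp.single_apply]
      split_ifs with h
      · subst h; simp
      · simp
    have h4 := hAB (Set.add_mem_add (hk h3) (hN.zero_mem hB))
    rw [Phi_single] at h4
    simpa using h4
  refine h1 k 1 ?_ ?_ 0 ?_ 0 ?_
  · rw [abs_one]
    exact one_le_pow₀ (by norm_num)
  · intro h
    apply hp
    have := Int.eq_one_of_dvd_one (by positivity) h
    exact_mod_cast this
  · have := hS k 0 (fun i => by simp)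
    simpa using this
  · simpa using hx

end Pool.Agent.Lib.MP_335999_gt
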